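import Pool.Agent.Lib.MP_2fa62b_V.Mean3
import Pool.Agent.Lib.MP_2fa62b_V.Fin9

/-! The mean square of the number of representations by k values of an integer polynomial of
degree k, for almost all integer polynomials in a box. -/

namespace KInt

open Finset

/-- value of x^k + sum_{r<j<k} c_j x^j + sum_{j<=r} a_j x^j -/
def val (k r : ℕ) (c : ℕ → ℤ) (a : Fin r → ℤ) (x : ℤ) : ℤ :=
  x ^ k + ∑ j ∈ Ico (r + 1) k, c j * x ^ j + ∑ j : Fin r, a j * x ^ ((j : ℕ) + 1)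

lemma g_eq_val (k r : ℕ) (hrk : r + 2 ≤ k) (c : ℕ → ℤ) (a : Fin r → ℤ) (x : ℤ) :
    IntHL.g k 1 (IntHL.ext3 k r c a) x = val k r c a x := by
  rw [IntHL.g_ext3 k r hrk c a x]
  simp [val]

lemma term_bound (k j : ℕ) (hk : 1 ≤ k) (hjk : j < k) (Y : ℝ) (hY : 1 ≤ Y) (x : ℝ) (hx : 0 ≤ x) (b : ℝ)
    (hb : |b| ≤ Y ^ (k - j)) : |b * x ^ j| ≤ x ^ k / (2 * k) + (2 * k) ^ k * Y ^ k := by
  have hk' : (1:ℝ) ≤ k := by exact_mod_cast hk
  rw [abs_mul, abs_of_nonneg (by positivity : 0 ≤ x ^ j)]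
  have h1 : |b| * x ^ j ≤ Y ^ (k - j) * x ^ j := mul_le_mul_of_nonneg_right hb (by positivity)
  refine h1.trans ?_
  rcases le_total (2 * k * Y) x with h | h
  · have h2 : Y ≤ x / (2 * k) := by
      rw [le_div_iff₀ (by positivity)]; linarith
    have h3 : Y ^ (k - j) ≤ (x / (2 * k)) ^ (k - j) := pow_le_pow_left₀ (by linarith) h2 _
    have h4 : (x / (2 * k)) ^ (k - j) * x ^ j = x ^ k / (2 * k) ^ (k - j) := by
      rw [div_pow, div_mul_eq_mul_div, ← pow_add]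
      congr 2
      omega
    have h5 : x ^ k / (2 * k) ^ (k - j) ≤ x ^ k / (2 * k) := by
      apply div_le_div_of_nonneg_left (by positivity) (by positivity)
      have h6 : (1:ℝ) ≤ 2 * k := by linarith
      calc (2 * (k:ℝ)) = (2 * (k:ℝ)) ^ 1 := by rw [pow_one]
        _ ≤ (2 * (k:ℝ)) ^ (k - j) := pow_le_pow_right₀ h6 (by omega)
    calc Y ^ (k - j) * x ^ j ≤ (x / (2 * k)) ^ (k - j) * x ^ j := mul_le_mul_of_nonneg_right h3 (by positivity)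
      _ = x ^ k / (2 * k) ^ (k - j) := h4
      _ ≤ x ^ k / (2 * k) := h5
      _ ≤ _ := by
        have : 0 ≤ (2 * (k:ℝ)) ^ k * Y ^ k := by positivity
        linarith
  · have h2 : x ^ j ≤ (2 * k * Y) ^ j := pow_le_pow_left₀ hx h _
    have h3 : Y ^ (k - j) * x ^ j ≤ (2 * k) ^ k * Y ^ k := by
      calc Y ^ (k - j) * x ^ j ≤ Y ^ (k - j) * (2 * k * Y) ^ j := mul_le_mul_of_nonneg_left h2 (by positivity)
        _ = (2 * k) ^ j * (Y ^ (k - j) * Y ^ j) := by rw [mul_pow]; ring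
        _ = (2 * k) ^ j * Y ^ k := by rw [← pow_add]; congr 2; omega
        _ ≤ (2 * k) ^ k * Y ^ k := by
          apply mul_le_mul_of_nonneg_right _ (by positivity)
          exact pow_le_pow_right₀ (by linarith) (by omega)
    have : 0 ≤ x ^ k / (2 * (k:ℝ)) := by positivity
    linarith

lemma val_lower (k r : ℕ) (hk : 1 ≤ k) (hrk : r + 2 ≤ k) (c : ℕ → ℤ) (a : Fin r → ℤ) (Y : ℝ) (hY : 1 ≤ Y)
    (hc : ∀ j ∈ Ico (r + 1) k, |((c j : ℤ) : ℝ)| ≤ Y ^ (k - j))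
    (ha : ∀ j : Fin r, |((a j : ℤ) : ℝ)| ≤ Y ^ (k - ((j : ℕ) + 1))) (x : ℕ) :
    (x : ℝ) ^ k / 2 - k * (2 * k) ^ k * Y ^ k ≤ ((val k r c a x : ℤ) : ℝ) := by
  have hk' : (1:ℝ) ≤ k := by exact_mod_cast hk
  have hx : (0:ℝ) ≤ x := Nat.cast_nonneg x
  set T : ℝ := (x:ℝ) ^ k / (2 * k) + (2 * k) ^ k * Y ^ k with hT
  have hT0 : 0 ≤ T := by positivity
  have h1 : |∑ j ∈ Ico (r + 1) k, ((c j : ℤ) : ℝ) * (x:ℝ) ^ j| ≤ (k - 1 - r : ℕ) * T := by
    refine (Finset.abs_sum_le_sum_abs _ _).trans ?_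
    have : ∑ j ∈ Ico (r + 1) k, |((c j : ℤ) : ℝ) * (x:ℝ) ^ j| ≤ ∑ _j ∈ Ico (r + 1) k, T := by
      apply Finset.sum_le_sum
      intro j hj
      exact term_bound k j hk (by rw [mem_Ico] at hj; omega) Y hY x hx _ (hc j hj)
    refine this.trans ?_
    rw [Finset.sum_const, Nat.card_Ico, nsmul_eq_mul]
    have : k - (r + 1) = k - 1 - r := by omega
    rw [this]
  have h2 : |∑ j : Fin r, ((a j : ℤ) : ℝ) * (x:ℝ) ^ ((j : ℕ) + 1)| ≤ (r : ℕ) * T := by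
    refine (Finset.abs_sum_le_sum_abs _ _).trans ?_
    have : ∑ j : Fin r, |((a j : ℤ) : ℝ) * (x:ℝ) ^ ((j : ℕ) + 1)| ≤ ∑ _j : Fin r, T := by
      apply Finset.sum_le_sum
      intro j _
      exact term_bound k ((j:ℕ) + 1) hk (by have := j.2; omega) Y hY x hx _ (ha j)
    refine this.trans ?_
    rw [Finset.sum_const, Finset.card_univ, Fintype.card_fin, nsmul_eq_mul]
  have h3 : ((val k r c a x : ℤ) : ℝ) = (x:ℝ) ^ k + ∑ j ∈ Ico (r + 1) k, ((c j : ℤ) : ℝ) * (x:ℝ) ^ j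
      + ∑ j : Fin r, ((a j : ℤ) : ℝ) * (x:ℝ) ^ ((j : ℕ) + 1) := by
    unfold val; push_cast; rfl
  rw [h3]
  have h4 := abs_le.mp h1
  have h5 := abs_le.mp h2
  have h6 : ((k - 1 - r : ℕ) : ℝ) * T + (r : ℕ) * T ≤ k * T := by
    rw [← add_mul]
    apply mul_le_mul_of_nonneg_right _ hT0
    have : ((k - 1 - r : ℕ) : ℝ) + ((r : ℕ) : ℝ) = ((k - 1 - r + r : ℕ) : ℝ) := by push_cast; ring
    rw [this]
    exact_mod_cast (by omega : k - 1 - r + r ≤ k)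
  have h7 : (k:ℝ) * T = (x:ℝ) ^ k / 2 + k * (2 * k) ^ k * Y ^ k := by
    rw [hT, mul_add]
    congr 1
    · field_simp
    · ring
  linarith [h4.1, h5.1]

/-- the representations -/
def reps (k r : ℕ) (c : ℕ → ℤ) (a : Fin r → ℤ) (n : ℕ) : Set (Fin k → ℕ) :=
  {x | (∀ i, 0 < x i) ∧ ∑ i, val k r c a (x i) = (n : ℤ)}

lemma reps_bound (k r : ℕ) (hk : 1 ≤ k) (hrk : r + 2 ≤ k) (c : ℕ → ℤ) (a : Fin r → ℤ) (Y Z : ℝ) (hY : 1 ≤ Y)
    (hYZ : Y ≤ Z)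
    (hc : ∀ j ∈ Ico (r + 1) k, |((c j : ℤ) : ℝ)| ≤ Y ^ (k - j))
    (ha : ∀ j : Fin r, |((a j : ℤ) : ℝ)| ≤ Y ^ (k - ((j : ℕ) + 1))) (n : ℕ) (hn : (n:ℝ) ≤ Z ^ k)
    (x : Fin k → ℕ) (hx : x ∈ reps k r c a n) (i : Fin k) :
    (x i : ℝ) ≤ (2 + 2 * k ^ 2 * (2 * k) ^ k + 2 * k * (2 * k) ^ k) * Z := by
  have hk' : (1:ℝ) ≤ k := by exact_mod_cast hk
  obtain ⟨_, hs⟩ := hx
  set D : ℝ := k * (2 * k) ^ k * Y ^ k with hD
  have hD0 : 0 ≤ D := by positivity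
  have h1 : ∀ l, -D ≤ ((val k r c a (x l) : ℤ) : ℝ) := by
    intro l
    have := val_lower k r hk hrk c a Y hY hc ha (x l)
    have h0 : (0:ℝ) ≤ (x l : ℝ) ^ k / 2 := by positivity
    linarith
  have hs' : ∑ l, ((val k r c a (x l) : ℤ) : ℝ) = (n : ℝ) := by
    have := congrArg (fun t : ℤ => (t : ℝ)) hs
    push_cast at this
    exact this
  have h2 : ((val k r c a (x i) : ℤ) : ℝ) ≤ n + k * D := by
    have h3 : ∑ l, ((val k r c a (x l) : ℤ) : ℝ) = ((val k r c a (x i) : ℤ) : ℝ)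
        + ∑ l ∈ Finset.univ.erase i, ((val k r c a (x l) : ℤ) : ℝ) := by
      exact (Finset.add_sum_erase Finset.univ (fun l => ((val k r c a (x l) : ℤ) : ℝ)) (Finset.mem_univ i)).symm
    have h4 : -(k * D) ≤ ∑ l ∈ Finset.univ.erase i, ((val k r c a (x l) : ℤ) : ℝ) := by
      have h5 : ∑ _l ∈ Finset.univ.erase i, (-D) ≤ ∑ l ∈ Finset.univ.erase i, ((val k r c a (x l) : ℤ) : ℝ) :=
        Finset.sum_le_sum (fun l _ => h1 l)
      refine le_trans ?_ h5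
      rw [Finset.sum_const, nsmul_eq_mul]
      have h6 : (((Finset.univ.erase i).card : ℕ) : ℝ) ≤ k := by
        have : (Finset.univ.erase i).card ≤ k := by
          refine (Finset.card_le_univ _).trans ?_
          simp
        exact_mod_cast this
      nlinarith
    linarith
  have h3 := val_lower k r hk hrk c a Y hY hc ha (x i)
  have h4 : (x i : ℝ) ^ k ≤ 2 * n + 2 * (k * D) + 2 * D := by linarith
  have hZ1 : 1 ≤ Z := hY.trans hYZ
  have hYk : Y ^ k ≤ Z ^ k := pow_le_pow_left₀ (by linarith) hYZ _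
  set K : ℝ := 2 + 2 * k ^ 2 * (2 * k) ^ k + 2 * k * (2 * k) ^ k with hK
  have h5 : (x i : ℝ) ^ k ≤ K * Z ^ k := by
    have h6 : D ≤ k * (2 * k) ^ k * Z ^ k := by
      rw [hD]; exact mul_le_mul_of_nonneg_left hYk (by positivity)
    have h7 : 2 * (k * D) ≤ 2 * (k * (k * (2 * k) ^ k * Z ^ k)) := by
      have := mul_le_mul_of_nonneg_left h6 (by linarith : (0:ℝ) ≤ k)
      linarith
    calc (x i : ℝ) ^ k ≤ 2 * n + 2 * (k * D) + 2 * D := h4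
      _ ≤ 2 * Z ^ k + 2 * (k * (k * (2 * k) ^ k * Z ^ k)) + 2 * (k * (2 * k) ^ k * Z ^ k) := by linarith
      _ = K * Z ^ k := by rw [hK]; ring
  have hK1 : 1 ≤ K := by
    rw [hK]
    have : (0:ℝ) ≤ 2 * k ^ 2 * (2 * k) ^ k + 2 * k * (2 * k) ^ k := by positivity
    linarith
  have h8 : (x i : ℝ) ^ k ≤ (K * Z) ^ k := by
    rw [mul_pow]
    refine h5.trans (mul_le_mul_of_nonneg_right ?_ (by positivity))
    calc K = K ^ 1 := by rw [pow_one]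
      _ ≤ K ^ k := pow_le_pow_right₀ hK1 hk
  exact le_of_pow_le_pow_left₀ (by omega) (by positivity) h8

/-- all the representations lie in the cube of side X -/
lemma reps_subset (k r : ℕ) (hk : 1 ≤ k) (hrk : r + 2 ≤ k) (c : ℕ → ℤ) (a : Fin r → ℤ) (Y Z : ℝ) (hY : 1 ≤ Y)
    (hYZ : Y ≤ Z)
    (hc : ∀ j ∈ Ico (r + 1) k, |((c j : ℤ) : ℝ)| ≤ Y ^ (k - j))
    (ha : ∀ j : Fin r, |((a j : ℤ) : ℝ)| ≤ Y ^ (k - ((j : ℕ) + 1))) (X : ℕ)
    (hX : (2 + 2 * k ^ 2 * (2 * k) ^ k + 2 * k * (2 * k) ^ k) * Z ≤ X) (n : ℕ) (hn : (n:ℝ) ≤ Z ^ k) :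
    reps k r c a n ⊆ ((IntHL.cube k X : Finset (Fin k → ℕ)) : Set (Fin k → ℕ)) := by
  intro x hx
  rw [Finset.mem_coe, IntHL.cube, Fintype.mem_piFinset]
  intro i
  rw [mem_Icc]
  refine ⟨hx.1 i, ?_⟩
  have := reps_bound k r hk hrk c a Y Z hY hYZ hc ha n hn x hx i
  exact_mod_cast this.trans hX

lemma reps_finite (k r : ℕ) (hk : 1 ≤ k) (hrk : r + 2 ≤ k) (c : ℕ → ℤ) (a : Fin r → ℤ) (n : ℕ) :
    (reps k r c a n).Finite := by
  set Y : ℝ := 1 + ∑ j ∈ Ico (r + 1) k, |((c j : ℤ) : ℝ)| + ∑ j : Fin r, |((a j : ℤ) : ℝ)| with hYd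
  have hs1 : 0 ≤ ∑ j ∈ Ico (r + 1) k, |((c j : ℤ) : ℝ)| := Finset.sum_nonneg (fun _ _ => abs_nonneg _)
  have hs2 : 0 ≤ ∑ j : Fin r, |((a j : ℤ) : ℝ)| := Finset.sum_nonneg (fun _ _ => abs_nonneg _)
  have hY : 1 ≤ Y := by rw [hYd]; linarith
  have hpow : ∀ m : ℕ, 1 ≤ m → Y ≤ Y ^ m := fun m hm => by
    calc Y = Y ^ 1 := by rw [pow_one]
      _ ≤ Y ^ m := pow_le_pow_right₀ hY hm
  have hc : ∀ j ∈ Ico (r + 1) k, |((c j : ℤ) : ℝ)| ≤ Y ^ (k - j) := by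
    intro j hj
    have h1 : |((c j : ℤ) : ℝ)| ≤ ∑ j ∈ Ico (r + 1) k, |((c j : ℤ) : ℝ)| :=
      Finset.single_le_sum (f := fun j => |((c j : ℤ) : ℝ)|) (fun _ _ => abs_nonneg _) hj
    rw [mem_Ico] at hj
    refine le_trans ?_ (hpow (k - j) (by omega))
    rw [hYd]; linarith
  have ha : ∀ j : Fin r, |((a j : ℤ) : ℝ)| ≤ Y ^ (k - ((j : ℕ) + 1)) := by
    intro j
    have h1 : |((a j : ℤ) : ℝ)| ≤ ∑ j : Fin r, |((a j : ℤ) : ℝ)| :=
      Finset.single_le_sum (f := fun j => |((a j : ℤ) : ℝ)|) (fun _ _ => abs_nonneg _) (Finset.mem_univ j)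
    refine le_trans ?_ (hpow (k - ((j:ℕ) + 1)) (by have := j.2; omega))
    rw [hYd]; linarith
  set Z : ℝ := Y + n with hZ
  have hYZ : Y ≤ Z := by rw [hZ]; have : (0:ℝ) ≤ n := Nat.cast_nonneg n; linarith
  have hn : (n:ℝ) ≤ Z ^ k := by
    have h1 : 1 ≤ Z := hY.trans hYZ
    calc (n:ℝ) ≤ Z := by rw [hZ]; linarith
      _ = Z ^ 1 := by rw [pow_one]
      _ ≤ Z ^ k := pow_le_pow_right₀ h1 hk
  obtain ⟨X, hX⟩ := exists_nat_ge ((2 + 2 * (k:ℝ) ^ 2 * (2 * k) ^ k + 2 * k * (2 * k) ^ k) * Z)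
  exact (Finset.finite_toSet _).subset (reps_subset k r hk hrk c a Y Z hY hYZ hc ha X hX n hn)

/-- the number of pairs of points of the cube with equal sums -/
noncomputable def pairs (k r X : ℕ) (c : ℕ → ℤ) (a : Fin r → ℤ) : ℕ :=
  ((IntHL.cube k X ×ˢ IntHL.cube k X).filter
    (fun p : (Fin k → ℕ) × (Fin k → ℕ) => ∑ i, val k r c a (p.1 i : ℤ) = ∑ i, val k r c a (p.2 i : ℤ))).card

lemma sum_sq_le (k r : ℕ) (c : ℕ → ℤ) (a : Fin r → ℤ) (X M : ℕ)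
    (h : ∀ n ∈ Icc 1 M, reps k r c a n ⊆ ((IntHL.cube k X : Finset (Fin k → ℕ)) : Set (Fin k → ℕ))) :
    ∑ n ∈ Icc 1 M, (reps k r c a n).ncard ^ 2 ≤ pairs k r X c a := by
  classical
  set S : ℕ → Finset (Fin k → ℕ) := fun n => (IntHL.cube k X).filter
    (fun x => ∑ i, val k r c a (x i : ℤ) = (n : ℤ)) with hS
  have h1 : ∀ n ∈ Icc 1 M, (reps k r c a n).ncard = (S n).card := by
    intro n hn
    rw [← Set.ncard_coe_finset]
    congr 1
    ext x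
    constructor
    · intro hx
      have h2 := h n hn hx
      rw [Finset.mem_coe] at h2
      rw [Finset.mem_coe, hS, Finset.mem_filter]
      exact ⟨h2, hx.2⟩
    · intro hx
      rw [Finset.mem_coe, hS, Finset.mem_filter, IntHL.cube, Fintype.mem_piFinset] at hx
      refine ⟨fun i => ?_, hx.2⟩
      have := hx.1 i
      rw [mem_Icc] at this
      omega
  rw [Finset.sum_congr rfl (fun n hn => by rw [h1 n hn])]
  have h2 : ∀ n ∈ Icc 1 M, (S n).card ^ 2 = (S n ×ˢ S n).card := by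
    intro n _
    rw [Finset.card_product, sq]
  rw [Finset.sum_congr rfl h2, ← Finset.card_biUnion]
  · unfold pairs
    apply Finset.card_le_card
    intro p hp
    rw [Finset.mem_biUnion] at hp
    obtain ⟨n, _, hp⟩ := hp
    rw [Finset.mem_product, hS, Finset.mem_filter, Finset.mem_filter] at hp
    rw [Finset.mem_filter, Finset.mem_product]
    exact ⟨⟨hp.1.1, hp.2.1⟩, by rw [hp.1.2, hp.2.2]⟩
  · intro n _ m _ hnm
    rw [Function.onFun, Finset.disjoint_left]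
    intro p hp hp'
    rw [Finset.mem_product, hS, Finset.mem_filter] at hp hp'
    apply hnm
    have h3 := hp.1.2
    have h4 := hp'.1.2
    rw [h3] at h4
    exact_mod_cast h4

/-- the average over the box -/
lemma NS3_eq (k r X : ℕ) (hrk : r + 2 ≤ k) (c : ℕ → ℤ) (A : Fin r → ℕ) :
    IntHL.NS3 k r X c A = ∑ a ∈ IntHL.box A, pairs k r X c a := by
  classical
  unfold IntHL.NS3 pairs
  rw [Finset.card_filter, Finset.sum_product_right]
  apply Finset.sum_congr rfl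
  intro a _
  rw [Finset.card_filter]
  apply Finset.sum_congr rfl
  intro p _
  simp only [g_eq_val k r hrk c a]

end KInt
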