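import Pool.Agent.Lib.MP_df17e9_nt.KInt

/-! The mean square of the number of representations by k values of an integer polynomial of
degree k, for almost all integer polynomials in a box: the main estimate. -/

namespace KInt

open Finset

lemma abs_pow_iff (k m N : ℕ) (hk : 1 ≤ k) (Y : ℝ) (hY : 0 ≤ Y) (hYN : Y ^ k = N) (b : ℤ) :
    |b| ^ k ≤ (N : ℤ) ^ m ↔ |(b : ℝ)| ≤ Y ^ m := by
  have h1 : |b| ^ k ≤ (N : ℤ) ^ m ↔ |(b : ℝ)| ^ k ≤ (N : ℝ) ^ m := by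
    constructor
    · intro h; exact_mod_cast h
    · intro h; exact_mod_cast h
  rw [h1, ← hYN]
  have h2 : (Y ^ k) ^ m = (Y ^ m) ^ k := by rw [← pow_mul, ← pow_mul, mul_comm]
  rw [h2]
  exact pow_le_pow_iff_left₀ (abs_nonneg _) (by positivity) (by omega)

lemma box_eq (k r N : ℕ) (hk : 1 ≤ k) (Y : ℝ) (hY : 0 ≤ Y) (hYN : Y ^ k = N) :
    {a : Fin r → ℤ | ∀ j : Fin r, |a j| ^ k ≤ (N : ℤ) ^ (k - ((j : ℕ) + 1))}
      = ((IntHL.box (fun j : Fin r => ⌊Y ^ (k - ((j : ℕ) + 1))⌋₊) : Finset (Fin r → ℤ)) : Set (Fin r → ℤ)) := by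
  ext a
  rw [Finset.mem_coe, IntHL.box, Fintype.mem_piFinset, Set.mem_setOf_eq]
  apply forall_congr'
  intro j
  rw [abs_pow_iff k _ N hk Y hY hYN, mem_Icc, ← abs_le]
  have h0 : (0:ℝ) ≤ Y ^ (k - ((j : ℕ) + 1)) := by positivity
  constructor
  · intro h
    have h1 : ((a j).natAbs : ℝ) ≤ Y ^ (k - ((j : ℕ) + 1)) := by
      rw [Nat.cast_natAbs]; push_cast; exact h
    have h2 := Nat.le_floor h1
    rw [Int.abs_eq_natAbs]
    exact_mod_cast h2
  · intro h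
    rw [Int.abs_eq_natAbs] at h
    have h1 : (a j).natAbs ≤ ⌊Y ^ (k - ((j : ℕ) + 1))⌋₊ := by exact_mod_cast h
    have h2 := (Nat.le_floor_iff h0).mp h1
    rw [Nat.cast_natAbs] at h2
    push_cast at h2
    exact h2

/-- the bad vectors -/
def bad (k r : ℕ) (c : ℕ → ℤ) (N : ℕ) (δ ε : ℝ) (a : Fin r → ℤ) : Prop :=
  ∃ M : ℕ, (N : ℝ) ^ (1 - δ) ≤ M ∧ (M : ℝ) ≤ (N : ℝ) ^ (1 + δ) ∧
    (M : ℝ) ^ (1 + ε) < ((∑ n ∈ Icc 1 M, (reps k r c a n).ncard ^ 2 : ℕ) : ℝ)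

theorem main (k r : ℕ) (hk : 3 ≤ k) (hrk : r + 2 ≤ k) (hr : 2 * k ≤ (r + 1) * (r + 2)) (ε : ℝ)
    (hε : 0 < ε) (hε1 : ε ≤ 1) : ∃ δ C : ℝ, 0 < δ ∧ ∀ N : ℕ, 1 ≤ N → ∀ c : ℕ → ℤ,
      (∀ j ∈ Ico (r + 1) k, |c j| ^ k ≤ (N : ℤ) ^ (k - j)) →
      (({a : Fin r → ℤ | (∀ j : Fin r, |a j| ^ k ≤ (N : ℤ) ^ (k - ((j : ℕ) + 1))) ∧
        bad k r c N δ ε a}.ncard : ℕ) : ℝ)
        ≤ C * (N : ℝ) ^ (-δ) *
          (({a : Fin r → ℤ | ∀ j : Fin r, |a j| ^ k ≤ (N : ℤ) ^ (k - ((j : ℕ) + 1))}.ncard : ℕ) : ℝ) := by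
  classical
  have hkR : (3:ℝ) ≤ k := by exact_mod_cast hk
  set η : ℝ := ε / 4 with hη
  have hη0 : 0 < η := by rw [hη]; linarith
  set δ : ℝ := ε / (16 * k) with hδ
  have hδ0 : 0 < δ := by rw [hδ]; positivity
  have hδk : δ * k = ε / 16 := by rw [hδ]; field_simp
  have hδ1 : δ ≤ ε / 48 := by
    have : δ * 3 ≤ δ * k := mul_le_mul_of_nonneg_left hkR hδ0.le
    linarith
  obtain ⟨C1, hC1, hmv⟩ := IntHL.mean_value3 k r hk hrk hr η hη0
  set K : ℝ := 2 + 2 * k ^ 2 * (2 * k) ^ k + 2 * k * (2 * k) ^ k with hK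
  have hK1 : 1 ≤ K := by
    rw [hK]
    have : (0:ℝ) ≤ 2 * k ^ 2 * (2 * k) ^ k + 2 * k * (2 * k) ^ k := by positivity
    linarith
  set N0 : ℝ := ((2 * K) ^ k) ^ (2 * k / η) with hN0
  have hN00 : 0 < N0 := by rw [hN0]; positivity
  refine ⟨δ, max (N0 ^ δ) (C1 * (2 * K) ^ (k + 3 * η)), hδ0, ?_⟩
  intro N hN c hc
  have hNR : (1:ℝ) ≤ N := by exact_mod_cast hN
  have hN0' : (0:ℝ) < N := by linarith
  set Y : ℝ := (N:ℝ) ^ (1 / (k:ℝ)) with hYd
  have hY1 : 1 ≤ Y := Real.one_le_rpow hNR (by positivity)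
  have hY0 : 0 < Y := by linarith
  have hYN : Y ^ k = N := by
    rw [hYd, ← Real.rpow_natCast, ← Real.rpow_mul hN0'.le, one_div, inv_mul_cancel₀ (by positivity), Real.rpow_one]
  set A : Fin r → ℕ := fun j => ⌊Y ^ (k - ((j : ℕ) + 1))⌋₊ with hA
  rw [box_eq k r N (by omega) Y hY0.le hYN, Set.ncard_coe_finset]
  set B : Finset (Fin r → ℤ) := IntHL.box A with hB
  have hvol : ((B.card : ℕ) : ℝ) = IntHL.vol A := IntHL.mean_card_box A
  have hsub : {a : Fin r → ℤ | (∀ j : Fin r, |a j| ^ k ≤ (N : ℤ) ^ (k - ((j : ℕ) + 1))) ∧ bad k r c N δ ε a}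
      = ((B.filter (fun a => bad k r c N δ ε a) : Finset (Fin r → ℤ)) : Set (Fin r → ℤ)) := by
    have h1 := box_eq k r N (by omega) Y hY0.le hYN
    ext a
    have h2 := Set.ext_iff.mp h1 a
    rw [Finset.coe_filter, Set.mem_setOf_eq, Set.mem_setOf_eq]
    rw [Set.mem_setOf_eq, Finset.mem_coe] at h2
    rw [h2]
  rw [hsub, Set.ncard_coe_finset]
  set Bad := B.filter (fun a => bad k r c N δ ε a) with hBad
  have hBB : ((Bad.card : ℕ) : ℝ) ≤ B.card := by exact_mod_cast Finset.card_filter_le _ _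
  rcases lt_or_ge (N:ℝ) N0 with hsmall | hlarge
  · -- small N
    have h1 : 1 ≤ max (N0 ^ δ) (C1 * (2 * K) ^ ((k:ℝ) + 3 * η)) * (N:ℝ) ^ (-δ) := by
      rw [Real.rpow_neg hN0'.le, ← div_eq_mul_inv, le_div_iff₀ (by positivity), one_mul]
      exact (Real.rpow_le_rpow hN0'.le hsmall.le hδ0.le).trans (le_max_left _ _)
    calc ((Bad.card : ℕ) : ℝ) ≤ B.card := hBB
      _ = 1 * B.card := by rw [one_mul]
      _ ≤ _ := mul_le_mul_of_nonneg_right h1 (Nat.cast_nonneg _)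
  · -- large N
    set Z : ℝ := Y ^ (1 + δ) with hZ
    have hYZ : Y ≤ Z := by
      calc Y = Y ^ (1:ℝ) := by rw [Real.rpow_one]
        _ ≤ Y ^ (1 + δ) := Real.rpow_le_rpow_of_exponent_le hY1 (by linarith)
    have hZ1 : 1 ≤ Z := hY1.trans hYZ
    have hZk : Z ^ k = (N:ℝ) ^ (1 + δ) := by
      rw [hZ, ← Real.rpow_natCast, ← Real.rpow_mul hY0.le, mul_comm, Real.rpow_mul hY0.le, Real.rpow_natCast, hYN]
    set X : ℕ := ⌈K * Z⌉₊ with hX
    have hKX : K * Z ≤ X := Nat.le_ceil _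
    have hX2 : (X:ℝ) ≤ 2 * K * Z := by
      have h1 : (X:ℝ) < K * Z + 1 := Nat.ceil_lt_add_one (by positivity)
      have h2 : 1 ≤ K * Z := one_le_mul_of_one_le_of_one_le hK1 hZ1
      linarith
    have hX1R : (1:ℝ) ≤ X := (one_le_mul_of_one_le_of_one_le hK1 hZ1).trans hKX
    have hX1 : 1 ≤ X := by exact_mod_cast hX1R
    have hYX : Y ≤ X := by
      refine le_trans ?_ hKX
      calc Y ≤ Z := hYZ
        _ = 1 * Z := by rw [one_mul]
        _ ≤ K * Z := mul_le_mul_of_nonneg_right hK1 (by linarith)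
    have hcR : ∀ j ∈ Ico (r + 1) k, |((c j : ℤ) : ℝ)| ≤ Y ^ (k - j) := fun j hj =>
      (abs_pow_iff k _ N (by omega) Y hY0.le hYN _).mp (hc j hj)
    have hcX : ∀ j ∈ Ico (r + 1) k, |c j| ≤ (X : ℤ) ^ (k - j) := by
      intro j hj
      have h1 : |((c j : ℤ) : ℝ)| ≤ (X:ℝ) ^ (k - j) :=
        (hcR j hj).trans (pow_le_pow_left₀ hY0.le hYX _)
      exact_mod_cast h1
    -- the size of N
    have hYN0 : (2 * K) ^ k ≤ Y ^ (η / 2) := by
      have h1 : N0 ^ (η / (2 * k)) ≤ (N:ℝ) ^ (η / (2 * k)) :=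
        Real.rpow_le_rpow hN00.le hlarge (by positivity)
      have h2 : N0 ^ (η / (2 * k)) = (2 * K) ^ k := by
        rw [hN0, ← Real.rpow_mul (by positivity)]
        have : 2 * (k:ℝ) / η * (η / (2 * k)) = 1 := by field_simp
        rw [this, Real.rpow_one]
      have h3 : (N:ℝ) ^ (η / (2 * k)) = Y ^ (η / 2) := by
        rw [hYd, ← Real.rpow_mul hN0'.le]
        congr 1
        field_simp
      rw [← h2, ← h3]
      exact h1
    have hAj : ∀ j : Fin r, (X : ℝ) ^ ((k : ℝ) - ((j : ℕ) + 1) - η) ≤ 2 * (A j : ℝ) + 1 := by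
      intro j
      have hj := j.2
      set m : ℕ := k - ((j : ℕ) + 1) with hm
      have hmR : (m:ℝ) = (k:ℝ) - ((j : ℕ) + 1) := by
        rw [hm, Nat.cast_sub (by omega)]; push_cast; ring
      have hm1 : (1:ℝ) ≤ m := by
        have : 1 ≤ m := by omega
        exact_mod_cast this
      have hmk : (m:ℝ) ≤ k := by
        have : m ≤ k := by omega
        exact_mod_cast this
      rw [← hmR]
      have hη1 : η ≤ 1 / 4 := by rw [hη]; linarith
      have h1 : (X:ℝ) ^ ((m:ℝ) - η) ≤ (2 * K * Z) ^ ((m:ℝ) - η) :=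
        Real.rpow_le_rpow (by linarith) hX2 (by linarith)
      have h2 : (2 * K * Z) ^ ((m:ℝ) - η) = (2 * K) ^ ((m:ℝ) - η) * Y ^ ((1 + δ) * ((m:ℝ) - η)) := by
        rw [Real.mul_rpow (by positivity) (by linarith), hZ, ← Real.rpow_mul hY0.le]
      have h3 : (2 * K) ^ ((m:ℝ) - η) ≤ (2 * K) ^ k := by
        rw [← Real.rpow_natCast]
        exact Real.rpow_le_rpow_of_exponent_le (by linarith) (by linarith)
      have h4 : Y ^ ((1 + δ) * ((m:ℝ) - η)) ≤ Y ^ ((m:ℝ) - η / 2) := by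
        apply Real.rpow_le_rpow_of_exponent_le hY1
        have h5 : δ * m ≤ δ * k := mul_le_mul_of_nonneg_left hmk hδ0.le
        have h6 : 0 < δ * η := by positivity
        nlinarith
      have h5 : (X:ℝ) ^ ((m:ℝ) - η) ≤ Y ^ m := by
        calc (X:ℝ) ^ ((m:ℝ) - η) ≤ (2 * K) ^ ((m:ℝ) - η) * Y ^ ((1 + δ) * ((m:ℝ) - η)) := by rw [← h2]; exact h1
          _ ≤ (2 * K) ^ k * Y ^ ((m:ℝ) - η / 2) := mul_le_mul h3 h4 (by positivity) (by positivity)
          _ ≤ Y ^ (η / 2) * Y ^ ((m:ℝ) - η / 2) := mul_le_mul_of_nonneg_right hYN0 (by positivity)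
          _ = Y ^ m := by
            rw [← Real.rpow_add hY0, ← Real.rpow_natCast]
            congr 1; ring
      have h6 : Y ^ m < (A j : ℝ) + 1 := Nat.lt_floor_add_one _
      have h7 : (0:ℝ) ≤ A j := Nat.cast_nonneg _
      linarith
    have hmv' := hmv X hX1 c hcX A hAj
    rw [NS3_eq k r X hrk c A, ← hvol] at hmv'
    -- a bad vector has many pairs
    have hbadpairs : ∀ a ∈ Bad, (N:ℝ) ^ ((1 - δ) * (1 + ε)) ≤ ((pairs k r X c a : ℕ) : ℝ) := by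
      intro a ha
      rw [hBad, Finset.mem_filter] at ha
      obtain ⟨haB, M, hM1, hM2, hM3⟩ := ha
      have haR : ∀ j : Fin r, |((a j : ℤ) : ℝ)| ≤ Y ^ (k - ((j : ℕ) + 1)) := by
        have h1 : a ∈ {a : Fin r → ℤ | ∀ j : Fin r, |a j| ^ k ≤ (N : ℤ) ^ (k - ((j : ℕ) + 1))} := by
          rw [box_eq k r N (by omega) Y hY0.le hYN]; exact haB
        intro j
        exact (abs_pow_iff k _ N (by omega) Y hY0.le hYN _).mp (h1 j)
      have h2 : ∀ n ∈ Icc 1 M, reps k r c a n ⊆ ((IntHL.cube k X : Finset (Fin k → ℕ)) : Set (Fin k → ℕ)) := by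
        intro n hn
        rw [mem_Icc] at hn
        apply reps_subset k r (by omega) hrk c a Y Z hY1 hYZ hcR haR X hKX n
        rw [hZk]
        refine le_trans ?_ hM2
        exact_mod_cast hn.2
      have h3 := sum_sq_le k r c a X M h2
      have h4 : ((∑ n ∈ Icc 1 M, (reps k r c a n).ncard ^ 2 : ℕ) : ℝ) ≤ ((pairs k r X c a : ℕ) : ℝ) := by
        exact_mod_cast h3
      refine le_trans ?_ (hM3.le.trans h4)
      rw [Real.rpow_mul hN0'.le]
      exact Real.rpow_le_rpow (by positivity) hM1 (by linarith)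
    have hsum : ((Bad.card : ℕ) : ℝ) * (N:ℝ) ^ ((1 - δ) * (1 + ε)) ≤ C1 * (X : ℝ) ^ ((k : ℝ) + 3 * η) * B.card := by
      calc ((Bad.card : ℕ) : ℝ) * (N:ℝ) ^ ((1 - δ) * (1 + ε)) = ∑ _a ∈ Bad, (N:ℝ) ^ ((1 - δ) * (1 + ε)) := by
            rw [Finset.sum_const, nsmul_eq_mul]
        _ ≤ ∑ a ∈ Bad, ((pairs k r X c a : ℕ) : ℝ) := Finset.sum_le_sum hbadpairs
        _ ≤ ∑ a ∈ B, ((pairs k r X c a : ℕ) : ℝ) :=
            Finset.sum_le_sum_of_subset_of_nonneg (Finset.filter_subset _ _) (fun _ _ _ => Nat.cast_nonneg _)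
        _ = ((∑ a ∈ B, pairs k r X c a : ℕ) : ℝ) := by push_cast; rfl
        _ ≤ _ := hmv'
    have hXk : (X : ℝ) ^ ((k : ℝ) + 3 * η) ≤ (2 * K) ^ ((k:ℝ) + 3 * η) * (N:ℝ) ^ ((1 + δ) * (1 + η)) := by
      calc (X : ℝ) ^ ((k : ℝ) + 3 * η) ≤ (2 * K * Z) ^ ((k : ℝ) + 3 * η) :=
            Real.rpow_le_rpow (by linarith) hX2 (by positivity)
        _ = (2 * K) ^ ((k:ℝ) + 3 * η) * Z ^ ((k : ℝ) + 3 * η) := Real.mul_rpow (by positivity) (by linarith)
        _ ≤ _ := by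
          apply mul_le_mul_of_nonneg_left _ (by positivity)
          have h1 : Z ^ ((k : ℝ) + 3 * η) = (N:ℝ) ^ ((1 + δ) * (((k : ℝ) + 3 * η) / k)) := by
            rw [hZ, hYd, ← Real.rpow_mul hN0'.le, ← Real.rpow_mul hN0'.le]
            congr 1; field_simp
          rw [h1]
          apply Real.rpow_le_rpow_of_exponent_le hNR
          apply mul_le_mul_of_nonneg_left _ (by linarith)
          rw [div_le_iff₀ (by positivity)]
          nlinarith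
    have hfin : ((Bad.card : ℕ) : ℝ) ≤ C1 * (2 * K) ^ ((k:ℝ) + 3 * η) * (N:ℝ) ^ (-δ) * B.card := by
      have hpos : (0:ℝ) < (N:ℝ) ^ ((1 - δ) * (1 + ε)) := by positivity
      have h1 : ((Bad.card : ℕ) : ℝ) * (N:ℝ) ^ ((1 - δ) * (1 + ε))
          ≤ (C1 * (2 * K) ^ ((k:ℝ) + 3 * η) * (N:ℝ) ^ (-δ) * B.card) * (N:ℝ) ^ ((1 - δ) * (1 + ε)) := by
        refine hsum.trans ?_
        have h2 : (N:ℝ) ^ ((1 + δ) * (1 + η)) ≤ (N:ℝ) ^ (-δ) * (N:ℝ) ^ ((1 - δ) * (1 + ε)) := by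
          rw [← Real.rpow_add hN0']
          apply Real.rpow_le_rpow_of_exponent_le hNR
          have h3 : δ * ε ≤ δ := by nlinarith
          have h4 : δ * η ≤ δ := by nlinarith
          nlinarith
        have h5 : (0:ℝ) ≤ C1 := by linarith
        calc C1 * (X : ℝ) ^ ((k : ℝ) + 3 * η) * B.card
            ≤ C1 * ((2 * K) ^ ((k:ℝ) + 3 * η) * (N:ℝ) ^ ((1 + δ) * (1 + η))) * B.card := by
              apply mul_le_mul_of_nonneg_right _ (Nat.cast_nonneg _)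
              exact mul_le_mul_of_nonneg_left hXk h5
          _ ≤ C1 * ((2 * K) ^ ((k:ℝ) + 3 * η) * ((N:ℝ) ^ (-δ) * (N:ℝ) ^ ((1 - δ) * (1 + ε)))) * B.card := by
              apply mul_le_mul_of_nonneg_right _ (Nat.cast_nonneg _)
              apply mul_le_mul_of_nonneg_left _ h5
              exact mul_le_mul_of_nonneg_left h2 (by positivity)
          _ = _ := by ring
      exact le_of_mul_le_mul_right h1 hpos
    refine hfin.trans ?_
    apply mul_le_mul_of_nonneg_right _ (Nat.cast_nonneg _)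
    exact mul_le_mul_of_nonneg_right (le_max_right _ _) (by positivity)

end KInt
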