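import Mathlib

/-! Shifted powers: the measure of the shifts for which a difference of two shifted powers is
close to a given number. -/

namespace KShift

open Finset MeasureTheory

/-- the second difference of a power -/
lemma second_diff (k : ℕ) (hk : 2 ≤ k) {D t t' : ℝ} (hD : 0 ≤ D) (ht : 0 ≤ t) (htt : t ≤ t') :
    D * (t' - t) * (t + D) ^ (k - 2) ≤ ((t' + D) ^ k - t' ^ k) - ((t + D) ^ k - t ^ k) := by
  have ht' : 0 ≤ t' := ht.trans htt
  have h1 := geom_sum₂_mul (t' + D) t' k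
  have h2 := geom_sum₂_mul (t + D) t k
  have h3 : t' + D - t' = D := by ring
  have h4 : t + D - t = D := by ring
  rw [h3] at h1
  rw [h4] at h2
  rw [← h1, ← h2]
  have hterm : ∀ j ∈ range k, (t + D) ^ j * t ^ (k - 1 - j) ≤ (t' + D) ^ j * t' ^ (k - 1 - j) := by
    intro j _
    exact mul_le_mul (pow_le_pow_left₀ (by linarith) (by linarith) j)
      (pow_le_pow_left₀ ht htt _) (pow_nonneg ht _) (pow_nonneg (by linarith) _)
  have h0 : k - 1 ∈ range k := mem_range.2 (by omega)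
  rw [← add_sum_erase _ (fun j => (t' + D) ^ j * t' ^ (k - 1 - j)) h0,
    ← add_sum_erase _ (fun j => (t + D) ^ j * t ^ (k - 1 - j)) h0]
  have h5 := sum_le_sum fun j (hj : j ∈ (range k).erase (k - 1)) => hterm j (mem_of_mem_erase hj)
  have h6 : (t' - t) * (t + D) ^ (k - 2) ≤ (t' + D) ^ (k - 1) - (t + D) ^ (k - 1) := by
    obtain ⟨n, rfl⟩ : ∃ n, k = n + 2 := ⟨k - 2, by omega⟩
    have e1 : n + 2 - 1 = n + 1 := by omega
    have e2 : n + 2 - 2 = n := by omega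
    rw [e1, e2, pow_succ, pow_succ]
    have h7 : (t + D) ^ n ≤ (t' + D) ^ n := pow_le_pow_left₀ (by linarith) (by linarith) n
    have h8 : 0 ≤ t' + D := by linarith
    nlinarith [mul_le_mul_of_nonneg_right h7 h8]
  simp only [Nat.sub_self, pow_zero, mul_one]
  have h7 := mul_le_mul_of_nonneg_left h6 hD
  have h8 := mul_le_mul_of_nonneg_left h5 hD
  linarith

/-- the difference of two shifted powers -/
def G (k : ℕ) (p : ℕ × ℕ) (u : ℝ) : ℝ := ((p.1 : ℝ) + u) ^ k - ((p.2 : ℝ) + u) ^ k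

lemma continuous_G (k : ℕ) (p : ℕ × ℕ) : Continuous (G k p) := by
  unfold G
  fun_prop

/-- the set of the shifts -/
def Sh (k : ℕ) (M c : ℝ) (p : ℕ × ℕ) : Set ℝ := {u | u ∈ Set.Icc (0 : ℝ) 1 ∧ |M + G k p u| ≤ c}

lemma Sh_swap (k : ℕ) (M c : ℝ) (p : ℕ × ℕ) : Sh k M c p = Sh k (-M) c p.swap := by
  unfold Sh G
  ext u
  simp only [Set.mem_ofPred_eq, Prod.fst_swap, Prod.snd_swap]
  have h1 : -M + (((p.2 : ℝ) + u) ^ k - ((p.1 : ℝ) + u) ^ k) =
      -(M + (((p.1 : ℝ) + u) ^ k - ((p.2 : ℝ) + u) ^ k)) := by ring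
  rw [h1, abs_neg]

/-- two shifts for pairs with the same difference -/
lemma shift_close {k : ℕ} (hk : 2 ≤ k) {M c : ℝ} {D w w' Z : ℕ} {u u' : ℝ} (hZ : Z ≤ w + D)
    (hu : u ∈ Sh k M c (w + D, w)) (hu' : u' ∈ Sh k M c (w' + D, w'))
    (hle : (w : ℝ) + u ≤ w' + u') :
    (D : ℝ) * (Z : ℝ) ^ (k - 2) * ((w' + u') - (w + u)) ≤ 2 * c := by
  obtain ⟨⟨hu0, hu1⟩, h1⟩ := hu
  obtain ⟨⟨hu0', hu1'⟩, h2⟩ := hu'
  have h3 := second_diff k hk (D := D) (t := (w : ℝ) + u) (t' := w' + u') (by positivity)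
    (by positivity) hle
  have h4 := (abs_le.1 h1).1
  have h5 := (abs_le.1 h2).2
  unfold G at h4 h5
  push_cast at h4 h5
  have e1 : (w : ℝ) + D + u = w + u + D := by ring
  have e2 : (w' : ℝ) + D + u' = w' + u' + D := by ring
  rw [e1] at h4
  rw [e2] at h5
  have h6 : (Z : ℝ) ^ (k - 2) ≤ (w + u + D) ^ (k - 2) := by
    refine pow_le_pow_left₀ (by positivity) ?_ _
    have : (Z : ℝ) ≤ w + D := by exact_mod_cast hZ
    linarith
  have h7 : (0 : ℝ) ≤ D * ((w' + u') - (w + u)) := mul_nonneg (by positivity) (by linarith)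
  have h8 := mul_le_mul_of_nonneg_left h6 h7
  linarith

/-- the measure of the shifts -/
lemma vol_Sh {k : ℕ} (hk : 2 ≤ k) {M c : ℝ} (hc : 0 ≤ c) {D w Z : ℕ} (hD : 1 ≤ D) (hZ1 : 1 ≤ Z)
    (hZ : Z ≤ w + D) : volume (Sh k M c (w + D, w)) ≤
      ENNReal.ofReal (2 * c / ((D : ℝ) * (Z : ℝ) ^ (k - 2))) := by
  have hpos : 0 < (D : ℝ) * (Z : ℝ) ^ (k - 2) := by positivity
  refine (Real.volume_le_diam _).trans (Metric.ediam_le fun u hu v hv => ?_)
  rw [edist_dist, Real.dist_eq]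
  refine ENNReal.ofReal_le_ofReal ?_
  rw [le_div_iff₀ hpos]
  rcases le_total u v with h | h
  · have h1 := shift_close hk hZ hu hv (by linarith)
    rw [abs_sub_comm, abs_of_nonneg (by linarith)]
    linarith
  · have h1 := shift_close hk hZ hv hu (by linarith)
    rw [abs_of_nonneg (by linarith)]
    linarith

end KShift
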