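import Pool.Agent.Lib.MP_df17e9_nt.SxA

/-! Shifted powers: the sum of the measures over all pairs in a dyadic range. -/

namespace KShift

open Finset MeasureTheory

lemma sum_le_of_inj {α β : Type*} [DecidableEq β] (s : Finset α) (t : Finset β) (e : α → β)
    (f : α → ENNReal) (g : β → ENNReal) (h1 : ∀ a ∈ s, e a ∈ t) (h2 : Set.InjOn e s)
    (h3 : ∀ a ∈ s, f a ≤ g (e a)) : ∑ a ∈ s, f a ≤ ∑ b ∈ t, g b := by
  refine (sum_le_sum h3).trans ?_
  rw [← sum_image (f := g) (g := e) h2]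
  refine sum_le_sum_of_subset fun b hb => ?_
  obtain ⟨a, ha, rfl⟩ := mem_image.1 hb
  exact h1 a ha

/-- the pairs of different numbers with maximum in [Z, 2Z) -/
def prs (Z : ℕ) : Finset (ℕ × ℕ) :=
  (range (2 * Z) ×ˢ range (2 * Z)).filter fun p => p.1 ≠ p.2 ∧ Z ≤ max p.1 p.2

lemma card_le_of_diam_nat {W : Finset ℕ} {n : ℕ} (h : ∀ u ∈ W, ∀ v ∈ W, u ≤ v → v ≤ u + n) :
    W.card ≤ n + 1 := by
  rcases W.eq_empty_or_nonempty with rfl | hW
  · simp
  · have h1 : W ⊆ Icc (W.min' hW) (W.min' hW + n) := by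
      intro v hv
      rw [mem_Icc]
      have h2 := W.min'_le v hv
      exact ⟨h2, h _ (W.min'_mem hW) v hv h2⟩
    refine (card_le_card h1).trans (le_of_eq ?_)
    rw [Nat.card_Icc]
    omega

/-- pairs with a given difference -/
lemma sum_fixed_diff {k : ℕ} (hk : 2 ≤ k) (M : ℝ) (c : ℕ) {D Z : ℕ} (hD : 1 ≤ D) (hZ1 : 1 ≤ Z) :
    ∑ w ∈ (range (2 * Z)).filter (fun w => Z ≤ w + D), volume (Sh k M c (w + D, w)) ≤
      ENNReal.ofReal ((2 * c + 2) * (2 * c) / (D : ℝ) / (Z : ℝ) ^ (k - 2)) := by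
  classical
  obtain ⟨W, hW⟩ : ∃ W : Finset ℕ, W = ((range (2 * Z)).filter (fun w => Z ≤ w + D)).filter
    fun w => (Sh k M c (w + D, w)).Nonempty := ⟨_, rfl⟩
  have h1 : ∑ w ∈ (range (2 * Z)).filter (fun w => Z ≤ w + D), volume (Sh k M c (w + D, w)) =
      ∑ w ∈ W, volume (Sh k M c (w + D, w)) := by
    rw [hW, sum_filter (p := fun w => (Sh k M c (w + D, w)).Nonempty)]
    refine sum_congr rfl fun w _ => ?_
    by_cases hne : (Sh k M c (w + D, w)).Nonempty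
    · rw [if_pos hne]
    · rw [if_neg hne, Set.not_nonempty_iff_eq_empty.1 hne, measure_empty]
  have hpos : 0 < (D : ℝ) * (Z : ℝ) ^ (k - 2) := by positivity
  have h2 : W.card ≤ (2 * c + 1) + 1 := by
    refine card_le_of_diam_nat fun w hw w' hw' hle => ?_
    rcases Nat.eq_or_lt_of_le hle with rfl | hlt
    · omega
    rw [hW, mem_filter, mem_filter] at hw hw'
    obtain ⟨u, hu⟩ := hw.2
    obtain ⟨u', hu'⟩ := hw'.2
    have h3 : (w : ℝ) + 1 ≤ w' := by exact_mod_cast hlt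
    have h4 := hu.1
    have h5 := hu'.1
    have h6 := shift_close hk hw.1.2 hu hu' (by linarith [h4.2, h5.1])
    have h7 : (1 : ℝ) ≤ (D : ℝ) * (Z : ℝ) ^ (k - 2) := by
      have e1 : (1 : ℝ) ≤ D := by exact_mod_cast hD
      have e2 : (1 : ℝ) ≤ (Z : ℝ) ^ (k - 2) := one_le_pow₀ (by exact_mod_cast hZ1)
      exact one_le_mul_of_one_le_of_one_le e1 e2
    have h8 : (w' : ℝ) + u' - (w + u) ≤
        (D : ℝ) * (Z : ℝ) ^ (k - 2) * (w' + u' - (w + u)) :=
      le_mul_of_one_le_left (by linarith [h4.2, h5.1]) h7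
    have h9 : (w' : ℝ) ≤ ((w + (2 * c + 1) : ℕ) : ℝ) := by
      push_cast
      linarith [h4.2, h5.1]
    exact_mod_cast h9
  rw [h1]
  calc ∑ w ∈ W, volume (Sh k M c (w + D, w))
      ≤ ∑ _w ∈ W, ENNReal.ofReal (2 * c / ((D : ℝ) * (Z : ℝ) ^ (k - 2))) := by
        refine sum_le_sum fun w hw => vol_Sh hk (Nat.cast_nonneg c) hD hZ1 ?_
        rw [hW, mem_filter, mem_filter] at hw
        exact hw.1.2
    _ = ENNReal.ofReal (W.card * (2 * c / ((D : ℝ) * (Z : ℝ) ^ (k - 2)))) := by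
        rw [sum_const, nsmul_eq_mul, ENNReal.ofReal_mul (Nat.cast_nonneg _), ENNReal.ofReal_natCast]
    _ ≤ _ := by
        refine ENNReal.ofReal_le_ofReal ?_
        have h3 : (W.card : ℝ) ≤ 2 * c + 2 := by
          have : (W.card : ℝ) ≤ (((2 * c + 1) + 1 : ℕ) : ℝ) := by exact_mod_cast h2
          push_cast at this
          linarith
        calc (W.card : ℝ) * (2 * c / ((D : ℝ) * (Z : ℝ) ^ (k - 2))) ≤
            (2 * c + 2) * (2 * c / ((D : ℝ) * (Z : ℝ) ^ (k - 2))) :=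
              mul_le_mul_of_nonneg_right h3 (by positivity)
          _ = _ := by
              field_simp

lemma sum_inv_le (n : ℕ) : ∑ D ∈ Icc 1 n, (1 : ℝ) / D ≤ 1 + Real.log n := by
  have h1 := harmonic_le_one_add_log n
  rw [harmonic_eq_sum_Icc] at h1
  push_cast at h1
  simpa only [one_div] using h1

/-- pairs with larger first entry -/
lemma sum_upper {k : ℕ} (hk : 2 ≤ k) (M : ℝ) (c : ℕ) {Z : ℕ} (hZ1 : 1 ≤ Z) :
    ∑ p ∈ (prs Z).filter (fun p => p.2 < p.1), volume (Sh k M c p) ≤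
      ENNReal.ofReal ((2 * c + 2) * (2 * c) * (1 + Real.log (2 * Z)) / (Z : ℝ) ^ (k - 2)) := by
  classical
  have h1 : ∑ p ∈ (prs Z).filter (fun p => p.2 < p.1), volume (Sh k M c p) ≤
      ∑ x ∈ (Icc 1 (2 * Z)).sigma (fun D => (range (2 * Z)).filter (fun w => Z ≤ w + D)),
        volume (Sh k M c (x.2 + x.1, x.2)) := by
    refine sum_le_of_inj _ _ (fun p : ℕ × ℕ => (⟨p.1 - p.2, p.2⟩ : Sigma fun _ : ℕ => ℕ)) _ _
      ?_ ?_ ?_
    · intro p hp
      unfold prs at hp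
      rw [mem_filter, mem_filter, mem_product, mem_range, mem_range] at hp
      obtain ⟨⟨⟨h1, h2⟩, h3, h4⟩, h5⟩ := hp
      rw [mem_sigma, mem_Icc, mem_filter, mem_range]
      dsimp only
      rw [max_eq_left h5.le] at h4
      refine ⟨⟨by omega, by omega⟩, h2, by omega⟩
    · intro p hp q hq he
      rw [mem_coe, mem_filter] at hp hq
      simp only [Sigma.mk.injEq, heq_eq_eq] at he
      have h1 := hp.2
      have h2 := hq.2
      exact Prod.ext (by omega) he.2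
    · intro p hp
      rw [mem_filter] at hp
      dsimp only
      rw [show p.2 + (p.1 - p.2) = p.1 from by have := hp.2; omega]
  refine h1.trans ?_
  rw [sum_sigma]
  refine (sum_le_sum fun D hD => sum_fixed_diff hk M c (mem_Icc.1 hD).1 hZ1).trans ?_
  rw [← ENNReal.ofReal_sum_of_nonneg fun D _ => by positivity]
  refine ENNReal.ofReal_le_ofReal ?_
  have h2 := sum_inv_le (2 * Z)
  have h3 : ∑ D ∈ Icc 1 (2 * Z), ((2 * (c : ℝ) + 2) * (2 * c) / (D : ℝ) / (Z : ℝ) ^ (k - 2)) =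
      (2 * (c : ℝ) + 2) * (2 * c) / (Z : ℝ) ^ (k - 2) * ∑ D ∈ Icc 1 (2 * Z), (1 : ℝ) / D := by
    rw [mul_sum]
    refine sum_congr rfl fun D _ => ?_
    ring
  rw [h3]
  push_cast at h2
  calc (2 * (c : ℝ) + 2) * (2 * c) / (Z : ℝ) ^ (k - 2) * ∑ D ∈ Icc 1 (2 * Z), (1 : ℝ) / D ≤
      (2 * (c : ℝ) + 2) * (2 * c) / (Z : ℝ) ^ (k - 2) * (1 + Real.log (2 * Z)) :=
        mul_le_mul_of_nonneg_left h2 (by positivity)
    _ = _ := by ring

/-- all pairs -/
theorem sum_prs {k : ℕ} (hk : 2 ≤ k) (M : ℝ) (c : ℕ) {Z : ℕ} (hZ1 : 1 ≤ Z) :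
    ∑ p ∈ prs Z, volume (Sh k M c p) ≤
      ENNReal.ofReal (2 * ((2 * c + 2) * (2 * c)) * (1 + Real.log (2 * Z)) / (Z : ℝ) ^ (k - 2)) := by
  classical
  rw [← sum_filter_add_sum_filter_not (prs Z) (fun p => p.2 < p.1)]
  have h1 := sum_upper hk M c hZ1
  have h2 : ∑ p ∈ (prs Z).filter (fun p => ¬ p.2 < p.1), volume (Sh k M c p) ≤
      ∑ p ∈ (prs Z).filter (fun p => p.2 < p.1), volume (Sh k (-M) c p) := by
    refine sum_le_of_inj _ _ Prod.swap _ _ ?_ ?_ ?_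
    · intro p hp
      unfold prs at hp ⊢
      rw [mem_filter, mem_filter, mem_product] at hp
      rw [mem_filter, mem_filter, mem_product]
      obtain ⟨⟨⟨h1, h2⟩, h3, h4⟩, h5⟩ := hp
      refine ⟨⟨⟨h2, h1⟩, h3.symm, ?_⟩, ?_⟩
      · rw [max_comm]
        exact h4
      · show p.1 < p.2
        omega
    · exact Prod.swap_injective.injOn
    · intro p _
      rw [Sh_swap k M c p]
  have h3 := sum_upper hk (-M) c hZ1
  refine (add_le_add h1 (h2.trans h3)).trans (le_of_eq ?_)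
  have h4 : (0 : ℝ) ≤ 1 + Real.log (2 * Z) := by
    have : (1 : ℝ) ≤ 2 * Z := by
      have : (1 : ℝ) ≤ Z := by exact_mod_cast hZ1
      linarith
    have := Real.log_nonneg this
    linarith
  rw [← ENNReal.ofReal_add (by positivity) (by positivity)]
  congr 1
  ring

end KShift
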