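import Pool.Agent.Lib.MP_df17e9_nt.TxD

/-! Two exact powers: the solutions in which one difference is distinguished. -/

namespace KTwo

open Finset

/-- (z - w) (g(z, w) + a) = z^k + a z - w^k - a w -/
def h (k : ℕ) (p : ℤ × ℤ) (a : ℤ) : ℤ := (p.1 - p.2) * (g k p.1 p.2 + a)

lemma h_eq (k : ℕ) (p : ℤ × ℤ) (a : ℤ) :
    h k p a = (p.1 ^ k + a * p.1) - (p.2 ^ k + a * p.2) := by
  unfold h
  rw [mul_add, g_mul]
  ring

/-- the vectors with one coordinate fixed -/
noncomputable def fixed {α : Type*} [DecidableEq α] {m : ℕ} (i : Fin m) (x : α)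
    (V : Fin m → Finset α) : Finset (Fin m → α) :=
  Fintype.piFinset fun j => if j = i then {x} else V j

lemma card_fixed {α : Type*} [DecidableEq α] {m : ℕ} (i : Fin m) (x : α) (V : Fin m → Finset α)
    (v : ℕ) (hv : ∀ j, (V j).card = v) : (fixed i x V).card = v ^ (m - 1) := by
  unfold fixed
  rw [Fintype.card_piFinset, ← mul_prod_erase univ _ (mem_univ i), if_pos rfl, card_singleton,
    one_mul]
  have h1 : ∀ j ∈ univ.erase i, (if j = i then ({x} : Finset α) else V j).card = v := by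
    intro j hj
    rw [if_neg (ne_of_mem_erase hj), hv]
  rw [prod_congr rfl h1, prod_const, card_erase_of_mem (mem_univ i), card_univ, Fintype.card_fin]

lemma update_mem_fixed {α : Type*} [DecidableEq α] {m : ℕ} {i : Fin m} {x : α}
    {V : Fin m → Finset α} {f : Fin m → α} (h : ∀ j, j ≠ i → f j ∈ V j) : Function.update f i x ∈ fixed i x V := by
  unfold fixed
  rw [Fintype.mem_piFinset]
  intro j
  by_cases hj : j = i
  · subst hj
    rw [Function.update_self, if_pos rfl]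
    exact mem_singleton_self _
  · rw [Function.update_of_ne hj, if_neg hj]
    exact h j hj

lemma eq_of_update {α : Type*} [DecidableEq α] {m : ℕ} {i : Fin m} {x : α} {f f' : Fin m → α}
    (h : Function.update f i x = Function.update f' i x) {j : Fin m} (hj : j ≠ i) : f j = f' j := by
  have h1 := congrFun h j
  rwa [Function.update_of_ne hj, Function.update_of_ne hj] at h1

/-- the solutions in which the distinguished term does not vanish -/
theorem card_nonzero {k m H Z d : ℕ} (hk : 2 ≤ k) (hZ : 1 ≤ Z) (b : Fin m → ℤ) (i : Fin m)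
    (Q : Finset (Fin 4 → ℤ)) (V : Finset (ℤ × ℤ))
    (S : Finset ((Fin 4 → ℤ) × (Fin m → ℤ × ℤ) × (Fin m → ℤ)))
    (hQ : ∀ t ∈ S, t.1 ∈ Q) (hV : ∀ t ∈ S, ∀ j, j ≠ i → t.2.1 j ∈ V)
    (hH : ∀ t ∈ S, ∀ j, |t.2.2 j - b j| ≤ H)
    (hi : ∀ t ∈ S, 0 < (t.2.1 i).1 ∧ 0 < (t.2.1 i).2 ∧ (Z : ℤ) ≤ max (t.2.1 i).1 (t.2.1 i).2 ∧
      max (t.2.1 i).1 (t.2.1 i).2 ≤ 2 * Z)
    (h0 : ∀ t ∈ S, h k (t.2.1 i) (t.2.2 i) ≠ 0)
    (hd : ∀ t ∈ S, (h k (t.2.1 i) (t.2.2 i)).natAbs.divisors.card ≤ d)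
    (he : ∀ t ∈ S, E k t.1 + ∑ j, h k (t.2.1 j) (t.2.2 j) = 0) :
    S.card ≤ (min (2 * Z) (2 * H / Z ^ (k - 2) + 1) * (2 * d)) *
      (Q.card * (V.card ^ (m - 1) * (2 * H + 1) ^ (m - 1))) := by
  classical
  obtain ⟨F, hF⟩ : ∃ F : ((Fin 4 → ℤ) × (Fin m → ℤ × ℤ) × (Fin m → ℤ)) →
    ((Fin 4 → ℤ) × (Fin m → ℤ × ℤ) × (Fin m → ℤ)), F = fun t =>
      (t.1, Function.update t.2.1 i (0, 0), Function.update t.2.2 i 0) := ⟨_, rfl⟩
  have h1 : S.card ≤ (min (2 * Z) (2 * H / Z ^ (k - 2) + 1) * (2 * d)) * (S.image F).card := by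
    refine card_le_mul_card_image S _ fun b hb => ?_
    obtain ⟨t0, ht0, rfl⟩ := mem_image.1 hb
    obtain ⟨M, hM⟩ : ∃ M, M = h k (t0.2.1 i) (t0.2.2 i) := ⟨_, rfl⟩
    have key : ∀ t ∈ S.filter (fun t => F t = F t0), t ∈ S ∧ t.1 = t0.1 ∧
        (∀ j, j ≠ i → t.2.1 j = t0.2.1 j) ∧ (∀ j, j ≠ i → t.2.2 j = t0.2.2 j) ∧
        h k (t.2.1 i) (t.2.2 i) = M := by
      intro t ht
      rw [mem_filter, hF] at ht
      obtain ⟨hts, hte⟩ := ht
      simp only [Prod.mk.injEq] at hte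
      obtain ⟨e1, e2, e3⟩ := hte
      have e4 : ∀ j, j ≠ i → t.2.1 j = t0.2.1 j := fun j hj => eq_of_update e2 hj
      have e5 : ∀ j, j ≠ i → t.2.2 j = t0.2.2 j := fun j hj => eq_of_update e3 hj
      refine ⟨hts, e1, e4, e5, ?_⟩
      have h2 := he t hts
      have h3 := he t0 ht0
      rw [← add_sum_erase _ _ (mem_univ i)] at h2 h3
      have h4 : ∑ j ∈ univ.erase i, h k (t.2.1 j) (t.2.2 j) =
          ∑ j ∈ univ.erase i, h k (t0.2.1 j) (t0.2.2 j) := by
        refine sum_congr rfl fun j hj => ?_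
        rw [e4 j (ne_of_mem_erase hj), e5 j (ne_of_mem_erase hj)]
      rw [e1, h4] at h2
      rw [hM]
      linarith
    have hM0 : M ≠ 0 := by
      rw [hM]
      exact h0 t0 ht0
    obtain ⟨S', hS'⟩ : ∃ S' : Finset (ℤ × ℤ × ℤ), S' = (S.filter fun t => F t = F t0).image
      fun t => ((t.2.1 i).1, (t.2.1 i).2, t.2.2 i) := ⟨_, rfl⟩
    have hc : (S.filter fun t => F t = F t0).card = S'.card := by
      rw [hS']
      symm
      refine card_image_of_injOn ?_
      rintro ⟨q, zw, a⟩ ht ⟨q', zw', a'⟩ ht' hh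
      have k1 := key _ (mem_coe.1 ht)
      have k2 := key _ (mem_coe.1 ht')
      simp only [Prod.mk.injEq] at hh k1 k2 ⊢
      refine ⟨k1.2.1.trans k2.2.1.symm, ?_, ?_⟩
      · funext j
        by_cases hj : j = i
        · rw [hj]
          exact Prod.ext hh.1 hh.2.1
        · exact (k1.2.2.1 j hj).trans (k2.2.2.1 j hj).symm
      · funext j
        by_cases hj : j = i
        · rw [hj]
          exact hh.2.2
        · exact (k1.2.2.2.1 j hj).trans (k2.2.2.2.1 j hj).symm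
    rw [hc]
    refine (fib_dyadic hk hM0 hZ (b i) S' ?_ (H := H)).trans ?_
    · intro p hp
      rw [hS'] at hp
      obtain ⟨t, ht, rfl⟩ := mem_image.1 hp
      have k1 := key t ht
      have k2 := hi t k1.1
      exact ⟨k2.1, k2.2.1, k2.2.2.1, k2.2.2.2, hH t k1.1 i, k1.2.2.2.2⟩
    · refine Nat.mul_le_mul_left _ (Nat.mul_le_mul_left 2 ?_)
      rw [hM]
      exact hd t0 ht0
  refine h1.trans (Nat.mul_le_mul_left _ ?_)
  have h2 : S.image F ⊆ Q ×ˢ (fixed i (0, 0) (fun _ => V) ×ˢ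
      fixed i 0 (fun j => Icc (b j - (H : ℤ)) (b j + H))) := by
    intro b hb
    obtain ⟨t, ht, rfl⟩ := mem_image.1 hb
    rw [hF, mem_product, mem_product]
    refine ⟨hQ t ht, update_mem_fixed (hV t ht), update_mem_fixed fun j _ => ?_⟩
    have h4 := abs_le.1 (hH t ht j)
    rw [mem_Icc]
    exact ⟨by linarith, by linarith⟩
  refine (card_le_card h2).trans (le_of_eq ?_)
  rw [card_product, card_product, card_fixed _ _ _ V.card fun _ => rfl,
    card_fixed _ _ _ (2 * H + 1) fun j => by rw [Int.card_Icc]; omega]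

/-- the solutions in which the distinguished term vanishes -/
theorem card_zero {k m P H : ℕ} (hk : 2 ≤ k) (b : Fin m → ℤ) (i : Fin m) (U V : Finset (ℤ × ℤ))
    (S : Finset ((Fin 4 → ℤ) × (Fin m → ℤ × ℤ) × (Fin m → ℤ)))
    (hQ : ∀ t ∈ S, t.1 ∈ quads P) (hV : ∀ t ∈ S, ∀ j, j ≠ i → t.2.1 j ∈ V)
    (hU : ∀ t ∈ S, t.2.1 i ∈ U) (hne : ∀ t ∈ S, (t.2.1 i).1 ≠ (t.2.1 i).2)
    (hH : ∀ t ∈ S, ∀ j, |t.2.2 j - b j| ≤ H)
    (h0 : ∀ t ∈ S, h k (t.2.1 i) (t.2.2 i) = 0)
    (he : ∀ t ∈ S, E k t.1 + ∑ j, h k (t.2.1 j) (t.2.2 j) = 0) :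
    S.card ≤ P ^ 3 * (U.card * (V.card ^ (m - 1) * (2 * H + 1) ^ (m - 1))) := by
  classical
  obtain ⟨F, hF⟩ : ∃ F : ((Fin 4 → ℤ) × (Fin m → ℤ × ℤ) × (Fin m → ℤ)) →
    ((ℤ × ℤ × ℤ) × ((ℤ × ℤ) × (Fin m → ℤ × ℤ) × (Fin m → ℤ))), F = fun t =>
      ((t.1 1, t.1 2, t.1 3), (t.2.1 i, Function.update t.2.1 i (0, 0),
        Function.update t.2.2 i 0)) := ⟨_, rfl⟩
  have hinj : Set.InjOn F S := by
    rintro ⟨q, zw, a⟩ ht ⟨q', zw', a'⟩ ht' hh
    have ht1 := mem_coe.1 ht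
    have ht2 := mem_coe.1 ht'
    rw [hF] at hh
    simp only [Prod.mk.injEq] at hh
    obtain ⟨⟨e1, e2, e3⟩, e4, e5, e6⟩ := hh
    have e7 : zw = zw' := by
      funext j
      by_cases hj : j = i
      · rw [hj]
        exact e4
      · exact eq_of_update e5 hj
    subst e7
    have e8 : a i = a' i := by
      have h1 := h0 _ ht1
      have h2 := h0 _ ht2
      have h3 := hne _ ht1
      dsimp only at h1 h2 h3
      unfold h at h1 h2
      have h4 : (zw i).1 - (zw i).2 ≠ 0 := sub_ne_zero.2 h3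
      have h5 := (mul_eq_zero.1 h1).resolve_left h4
      have h6 := (mul_eq_zero.1 h2).resolve_left h4
      linarith
    have e9 : a = a' := by
      funext j
      by_cases hj : j = i
      · rw [hj]
        exact e8
      · exact eq_of_update e6 hj
    subst e9
    have e10 : q 0 = q' 0 := by
      have h1 := he _ ht1
      have h2 := he _ ht2
      dsimp only at h1 h2
      have h3 : E k q = E k q' := by linarith
      unfold E at h3
      rw [e1, e2, e3] at h3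
      have h4 : q 0 ^ k = q' 0 ^ k := by linarith
      have h5 := mem_Icc.1 (Fintype.mem_piFinset.1 (hQ _ ht1) 0)
      have h6 := mem_Icc.1 (Fintype.mem_piFinset.1 (hQ _ ht2) 0)
      dsimp only at h5 h6
      exact (pow_left_inj₀ (by linarith) (by linarith) (by omega)).1 h4
    have e11 : q = q' := by
      funext j
      fin_cases j
      · exact e10
      · exact e1
      · exact e2
      · exact e3
    rw [e11]
  rw [← card_image_of_injOn hinj]
  have h2 : S.image F ⊆ ((Icc 1 (P : ℤ)) ×ˢ ((Icc 1 (P : ℤ)) ×ˢ (Icc 1 (P : ℤ)))) ×ˢ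
      (U ×ˢ (fixed i (0, 0) (fun _ => V) ×ˢ
      fixed i 0 (fun j => Icc (b j - (H : ℤ)) (b j + H)))) := by
    intro b hb
    obtain ⟨t, ht, rfl⟩ := mem_image.1 hb
    have h3 := Fintype.mem_piFinset.1 (hQ t ht)
    rw [hF, mem_product, mem_product, mem_product, mem_product, mem_product]
    refine ⟨⟨h3 1, h3 2, h3 3⟩, hU t ht, update_mem_fixed (hV t ht), update_mem_fixed fun j _ => ?_⟩
    have h4 := abs_le.1 (hH t ht j)
    rw [mem_Icc]
    exact ⟨by linarith, by linarith⟩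
  refine (card_le_card h2).trans (le_of_eq ?_)
  rw [card_product, card_product, card_product, card_product, card_product,
    card_fixed _ _ _ V.card fun _ => rfl,
    card_fixed _ _ _ (2 * H + 1) fun j => by rw [Int.card_Icc]; omega, Int.card_Icc]
  have h4 : ((P : ℤ) + 1 - 1).toNat = P := by omega
  rw [h4]
  ring

end KTwo
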