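import Pool.Agent.Lib.MP_df17e9_nt.SxB
import Pool.Agent.Lib.MP_df17e9_nt.TxE

/-! Shifted powers: the expected number of solutions with a distinguished index. -/

namespace KShift

open Finset MeasureTheory KTwo

/-- quadruples with E close to a given real number -/
lemma card_near {k P L : ℕ} (hk : 1 ≤ k) {M W : ℝ} (hL : 2 * W < ((L : ℝ) + 1) ^ k)
    (S : Finset (Fin 4 → ℤ)) (hS : ∀ q ∈ S, q ∈ quads P ∧ |(E k q : ℝ) + M| ≤ W) :
    S.card ≤ (L + 1) * P ^ 3 := by
  classical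
  have h1 : S.card ≤ (L + 1) * (S.image fun q => (q 1, q 2, q 3)).card := by
    refine card_le_mul_card_image S _ ?_
    rintro ⟨a1, a2, a3⟩ _
    have h2 : (S.filter fun q => (q 1, q 2, q 3) = (a1, a2, a3)).card =
        ((S.filter fun q => (q 1, q 2, q 3) = (a1, a2, a3)).image fun q => q 0).card := by
      symm
      refine card_image_of_injOn fun q hq q' hq' h => ?_
      rw [mem_coe, mem_filter] at hq hq'
      have e1 := hq.2
      have e2 := hq'.2
      simp only [Prod.mk.injEq] at e1 e2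
      funext i
      fin_cases i
      · exact h
      · exact e1.1.trans e2.1.symm
      · exact e1.2.1.trans e2.2.1.symm
      · exact e1.2.2.trans e2.2.2.symm
    rw [h2]
    refine card_le_of_diam fun u hu v hv huv => ?_
    obtain ⟨q, hq, rfl⟩ := mem_image.1 hu
    obtain ⟨q', hq', rfl⟩ := mem_image.1 hv
    rw [mem_filter] at hq hq'
    have e1 := hq.2
    have e2 := hq'.2
    simp only [Prod.mk.injEq] at e1 e2
    obtain ⟨h3, h4⟩ := hS q hq.1
    obtain ⟨h5, h6⟩ := hS q' hq'.1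
    have h7 := (mem_Icc.1 (Fintype.mem_piFinset.1 h3 0)).1
    by_contra hcon
    push Not at hcon
    unfold E at h4 h6
    rw [e1.1, e1.2.1, e1.2.2] at h4
    rw [e2.1, e2.2.1, e2.2.2] at h6
    push_cast at h4 h6
    have h8 := (abs_le.1 h4).1
    have h9 := (abs_le.1 h6).2
    have h10 : (q' 0 : ℝ) ^ k - (q 0 : ℝ) ^ k ≤ 2 * W := by linarith
    have h11 : ((L : ℝ) + 1) ≤ (q' 0 : ℝ) - q 0 := by
      have : (L : ℤ) + 1 ≤ q' 0 - q 0 := by omega
      exact_mod_cast this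
    have h12 : (0 : ℝ) ≤ q 0 := by exact_mod_cast (by linarith : (0 : ℤ) ≤ q 0)
    have h13 : ((L : ℝ) + 1) ^ k + (q 0 : ℝ) ^ k ≤ (q' 0 : ℝ) ^ k := by
      have h14 := pow_add_pow_le (x := (L : ℝ) + 1) (y := (q 0 : ℝ)) (by positivity) h12
        (show k ≠ 0 by omega)
      refine h14.trans (pow_le_pow_left₀ (by positivity) (by linarith) k)
    linarith
  refine h1.trans (Nat.mul_le_mul_left _ ?_)
  have h2 : (S.image fun q => (q 1, q 2, q 3)) ⊆
      Icc 1 (P : ℤ) ×ˢ (Icc 1 (P : ℤ) ×ˢ Icc 1 (P : ℤ)) := by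
    intro x hx
    obtain ⟨q, hq, rfl⟩ := mem_image.1 hx
    have h3 := Fintype.mem_piFinset.1 (hS q hq).1
    rw [mem_product, mem_product]
    exact ⟨h3 1, h3 2, h3 3⟩
  refine (card_le_card h2).trans (le_of_eq ?_)
  rw [card_product, card_product, Int.card_Icc]
  have h4 : ((P : ℤ) + 1 - 1).toNat = P := by omega
  rw [h4]
  ring

lemma G_abs_le {k Z : ℕ} {p : ℕ × ℕ} {u : ℝ} (h1 : p.1 < 2 * Z) (h2 : p.2 < 2 * Z)
    (hu : u ∈ Set.Icc (0 : ℝ) 1) : |G k p u| ≤ (2 * (Z : ℝ)) ^ k := by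
  have e1 : (p.1 : ℝ) + 1 ≤ 2 * Z := by exact_mod_cast h1
  have e2 : (p.2 : ℝ) + 1 ≤ 2 * Z := by exact_mod_cast h2
  have h3 : ((p.1 : ℝ) + u) ^ k ≤ (2 * (Z : ℝ)) ^ k :=
    pow_le_pow_left₀ (by have := hu.1; positivity) (by linarith [hu.2]) k
  have h4 : ((p.2 : ℝ) + u) ^ k ≤ (2 * (Z : ℝ)) ^ k :=
    pow_le_pow_left₀ (by have := hu.1; positivity) (by linarith [hu.2]) k
  have h5 : 0 ≤ ((p.1 : ℝ) + u) ^ k := pow_nonneg (by have := hu.1; positivity) k
  have h6 : 0 ≤ ((p.2 : ℝ) + u) ^ k := pow_nonneg (by have := hu.1; positivity) k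
  unfold G
  rw [abs_le]
  constructor
  · linarith
  · linarith

/-- the bound for the sum of the measures -/
noncomputable def bZ (k c Z : ℕ) : ℝ :=
  2 * ((2 * c + 2) * (2 * c)) * (1 + Real.log (2 * Z)) / (Z : ℝ) ^ (k - 2)

/-- E(q) + sum of the differences -/
noncomputable def Phi {m : ℕ} (k : ℕ) (t : (Fin 4 → ℤ) × (Fin m → ℕ × ℕ)) (θ : Fin m → ℝ) : ℝ :=
  (E k t.1 : ℝ) + ∑ j, G k (t.2 j) (θ j)

lemma continuous_Phi {m : ℕ} (k : ℕ) (t : (Fin 4 → ℤ) × (Fin m → ℕ × ℕ)) :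
    Continuous (Phi k t) := by
  unfold Phi
  refine continuous_const.add (continuous_finsetSum _ fun j _ => ?_)
  exact (continuous_G k (t.2 j)).comp (continuous_apply j)

theorem sum_class {k m P Z c : ℕ} (hk : 2 ≤ k) (hZ1 : 1 ≤ Z) (i : Fin m) (V : Finset (ℕ × ℕ))
    (S : Finset ((Fin 4 → ℤ) × (Fin m → ℕ × ℕ))) (hQ : ∀ t ∈ S, t.1 ∈ quads P)
    (hV : ∀ t ∈ S, ∀ j, j ≠ i → t.2 j ∈ V) (hi : ∀ t ∈ S, t.2 i ∈ prs Z) (θ : Fin m → ℝ) :
    ∑ t ∈ S, volume {u | u ∈ Set.Icc (0 : ℝ) 1 ∧ |Phi k t (Function.update θ i u)| ≤ c} ≤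
      ENNReal.ofReal (V.card ^ (m - 1) * ((2 * Z * (2 * c + 3) * P ^ 3) * bZ k c Z)) := by
  classical
  obtain ⟨Mf, hMf⟩ : ∃ Mf : (Fin m → ℕ × ℕ) → (Fin 4 → ℤ) → ℝ, Mf = fun zw q =>
    (E k q : ℝ) + ∑ j ∈ univ.erase i, G k (zw j) (θ j) := ⟨_, rfl⟩
  -- passing to the product
  have h1 : ∑ t ∈ S, volume {u | u ∈ Set.Icc (0 : ℝ) 1 ∧ |Phi k t (Function.update θ i u)| ≤ c} ≤
      ∑ x ∈ (fixed i (0, 0) fun _ => V) ×ˢ (quads P ×ˢ prs Z),
        volume (Sh k (Mf x.1 x.2.1) c x.2.2) := by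
    refine sum_le_of_inj _ _ (fun t : (Fin 4 → ℤ) × (Fin m → ℕ × ℕ) =>
      (Function.update t.2 i (0, 0), t.1, t.2 i)) _ _ ?_ ?_ ?_
    · intro t ht
      rw [mem_product, mem_product]
      exact ⟨update_mem_fixed (hV t ht), hQ t ht, hi t ht⟩
    · rintro ⟨q, zw⟩ _ ⟨q', zw'⟩ _ he
      simp only [Prod.mk.injEq] at he
      obtain ⟨e1, e2, e3⟩ := he
      have e4 : zw = zw' := by
        funext j
        by_cases hj : j = i
        · rw [hj]
          exact e3
        · exact eq_of_update e1 hj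
      rw [e2, e4]
    · intro t _
      refine measure_mono fun u hu => ?_
      obtain ⟨hu1, hu2⟩ := hu
      refine ⟨hu1, ?_⟩
      have h2 : Phi k t (Function.update θ i u) =
          Mf (Function.update t.2 i (0, 0)) t.1 + G k (t.2 i) u := by
        unfold Phi
        rw [hMf, ← add_sum_erase _ _ (mem_univ i), Function.update_self]
        have h3 : ∑ j ∈ univ.erase i, G k (t.2 j) (Function.update θ i u j) =
            ∑ j ∈ univ.erase i, G k (Function.update t.2 i (0, 0) j) (θ j) := by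
          refine sum_congr rfl fun j hj => ?_
          rw [Function.update_of_ne (ne_of_mem_erase hj), Function.update_of_ne (ne_of_mem_erase hj)]
        rw [h3]
        ring
      dsimp only
      rw [← h2]
      exact hu2
  refine h1.trans ?_
  rw [sum_product]
  have hb0 : 0 ≤ bZ k c Z := by
    unfold bZ
    have : (1 : ℝ) ≤ 2 * Z := by
      have : (1 : ℝ) ≤ Z := by exact_mod_cast hZ1
      linarith
    have := Real.log_nonneg this
    positivity
  have h2 : ∀ zw ∈ fixed i (0, 0) fun _ => V, ∑ x ∈ quads P ×ˢ prs Z,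
      volume (Sh k (Mf zw x.1) c x.2) ≤
        ENNReal.ofReal ((2 * Z * (2 * c + 3) * P ^ 3) * bZ k c Z) := by
    intro zw _
    rw [sum_product]
    obtain ⟨Q', hQ'⟩ : ∃ Q' : Finset (Fin 4 → ℤ), Q' = (quads P).filter fun q =>
      |(E k q : ℝ) + ∑ j ∈ univ.erase i, G k (zw j) (θ j)| ≤ c + (2 * (Z : ℝ)) ^ k := ⟨_, rfl⟩
    have h3 : ∑ q ∈ quads P, ∑ p ∈ prs Z, volume (Sh k (Mf zw q) c p) =
        ∑ q ∈ Q', ∑ p ∈ prs Z, volume (Sh k (Mf zw q) c p) := by
      rw [hQ', sum_filter]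
      refine sum_congr rfl fun q _ => ?_
      by_cases hq : |(E k q : ℝ) + ∑ j ∈ univ.erase i, G k (zw j) (θ j)| ≤ c + (2 * (Z : ℝ)) ^ k
      · rw [if_pos hq]
      · rw [if_neg hq]
        refine sum_eq_zero fun p hp => ?_
        have h4 : Sh k (Mf zw q) c p = ∅ := by
          rw [Set.eq_empty_iff_forall_notMem]
          rintro u ⟨hu1, hu2⟩
          unfold prs at hp
          rw [mem_filter, mem_product, mem_range, mem_range] at hp
          have h5 := G_abs_le (k := k) hp.1.1 hp.1.2 hu1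
          apply hq
          rw [hMf] at hu2
          have h6 := abs_sub ((E k q : ℝ) + ∑ j ∈ univ.erase i, G k (zw j) (θ j) + G k p u)
            (G k p u)
          rw [add_sub_cancel_right] at h6
          exact h6.trans (add_le_add hu2 h5)
        rw [h4, measure_empty]
    rw [h3]
    have h4 : Q'.card ≤ (2 * Z * (2 * c + 3)) * P ^ 3 := by
      have h5 : 2 * ((c : ℝ) + (2 * (Z : ℝ)) ^ k) <
          (((2 * Z * (2 * c + 3) - 1 : ℕ) : ℝ) + 1) ^ k := by
        have e1 : (((2 * Z * (2 * c + 3) - 1 : ℕ) : ℝ) + 1) = 2 * Z * (2 * c + 3) := by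
          have : 1 ≤ 2 * Z * (2 * c + 3) := Nat.one_le_iff_ne_zero.2 (by positivity)
          rw [Nat.cast_sub this]
          push_cast
          ring
        have e0 : (2 * (Z : ℝ) * (2 * c + 3)) ^ k = (2 * (Z : ℝ)) ^ k * (2 * c + 3) ^ k :=
          mul_pow _ _ _
        rw [e1, e0]
        have e2 : (2 * (c : ℝ) + 3) ≤ (2 * (c : ℝ) + 3) ^ k :=
          le_self_pow₀ (by have : (0 : ℝ) ≤ c := Nat.cast_nonneg c; linarith) (by omega)
        have e3 : (1 : ℝ) ≤ (2 * (Z : ℝ)) ^ k := by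
          refine one_le_pow₀ ?_
          have : (1 : ℝ) ≤ Z := by exact_mod_cast hZ1
          linarith
        have e4 : (0 : ℝ) ≤ c := Nat.cast_nonneg c
        have e5 := mul_le_mul_of_nonneg_left e2 (show 0 ≤ (2 * (Z : ℝ)) ^ k by positivity)
        nlinarith [mul_nonneg e4 (sub_nonneg.2 e3)]
      have h6 := card_near (k := k) (P := P) (by omega) h5 Q' fun q hq => by
        rw [hQ', mem_filter] at hq
        exact ⟨hq.1, hq.2⟩
      have e1 : 2 * Z * (2 * c + 3) - 1 + 1 = 2 * Z * (2 * c + 3) := by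
        have : 1 ≤ 2 * Z * (2 * c + 3) := Nat.one_le_iff_ne_zero.2 (by positivity)
        omega
      rwa [e1] at h6
    calc ∑ q ∈ Q', ∑ p ∈ prs Z, volume (Sh k (Mf zw q) c p)
        ≤ ∑ _q ∈ Q', ENNReal.ofReal (bZ k c Z) := sum_le_sum fun q _ => sum_prs hk _ c hZ1
      _ = ENNReal.ofReal (Q'.card * bZ k c Z) := by
          rw [sum_const, nsmul_eq_mul, ENNReal.ofReal_mul (Nat.cast_nonneg _),
            ENNReal.ofReal_natCast]
      _ ≤ _ := by
          refine ENNReal.ofReal_le_ofReal (mul_le_mul_of_nonneg_right ?_ hb0)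
          exact_mod_cast h4
  refine (sum_le_sum h2).trans ?_
  rw [sum_const, card_fixed i _ _ V.card fun _ => rfl, nsmul_eq_mul]
  rw [ENNReal.ofReal_mul (p := (V.card : ℝ) ^ (m - 1)) (by positivity)]
  refine mul_le_mul_left ?_ _
  rw [← Nat.cast_pow, ENNReal.ofReal_natCast]

end KShift
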