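import Pool.Agent.Lib.MP_df17e9_nt.SxC

/-! Shifted powers: the expected number of off-diagonal solutions. -/

namespace KShift

open Finset MeasureTheory KTwo

/-- all tuples -/
noncomputable def Om (m P : ℕ) : Finset ((Fin 4 → ℤ) × (Fin m → ℕ × ℕ)) :=
  quads P ×ˢ (Fintype.piFinset fun _ : Fin m => range (P + 1) ×ˢ range (P + 1))

/-- the tuples with some nonzero difference -/
noncomputable def Off (m P : ℕ) : Finset ((Fin 4 → ℤ) × (Fin m → ℕ × ℕ)) :=
  (Om m P).filter fun t => ¬ ∀ j, (t.2 j).1 = (t.2 j).2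

lemma mem_Om {m P : ℕ} {t : (Fin 4 → ℤ) × (Fin m → ℕ × ℕ)} :
    t ∈ Om m P ↔ t.1 ∈ quads P ∧ ∀ j, (t.2 j).1 < P + 1 ∧ (t.2 j).2 < P + 1 := by
  unfold Om
  rw [mem_product, Fintype.mem_piFinset]
  simp only [mem_product, mem_range]

/-- the tuples with distinguished index i in the dyadic range Z -/
noncomputable def Cl (m P : ℕ) (i : Fin m) (Z : ℕ) : Finset ((Fin 4 → ℤ) × (Fin m → ℕ × ℕ)) :=
  (Om m P).filter fun t => t.2 i ∈ prs Z ∧ ∀ j, (t.2 j).1 ≠ (t.2 j).2 →
    max (t.2 j).1 (t.2 j).2 ≤ max (t.2 i).1 (t.2 i).2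

/-- the pairs allowed for the other indices -/
def Vs (P Z : ℕ) : Finset (ℕ × ℕ) :=
  ((range (P + 1)).image fun z => (z, z)) ∪ (range (2 * Z) ×ˢ range (2 * Z))

lemma card_Vs (P Z : ℕ) : (Vs P Z).card ≤ (P + 1) + 4 * Z ^ 2 := by
  unfold Vs
  refine (card_union_le _ _).trans (Nat.add_le_add ?_ ?_)
  · exact card_image_le.trans (le_of_eq (card_range _))
  · rw [card_product, card_range]
    exact le_of_eq (by ring)

lemma off_cover {m P : ℕ} : Off m P ⊆ (univ : Finset (Fin m)).biUnion fun i =>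
    (range (Nat.log 2 P + 1)).biUnion fun l => Cl m P i (2 ^ l) := by
  classical
  intro t ht
  unfold Off at ht
  rw [mem_filter] at ht
  obtain ⟨ht, h1⟩ := ht
  push Not at h1
  obtain ⟨j0, hj0⟩ := h1
  obtain ⟨i, hi, hmax⟩ := exists_max_image
    ((univ : Finset (Fin m)).filter fun j => (t.2 j).1 ≠ (t.2 j).2)
    (fun j => max (t.2 j).1 (t.2 j).2) ⟨j0, mem_filter.2 ⟨mem_univ _, hj0⟩⟩
  rw [mem_filter] at hi
  have h2 := (mem_Om.1 ht).2 i
  have h3 : 1 ≤ max (t.2 i).1 (t.2 i).2 := by
    have := hi.2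
    rcases Nat.lt_or_gt_of_ne this with h | h
    · exact le_trans (by omega) (le_max_right _ _)
    · exact le_trans (by omega) (le_max_left _ _)
  have h4 : max (t.2 i).1 (t.2 i).2 ≤ P := max_le (by omega) (by omega)
  rw [mem_biUnion]
  refine ⟨i, mem_univ _, ?_⟩
  rw [mem_biUnion]
  refine ⟨Nat.log 2 (max (t.2 i).1 (t.2 i).2),
    mem_range.2 (Nat.lt_succ_of_le (Nat.log_mono_right h4)), ?_⟩
  have h5 := Nat.lt_pow_succ_log_self (b := 2) (by norm_num) (max (t.2 i).1 (t.2 i).2)
  rw [pow_succ, mul_comm] at h5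
  have h6 := Nat.pow_log_le_self 2 (x := max (t.2 i).1 (t.2 i).2) (by omega)
  unfold Cl prs
  rw [mem_filter, mem_filter, mem_product, mem_range, mem_range]
  exact ⟨ht, ⟨⟨lt_of_le_of_lt (le_max_left _ _) h5, lt_of_le_of_lt (le_max_right _ _) h5⟩, hi.2, h6⟩,
    fun j hj => hmax j (mem_filter.2 ⟨mem_univ _, hj⟩)⟩

/-- the event -/
def Ev {m : ℕ} (k c : ℕ) (t : (Fin 4 → ℤ) × (Fin m → ℕ × ℕ)) : Set (Fin m → ℝ) :=
  {θ | |Phi k t θ| ≤ c}

lemma measurableSet_Ev {m : ℕ} (k c : ℕ) (t : (Fin 4 → ℤ) × (Fin m → ℕ × ℕ)) :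
    MeasurableSet (Ev k c t) := by
  unfold Ev
  exact (isClosed_le (continuous_Phi k t).abs continuous_const).measurableSet

/-- the measure -/
noncomputable def mu (m : ℕ) : Measure (Fin m → ℝ) :=
  Measure.pi fun _ : Fin m => (volume : Measure ℝ).restrict (Set.Icc 0 1)

instance isProb : IsProbabilityMeasure ((volume : Measure ℝ).restrict (Set.Icc (0 : ℝ) 1)) := by
  constructor
  rw [Measure.restrict_apply MeasurableSet.univ, Set.univ_inter, Real.volume_Icc]
  simp

theorem exp_class {k m P Z c : ℕ} (hk : 2 ≤ k) (hZ1 : 1 ≤ Z) (i : Fin m) (K : ℝ)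
    (hK : ((Vs P Z).card : ℝ) ^ (m - 1) * ((2 * Z * (2 * c + 3) * P ^ 3) * bZ k c Z) ≤ K) :
    ∑ t ∈ Cl m P i Z, (mu m) (Ev k c t) ≤ ENNReal.ofReal K := by
  classical
  have h1 : ∑ t ∈ Cl m P i Z, (mu m) (Ev k c t) =
      ∫⁻ θ, ∑ t ∈ Cl m P i Z, (Ev k c t).indicator 1 θ ∂(mu m) := by
    rw [lintegral_finsetSum]
    · refine sum_congr rfl fun t _ => ?_
      rw [lintegral_indicator_one (measurableSet_Ev k c t)]
    · intro t _
      exact measurable_one.indicator (measurableSet_Ev k c t)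
  have h2 : ∫⁻ θ, ∑ t ∈ Cl m P i Z, (Ev k c t).indicator 1 θ ∂(mu m) ≤
      ∫⁻ _θ, ENNReal.ofReal K ∂(mu m) := by
    unfold mu
    refine lintegral_le_of_lmarginal_le (μ := fun _ : Fin m =>
      (volume : Measure ℝ).restrict (Set.Icc 0 1)) {i} ?_ measurable_const ?_
    · refine Finset.measurable_sum _ fun t _ => ?_
      exact measurable_one.indicator (measurableSet_Ev k c t)
    · rw [lmarginal_singleton, lmarginal_singleton]
      intro θ
      dsimp only
      rw [lintegral_const, measure_univ, mul_one, lintegral_finsetSum]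
      · refine le_trans ?_ ((sum_class (k := k) (c := c) hk hZ1 i (Vs P Z) (Cl m P i Z)
          (fun t ht => ?_) (fun t ht j hj => ?_) (fun t ht => ?_) θ).trans
            (ENNReal.ofReal_le_ofReal hK))
        · refine sum_le_sum fun t _ => ?_
          have h3 : MeasurableSet {u | |Phi k t (Function.update θ i u)| ≤ (c : ℝ)} := by
            refine (isClosed_le (Continuous.abs ?_) continuous_const).measurableSet
            exact (continuous_Phi k t).comp (continuous_const.update i continuous_id)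
          have h4 : ∀ u, (Ev k c t).indicator (1 : (Fin m → ℝ) → ENNReal) (Function.update θ i u) =
              {u | |Phi k t (Function.update θ i u)| ≤ (c : ℝ)}.indicator 1 u := by
            intro u
            unfold Ev
            rfl
          simp only [h4]
          rw [lintegral_indicator_one h3, Measure.restrict_apply h3]
          refine measure_mono fun u hu => ⟨hu.2, hu.1⟩
        · unfold Cl at ht
          exact (mem_Om.1 (mem_filter.1 ht).1).1
        · unfold Cl prs at ht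
          rw [mem_filter, mem_filter, mem_product, mem_range, mem_range] at ht
          obtain ⟨h3, ⟨⟨h4, h5⟩, h6, h7⟩, h8⟩ := ht
          unfold Vs
          rw [mem_union]
          by_cases hjj : (t.2 j).1 = (t.2 j).2
          · left
            rw [mem_image]
            exact ⟨(t.2 j).1, mem_range.2 ((mem_Om.1 h3).2 j).1, Prod.ext rfl hjj⟩
          · right
            have h9 := h8 j hjj
            have h10 : max (t.2 i).1 (t.2 i).2 < 2 * Z := max_lt h4 h5
            rw [mem_product, mem_range, mem_range]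
            exact ⟨lt_of_le_of_lt ((le_max_left _ _).trans h9) h10,
              lt_of_le_of_lt ((le_max_right _ _).trans h9) h10⟩
        · unfold Cl at ht
          exact (mem_filter.1 ht).2.1
      · intro t _
        refine Measurable.comp (measurable_one.indicator (measurableSet_Ev k c t)) ?_
        exact measurable_update θ
  rw [h1]
  refine h2.trans (le_of_eq ?_)
  have h3 : IsProbabilityMeasure (mu m) := by
    unfold mu
    infer_instance
  rw [lintegral_const, measure_univ, mul_one]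

theorem exp_off {k m P c : ℕ} (hk : 2 ≤ k) (hP : 1 ≤ P) (K : ℝ)
    (hK : ∀ l, 2 ^ l ≤ P → ((Vs P (2 ^ l)).card : ℝ) ^ (m - 1) *
      ((2 * ((2 ^ l : ℕ) : ℝ) * (2 * c + 3) * P ^ 3) * bZ k c (2 ^ l)) ≤ K) :
    ∑ t ∈ Off m P, (mu m) (Ev k c t) ≤ ENNReal.ofReal (m * ((Nat.log 2 P + 1 : ℕ) * K)) := by
  classical
  refine (sum_le_sum_of_subset off_cover).trans ?_
  have sum_biUnion_le : ∀ {α β : Type} [DecidableEq β] (s : Finset α) (F : α → Finset β)
      (f : β → ENNReal), ∑ b ∈ s.biUnion F, f b ≤ ∑ a ∈ s, ∑ b ∈ F a, f b := by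
    intro α β _ s F f
    induction s using Finset.cons_induction with
    | empty => simp
    | cons a s ha ih =>
      rw [sum_cons, cons_eq_insert, biUnion_insert]
      have h5 : ∑ b ∈ F a ∪ s.biUnion F, f b ≤ ∑ b ∈ F a, f b + ∑ b ∈ s.biUnion F, f b := by
        rw [← sum_union_inter]
        exact le_self_add
      exact h5.trans (add_le_add le_rfl ih)
  refine (sum_biUnion_le _ _ _).trans ?_
  have h1 : ∀ i ∈ (univ : Finset (Fin m)), ∑ t ∈ (range (Nat.log 2 P + 1)).biUnion
      (fun l => Cl m P i (2 ^ l)), (mu m) (Ev k c t) ≤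
        ENNReal.ofReal ((Nat.log 2 P + 1 : ℕ) * K) := by
    intro i _
    refine (sum_biUnion_le _ _ _).trans ?_
    have h2 : ∀ l ∈ range (Nat.log 2 P + 1), ∑ t ∈ Cl m P i (2 ^ l), (mu m) (Ev k c t) ≤
        ENNReal.ofReal K := by
      intro l hl
      refine exp_class hk Nat.one_le_two_pow i K (hK l ?_)
      refine (Nat.pow_le_pow_right (by norm_num) (Nat.lt_succ_iff.1 (mem_range.1 hl))).trans ?_
      exact Nat.pow_log_le_self 2 (by omega)
    refine (sum_le_sum h2).trans (le_of_eq ?_)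
    rw [sum_const, card_range, nsmul_eq_mul, ENNReal.ofReal_mul (Nat.cast_nonneg _),
      ENNReal.ofReal_natCast]
  refine (sum_le_sum h1).trans (le_of_eq ?_)
  rw [sum_const, card_univ, Fintype.card_fin, nsmul_eq_mul, ENNReal.ofReal_mul (Nat.cast_nonneg m),
    ENNReal.ofReal_natCast]

end KShift
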