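import Pool.Agent.Lib.MP_df17e9_nt.SxD

/-! Shifted powers: the size of the expected number. -/

namespace KShift

open Finset MeasureTheory KTwo

lemma num_core {k m : ℕ} {p z V : ℝ} (hk : 3 ≤ k) (hm : 1 ≤ m) (hz : 1 ≤ z) (hzp : z ≤ p)
    (hV0 : 0 ≤ V) (hV : V ≤ 2 * p + 4 * z ^ 2) :
    V ^ (m - 1) * (z / z ^ (k - 2) * p ^ 3) ≤
      6 ^ (m - 1) * (p ^ (m + 2) + p ^ (2 * m + 4) / p ^ k) := by
  have hp : 1 ≤ p := hz.trans hzp
  have hp0 : 0 < p := by linarith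
  have hz0 : 0 < z := by linarith
  have hlast : 0 ≤ p ^ (2 * m + 4) / p ^ k := by positivity
  rcases le_total (z ^ 2) p with hc | hc
  · have h1 : V ^ (m - 1) ≤ (6 * p) ^ (m - 1) := pow_le_pow_left₀ hV0 (by linarith) _
    have h2 : z / z ^ (k - 2) ≤ 1 := by
      rw [div_le_one (by positivity)]
      exact le_self_pow₀ hz (by omega)
    have h3 : z / z ^ (k - 2) * p ^ 3 ≤ 1 * p ^ 3 := mul_le_mul_of_nonneg_right h2 (by positivity)
    calc V ^ (m - 1) * (z / z ^ (k - 2) * p ^ 3) ≤ (6 * p) ^ (m - 1) * (1 * p ^ 3) :=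
          mul_le_mul h1 h3 (by positivity) (by positivity)
      _ = 6 ^ (m - 1) * p ^ (m + 2) := by
          rw [mul_pow, one_mul, mul_assoc, ← pow_add]
          congr 2
          omega
      _ ≤ _ := by
          refine mul_le_mul_of_nonneg_left ?_ (by positivity)
          linarith
  · have h1 : V ^ (m - 1) ≤ (6 * z ^ 2) ^ (m - 1) := pow_le_pow_left₀ hV0 (by linarith) _
    have h2 : (6 * z ^ 2) ^ (m - 1) * (z / z ^ (k - 2) * p ^ 3) =
        6 ^ (m - 1) * (z ^ (2 * m - 1) / z ^ (k - 2) * p ^ 3) := by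
      rw [mul_pow, ← pow_mul]
      have e1 : z ^ (2 * m - 1) = z ^ (2 * (m - 1)) * z := by
        rw [← pow_succ]
        congr 1
        omega
      rw [e1]
      ring
    have h3 : z ^ (2 * m - 1) / z ^ (k - 2) * p ^ 3 ≤ p ^ (m + 2) + p ^ (2 * m + 4) / p ^ k := by
      rcases le_total (2 * m - 1) (k - 2) with hle | hle
      · have h4 : z ^ (2 * m - 1) / z ^ (k - 2) ≤ 1 := by
          rw [div_le_one (by positivity)]
          exact pow_le_pow_right₀ hz hle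
        have h5 : z ^ (2 * m - 1) / z ^ (k - 2) * p ^ 3 ≤ 1 * p ^ 3 :=
          mul_le_mul_of_nonneg_right h4 (by positivity)
        have h6 : p ^ 3 ≤ p ^ (m + 2) := pow_le_pow_right₀ hp (by omega)
        linarith
      · obtain ⟨r, hr⟩ : ∃ r, 2 * m - 1 = (k - 2) + r := ⟨2 * m - 1 - (k - 2), by omega⟩
        have h4 : z ^ (2 * m - 1) / z ^ (k - 2) = z ^ r := by
          rw [hr, pow_add]
          field_simp
        have h5 : p ^ (2 * m + 4) / p ^ k = p ^ r * p ^ 3 := by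
          have e1 : 2 * m + 4 = r + 3 + k := by omega
          rw [e1, pow_add, pow_add]
          field_simp
        rw [h4, h5]
        have h6 : z ^ r * p ^ 3 ≤ p ^ r * p ^ 3 :=
          mul_le_mul_of_nonneg_right (pow_le_pow_left₀ hz0.le hzp r) (by positivity)
        have h7 : 0 ≤ p ^ (m + 2) := by positivity
        linarith
    calc V ^ (m - 1) * (z / z ^ (k - 2) * p ^ 3) ≤
          (6 * z ^ 2) ^ (m - 1) * (z / z ^ (k - 2) * p ^ 3) :=
          mul_le_mul_of_nonneg_right h1 (by positivity)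
      _ = 6 ^ (m - 1) * (z ^ (2 * m - 1) / z ^ (k - 2) * p ^ 3) := h2
      _ ≤ _ := mul_le_mul_of_nonneg_left h3 (by positivity)

/-- the target size -/
noncomputable def Tg (k m : ℕ) (p : ℝ) : ℝ := p ^ (m + 2) + p ^ (2 * m + 4) / p ^ k

/-- the constant -/
noncomputable def cst (m c : ℕ) : ℝ :=
  6 ^ (m - 1) * ((2 * (2 * c + 3)) * (2 * ((2 * c + 2) * (2 * c))))

theorem num_bound {k m P Z c : ℕ} (hk : 3 ≤ k) (hm : 1 ≤ m) (hZ : 1 ≤ Z) (hZP : Z ≤ P) :
    ((Vs P Z).card : ℝ) ^ (m - 1) * ((2 * (Z : ℝ) * (2 * c + 3) * P ^ 3) * bZ k c Z) ≤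
      cst m c * (1 + Real.log (2 * P)) * Tg k m P := by
  have hz : (1 : ℝ) ≤ Z := by exact_mod_cast hZ
  have hzp : (Z : ℝ) ≤ P := by exact_mod_cast hZP
  have hV : ((Vs P Z).card : ℝ) ≤ 2 * P + 4 * (Z : ℝ) ^ 2 := by
    have h1 : ((Vs P Z).card : ℝ) ≤ (((P + 1) + 4 * Z ^ 2 : ℕ) : ℝ) := by
      exact_mod_cast card_Vs P Z
    push_cast at h1
    linarith
  have h1 := num_core (k := k) (m := m) hk hm hz hzp (Nat.cast_nonneg _) hV
  have hlog : 1 + Real.log (2 * Z) ≤ 1 + Real.log (2 * P) := by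
    have := Real.log_le_log (show (0 : ℝ) < 2 * Z by linarith) (show (2 : ℝ) * Z ≤ 2 * P by linarith)
    linarith
  have hlog0 : 0 ≤ 1 + Real.log (2 * Z) := by
    have := Real.log_nonneg (show (1 : ℝ) ≤ 2 * Z by linarith)
    linarith
  have h2 : ((Vs P Z).card : ℝ) ^ (m - 1) * ((2 * (Z : ℝ) * (2 * c + 3) * P ^ 3) * bZ k c Z) =
      ((2 * (2 * (c : ℝ) + 3)) * (2 * ((2 * c + 2) * (2 * c)))) * (1 + Real.log (2 * Z)) *
        (((Vs P Z).card : ℝ) ^ (m - 1) * ((Z : ℝ) / (Z : ℝ) ^ (k - 2) * P ^ 3)) := by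
    unfold bZ
    ring
  rw [h2]
  unfold cst Tg
  calc ((2 * (2 * (c : ℝ) + 3)) * (2 * ((2 * c + 2) * (2 * c)))) * (1 + Real.log (2 * Z)) *
        (((Vs P Z).card : ℝ) ^ (m - 1) * ((Z : ℝ) / (Z : ℝ) ^ (k - 2) * P ^ 3))
      ≤ ((2 * (2 * (c : ℝ) + 3)) * (2 * ((2 * c + 2) * (2 * c)))) * (1 + Real.log (2 * P)) *
        (6 ^ (m - 1) * ((P : ℝ) ^ (m + 2) + (P : ℝ) ^ (2 * m + 4) / (P : ℝ) ^ k)) := by
        refine mul_le_mul ?_ h1 (by positivity) ?_
        · exact mul_le_mul_of_nonneg_left hlog (by positivity)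
        · exact mul_nonneg (by positivity) (hlog0.trans hlog)
    _ = _ := by ring

end KShift
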