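import Pool.Agent.Lib.MP_df17e9_nt.SxE

/-! Shifted powers: representations. -/

namespace KShift

open Finset MeasureTheory KTwo

/-- the representations x_1^k + x_2^k + sum_j ⌊(z_j + θ_j)^k⌋ = n -/
def reps (k m : ℕ) (θ : Fin m → ℝ) (n : ℕ) : Set ((Fin 2 → ℕ) × (Fin m → ℤ)) :=
  {p | (∀ i, 0 < p.1 i) ∧ (∀ j, 0 < (p.2 j : ℝ) + θ j) ∧
    ∑ i, (p.1 i : ℤ) ^ k + ∑ j, ⌊((p.2 j : ℝ) + θ j) ^ k⌋ = n}

/-- the value, for natural numbers -/
noncomputable def vN (k : ℕ) {m : ℕ} (θ : Fin m → ℝ) (p : (Fin 2 → ℕ) × (Fin m → ℕ)) : ℤ :=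
  ∑ i, (p.1 i : ℤ) ^ k + ∑ j, ⌊((p.2 j : ℝ) + θ j) ^ k⌋

/-- the box -/
noncomputable def bx (m P : ℕ) : Finset ((Fin 2 → ℕ) × (Fin m → ℕ)) :=
  (Fintype.piFinset fun _ : Fin 2 => Icc 1 P) ×ˢ (Fintype.piFinset fun _ : Fin m => range (P + 1))

lemma mem_bx {m P : ℕ} {p : (Fin 2 → ℕ) × (Fin m → ℕ)} :
    p ∈ bx m P ↔ (∀ i, 1 ≤ p.1 i ∧ p.1 i ≤ P) ∧ ∀ j, p.2 j ≤ P := by
  unfold bx
  rw [mem_product, Fintype.mem_piFinset, Fintype.mem_piFinset]
  simp only [mem_Icc, mem_range, Nat.lt_succ_iff]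

/-- shifting by integers -/
lemma reps_le {k m P n : ℕ} (hk : 1 ≤ k) (hn : n ≤ P ^ k) (θ : Fin m → ℝ) :
    (reps k m θ n).Finite ∧ (reps k m θ n).ncard ≤
      ((bx m P).filter fun p => vN k (fun j => Int.fract (θ j)) p = n).card := by
  classical
  obtain ⟨F, hF⟩ : ∃ F : (Fin 2 → ℕ) × (Fin m → ℤ) → (Fin 2 → ℕ) × (Fin m → ℕ), F = fun p =>
    (p.1, fun j => (p.2 j + ⌊θ j⌋).toNat) := ⟨_, rfl⟩
  have hnn : ∀ p ∈ reps k m θ n, ∀ j, 0 ≤ p.2 j + ⌊θ j⌋ ∧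
      (((p.2 j + ⌊θ j⌋).toNat : ℕ) : ℝ) + Int.fract (θ j) = (p.2 j : ℝ) + θ j := by
    intro p hp j
    have h1 := hp.2.1 j
    have h2 := Int.floor_add_fract (θ j)
    have h3 := Int.fract_lt_one (θ j)
    have h4 : (-1 : ℝ) < ((p.2 j + ⌊θ j⌋ : ℤ) : ℝ) := by
      push_cast
      linarith
    have h5 : (-1 : ℤ) < p.2 j + ⌊θ j⌋ := by exact_mod_cast h4
    have h6 : 0 ≤ p.2 j + ⌊θ j⌋ := by omega
    refine ⟨h6, ?_⟩
    have h7 : (((p.2 j + ⌊θ j⌋).toNat : ℕ) : ℝ) = ((p.2 j + ⌊θ j⌋ : ℤ) : ℝ) := by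
      exact_mod_cast congrArg (fun x : ℤ => (x : ℝ)) (Int.toNat_of_nonneg h6)
    rw [h7]
    push_cast
    linarith
  have hmaps : ∀ p ∈ reps k m θ n, F p ∈
      ((bx m P).filter fun p => vN k (fun j => Int.fract (θ j)) p = n) := by
    intro p hp
    have h1 := hnn p hp
    obtain ⟨hx, hz, hv⟩ := hp
    have hval : vN k (fun j => Int.fract (θ j)) (F p) = n := by
      rw [← hv]
      unfold vN
      rw [hF]
      dsimp only
      congr 1
      exact sum_congr rfl fun j _ => by rw [(h1 j).2]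
    have hnx : ∀ i ∈ (univ : Finset (Fin 2)), 0 ≤ (p.1 i : ℤ) ^ k := fun i _ => by positivity
    have hnz : ∀ j ∈ (univ : Finset (Fin m)), 0 ≤ ⌊((p.2 j : ℝ) + θ j) ^ k⌋ := fun j _ =>
      Int.floor_nonneg.2 (pow_nonneg (hz j).le k)
    have hP : (n : ℤ) ≤ (P : ℤ) ^ k := by exact_mod_cast hn
    rw [mem_filter, mem_bx]
    refine ⟨⟨fun i => ⟨?_, ?_⟩, fun j => ?_⟩, hval⟩
    · rw [hF]
      exact hx i
    · rw [hF]
      dsimp only
      have h2 := single_le_sum hnx (mem_univ i)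
      have h3 := sum_nonneg hnz
      have h4 : (p.1 i : ℤ) ^ k ≤ (P : ℤ) ^ k := by linarith
      have h5 : (p.1 i) ^ k ≤ P ^ k := by exact_mod_cast h4
      exact (pow_le_pow_iff_left₀ (Nat.zero_le _) (Nat.zero_le _) (by omega)).1 h5
    · rw [hF]
      dsimp only
      have h2 := single_le_sum hnz (mem_univ j)
      have h3 := sum_nonneg hnx
      have h4 : ⌊((p.2 j : ℝ) + θ j) ^ k⌋ ≤ (P : ℤ) ^ k := by linarith
      have h5 : ((p.2 j : ℝ) + θ j) ^ k < ((P : ℝ) ^ k) + 1 := by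
        have := Int.lt_floor_add_one (((p.2 j : ℝ) + θ j) ^ k)
        have h6 : ((⌊((p.2 j : ℝ) + θ j) ^ k⌋ : ℤ) : ℝ) ≤ ((P : ℝ) ^ k) := by exact_mod_cast h4
        linarith
      by_contra hcon
      push Not at hcon
      have h6 : (P : ℝ) + 1 ≤ (p.2 j : ℝ) + θ j := by
        rw [← (h1 j).2]
        have h7 : ((P + 1 : ℕ) : ℝ) ≤ (((p.2 j + ⌊θ j⌋).toNat : ℕ) : ℝ) := by exact_mod_cast hcon
        push_cast at h7
        have h8 := Int.fract_nonneg (θ j)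
        linarith
      have h7 : ((P : ℝ) + 1) ^ k ≤ ((p.2 j : ℝ) + θ j) ^ k := pow_le_pow_left₀ (by positivity) h6 k
      have h8 := pow_add_pow_le (x := (P : ℝ)) (y := (1 : ℝ)) (by positivity) zero_le_one
        (show k ≠ 0 by omega)
      rw [one_pow] at h8
      linarith
  have hinj : Set.InjOn F (reps k m θ n) := by
    rintro ⟨x, z⟩ hp ⟨x', z'⟩ hp' he
    have h1 := hnn _ hp
    have h2 := hnn _ hp'
    rw [hF] at he
    simp only [Prod.mk.injEq] at he h1 h2 ⊢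
    refine ⟨he.1, ?_⟩
    funext j
    have h3 : (z j + ⌊θ j⌋).toNat = (z' j + ⌊θ j⌋).toNat := congrFun he.2 j
    have h4 := (h1 j).1
    have h5 := (h2 j).1
    omega
  have hfin : (reps k m θ n).Finite := by
    refine Set.Finite.of_finite_image (f := F) ?_ hinj
    refine (Finset.finite_toSet
      ((bx m P).filter fun p => vN k (fun j => Int.fract (θ j)) p = n)).subset ?_
    rintro _ ⟨p, hp, rfl⟩
    exact mem_coe.2 (hmaps p hp)
  refine ⟨hfin, ?_⟩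
  rw [← Set.ncard_coe_finset]
  exact Set.ncard_le_ncard_of_injOn F (fun p hp => mem_coe.2 (hmaps p hp)) hinj
    (Finset.finite_toSet _)

lemma sum_sq_general {α : Type*} (B : Finset α) (v : α → ℤ) (N : ℕ) :
    ∑ n ∈ range (N + 1), ((B.filter fun a => v a = (n : ℤ)).card) ^ 2 ≤
      ((B ×ˢ B).filter fun p => v p.1 = v p.2).card := by
  classical
  have h1 : ∀ n ∈ range (N + 1), ((B.filter fun a => v a = (n : ℤ)).card) ^ 2 =
      ((B.filter fun a => v a = (n : ℤ)) ×ˢ (B.filter fun a => v a = (n : ℤ))).card := by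
    intro n _
    rw [card_product, sq]
  rw [sum_congr rfl h1, ← card_biUnion]
  · refine card_le_card fun p hp => ?_
    rw [mem_biUnion] at hp
    obtain ⟨n, _, hp⟩ := hp
    rw [mem_product, mem_filter, mem_filter] at hp
    rw [mem_filter, mem_product]
    exact ⟨⟨hp.1.1, hp.2.1⟩, hp.1.2.trans hp.2.2.symm⟩
  · intro n _ n' _ hne
    rw [Function.onFun, disjoint_left]
    intro p hp hp'
    rw [mem_product, mem_filter, mem_filter] at hp hp'
    have h2 : (n : ℤ) = n' := hp.1.2.symm.trans hp'.1.2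
    exact hne (by exact_mod_cast h2)

/-- the number of off-diagonal solutions -/
noncomputable def cnt (k m P : ℕ) (θ : Fin m → ℝ) : ENNReal :=
  ∑ t ∈ Off m P, (Ev k m t).indicator 1 θ

/-- pairs with equal values -/
lemma pairs_le {k m P d : ℕ} (hk : 2 ≤ k)
    (hd : ∀ M : ℤ, M ≠ 0 → |M| ≤ (P : ℤ) ^ k → M.natAbs.divisors.card ≤ d) (θ : Fin m → ℝ) :
    ((((bx m P ×ˢ bx m P).filter fun p => vN k θ p.1 = vN k θ p.2).card : ℕ) : ENNReal) ≤
      (((P + 1) ^ m * (P ^ 2 * (1 + 2 * d)) : ℕ) : ENNReal) + cnt k m P θ := by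
  classical
  obtain ⟨S, hS⟩ : ∃ S, S = (bx m P ×ˢ bx m P).filter fun p => vN k θ p.1 = vN k θ p.2 := ⟨_, rfl⟩
  rw [← hS]
  obtain ⟨F, hF⟩ : ∃ F : ((Fin 2 → ℕ) × (Fin m → ℕ)) × ((Fin 2 → ℕ) × (Fin m → ℕ)) →
      (Fin 4 → ℤ) × (Fin m → ℕ × ℕ), F = fun p =>
        (![(p.1.1 0 : ℤ), (p.1.1 1 : ℤ), (p.2.1 0 : ℤ), (p.2.1 1 : ℤ)],
          fun j => (p.1.2 j, p.2.2 j)) := ⟨_, rfl⟩
  have hinj : Function.Injective F := by
    rintro ⟨⟨x, z⟩, y, w⟩ ⟨⟨x', z'⟩, y', w'⟩ he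
    rw [hF] at he
    simp only [Prod.mk.injEq] at he ⊢
    obtain ⟨h1, h2⟩ := he
    have c0 : x 0 = x' 0 := Int.ofNat_inj.1 (congrFun h1 0)
    have c1 : x 1 = x' 1 := Int.ofNat_inj.1 (congrFun h1 1)
    have c2 : y 0 = y' 0 := Int.ofNat_inj.1 (congrFun h1 2)
    have c3 : y 1 = y' 1 := Int.ofNat_inj.1 (congrFun h1 3)
    refine ⟨⟨?_, ?_⟩, ?_, ?_⟩
    · funext i
      fin_cases i
      · exact c0
      · exact c1
    · funext j
      exact congrArg Prod.fst (congrFun h2 j)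
    · funext i
      fin_cases i
      · exact c2
      · exact c3
    · funext j
      exact congrArg Prod.snd (congrFun h2 j)
  have hOm : ∀ p ∈ S, F p ∈ Om m P := by
    rintro ⟨⟨x, z⟩, y, w⟩ hp
    rw [hS, mem_filter, mem_product, mem_bx, mem_bx] at hp
    obtain ⟨⟨⟨h1, h2⟩, h3, h4⟩, _⟩ := hp
    have hxZ : ∀ i, (1 : ℤ) ≤ x i ∧ (x i : ℤ) ≤ P := fun i =>
      ⟨by exact_mod_cast (h1 i).1, by exact_mod_cast (h1 i).2⟩
    have hyZ : ∀ i, (1 : ℤ) ≤ y i ∧ (y i : ℤ) ≤ P := fun i =>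
      ⟨by exact_mod_cast (h3 i).1, by exact_mod_cast (h3 i).2⟩
    rw [mem_Om]
    refine ⟨?_, fun j => ?_⟩
    · unfold quads
      rw [Fintype.mem_piFinset]
      intro i
      rw [mem_Icc, hF]
      fin_cases i
      · exact hxZ 0
      · exact hxZ 1
      · exact hyZ 0
      · exact hyZ 1
    · rw [hF]
      exact ⟨Nat.lt_succ_of_le (h2 j), Nat.lt_succ_of_le (h4 j)⟩
  have hEeq : ∀ p : ((Fin 2 → ℕ) × (Fin m → ℕ)) × ((Fin 2 → ℕ) × (Fin m → ℕ)),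
      E k (F p).1 = ∑ i, (p.1.1 i : ℤ) ^ k - ∑ i, (p.2.1 i : ℤ) ^ k := by
    intro p
    rw [hF]
    unfold E
    rw [Fin.sum_univ_two, Fin.sum_univ_two]
    show (p.1.1 0 : ℤ) ^ k + (p.1.1 1 : ℤ) ^ k - (p.2.1 0 : ℤ) ^ k - (p.2.1 1 : ℤ) ^ k = _
    ring
  have hEv : ∀ p ∈ S, θ ∈ Ev k m (F p) := by
    intro p hp
    rw [hS, mem_filter] at hp
    have h1 := hp.2
    unfold vN at h1
    have h2 : (E k (F p).1 : ℝ) = ∑ j, ((⌊((p.2.2 j : ℝ) + θ j) ^ k⌋ : ℤ) : ℝ) -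
        ∑ j, ((⌊((p.1.2 j : ℝ) + θ j) ^ k⌋ : ℤ) : ℝ) := by
      rw [hEeq]
      have h3 : (∑ i, (p.1.1 i : ℤ) ^ k - ∑ i, (p.2.1 i : ℤ) ^ k : ℤ) =
          ∑ j, ⌊((p.2.2 j : ℝ) + θ j) ^ k⌋ - ∑ j, ⌊((p.1.2 j : ℝ) + θ j) ^ k⌋ := by linarith
      rw [h3]
      push_cast
      ring
    unfold Ev Phi
    rw [Set.mem_ofPred_eq, h2]
    have h3 : ∑ j, ((⌊((p.2.2 j : ℝ) + θ j) ^ k⌋ : ℤ) : ℝ) -
        ∑ j, ((⌊((p.1.2 j : ℝ) + θ j) ^ k⌋ : ℤ) : ℝ) + ∑ j, G k ((F p).2 j) (θ j) =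
        ∑ j, (Int.fract (((p.1.2 j : ℝ) + θ j) ^ k) - Int.fract (((p.2.2 j : ℝ) + θ j) ^ k)) := by
      rw [← sum_sub_distrib, ← sum_add_distrib]
      refine sum_congr rfl fun j _ => ?_
      have h4 := Int.self_sub_floor (((p.1.2 j : ℝ) + θ j) ^ k)
      have h5 := Int.self_sub_floor (((p.2.2 j : ℝ) + θ j) ^ k)
      rw [← h4, ← h5, hF]
      unfold G
      ring
    rw [h3]
    refine (abs_sum_le_sum_abs _ _).trans ?_
    have h4 : ∀ j ∈ (univ : Finset (Fin m)), |Int.fract (((p.1.2 j : ℝ) + θ j) ^ k) -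
        Int.fract (((p.2.2 j : ℝ) + θ j) ^ k)| ≤ 1 := by
      intro j _
      have e1 := Int.fract_nonneg (((p.1.2 j : ℝ) + θ j) ^ k)
      have e2 := Int.fract_lt_one (((p.1.2 j : ℝ) + θ j) ^ k)
      have e3 := Int.fract_nonneg (((p.2.2 j : ℝ) + θ j) ^ k)
      have e4 := Int.fract_lt_one (((p.2.2 j : ℝ) + θ j) ^ k)
      rw [abs_le]
      exact ⟨by linarith, by linarith⟩
    refine (sum_le_sum h4).trans (le_of_eq ?_)
    rw [sum_const, card_univ, Fintype.card_fin, nsmul_eq_mul, mul_one]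
  -- the two parts
  obtain ⟨S1, hS1⟩ : ∃ S1, S1 = S.filter fun p => ∀ j, p.1.2 j = p.2.2 j := ⟨_, rfl⟩
  obtain ⟨S2, hS2⟩ : ∃ S2, S2 = S.filter fun p => ¬ ∀ j, p.1.2 j = p.2.2 j := ⟨_, rfl⟩
  have hcard : S.card = S1.card + S2.card := by
    rw [hS1, hS2, card_filter_add_card_filter_not]
  have h1 : S1.card ≤ (P + 1) ^ m * (P ^ 2 * (1 + 2 * d)) := by
    have h2 : S1.card = (S1.image fun p => (p.1.2, (F p).1)).card := by
      symm
      refine card_image_of_injOn fun p hp q hq he => ?_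
      rw [mem_coe, hS1, mem_filter] at hp hq
      simp only [Prod.mk.injEq] at he
      apply hinj
      rw [Prod.ext_iff]
      refine ⟨he.2, ?_⟩
      funext j
      rw [hF]
      dsimp only
      rw [← hp.2 j, ← hq.2 j, congrFun he.1 j]
    rw [h2]
    have h3 : (S1.image fun p => (p.1.2, (F p).1)) ⊆
        (Fintype.piFinset fun _ : Fin m => range (P + 1)) ×ˢ
          ((quads P).filter fun q => E k q = 0) := by
      intro x hx
      obtain ⟨p, hp, rfl⟩ := mem_image.1 hx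
      rw [hS1, mem_filter] at hp
      have h4 := hOm p hp.1
      have h5 := mem_Om.1 h4
      have h6 := hp.1
      rw [hS, mem_filter, mem_product, mem_bx, mem_bx] at h6
      rw [mem_product, mem_filter, Fintype.mem_piFinset]
      refine ⟨fun j => mem_range.2 (Nat.lt_succ_of_le (h6.1.1.2 j)), h5.1, ?_⟩
      rw [hEeq]
      have h7 := h6.2
      unfold vN at h7
      have h8 : ∑ j, ⌊((p.1.2 j : ℝ) + θ j) ^ k⌋ = ∑ j, ⌊((p.2.2 j : ℝ) + θ j) ^ k⌋ :=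
        sum_congr rfl fun j _ => by rw [hp.2 j]
      rw [h8] at h7
      linarith
    refine (card_le_card h3).trans ?_
    rw [card_product, Fintype.card_piFinset]
    simp only [card_range, prod_const, card_univ, Fintype.card_fin]
    exact Nat.mul_le_mul_left _ (card_quads_zero hk hd)
  have h2 : ((S2.card : ℕ) : ENNReal) ≤ cnt k m P θ := by
    have h3 : ((S2.card : ℕ) : ENNReal) = ∑ _p ∈ S2, (1 : ENNReal) := by
      rw [sum_const, nsmul_eq_mul, mul_one]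
    rw [h3]
    unfold cnt
    refine sum_le_of_inj S2 (Off m P) F _ _ ?_ hinj.injOn ?_
    · intro p hp
      rw [hS2, mem_filter] at hp
      unfold Off
      rw [mem_filter]
      refine ⟨hOm p hp.1, ?_⟩
      rw [hF]
      exact hp.2
    · intro p hp
      rw [hS2, mem_filter] at hp
      rw [Set.indicator_of_mem (hEv p hp.1)]
      exact le_rfl
  rw [hcard, Nat.cast_add]
  exact add_le_add (by exact_mod_cast h1) h2

end KShift
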