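import Pool.Agent.Lib.MP_df17e9_nt.SxF
import Pool.Agent.Lib.MP_d807e3_co.Divisors

/-! Shifted powers: almost all shifts. -/

namespace KShift

open Finset MeasureTheory KTwo Filter

lemma Tg_pos {k m : ℕ} {p : ℝ} (hp : 1 ≤ p) : 1 ≤ Tg k m p := by
  unfold Tg
  have h1 : 1 ≤ p ^ (m + 2) := one_le_pow₀ hp
  have h2 : 0 ≤ p ^ (2 * m + 4) / p ^ k := by positivity
  linarith

lemma measurable_cnt (k m P : ℕ) : Measurable (cnt k m P) := by
  unfold cnt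
  exact Finset.measurable_sum _ fun t _ => measurable_one.indicator (measurableSet_Ev k m t)

lemma lintegral_cnt {k m P : ℕ} (hk : 3 ≤ k) (hm : 1 ≤ m) (hP : 1 ≤ P) :
    ∫⁻ θ, cnt k m P θ ∂(mu m) ≤ ENNReal.ofReal (m * ((Nat.log 2 P + 1 : ℕ) *
      (cst m m * (1 + Real.log (2 * P)) * Tg k m P))) := by
  unfold cnt
  rw [lintegral_finsetSum _ fun t _ => measurable_one.indicator (measurableSet_Ev k m t)]
  have h1 : ∀ t ∈ Off m P, ∫⁻ θ, (Ev k m t).indicator 1 θ ∂(mu m) = (mu m) (Ev k m t) :=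
    fun t _ => lintegral_indicator_one (measurableSet_Ev k m t)
  rw [sum_congr rfl h1]
  exact exp_off (by omega) hP _ fun l hl => num_bound hk hm Nat.one_le_two_pow hl

/-- the good shifts -/
def GoodS (k m : ℕ) (θ : Fin m → ℝ) : Prop :=
  ∀ j : ℕ, ∀ᶠ l : ℕ in atTop, cnt k m (2 ^ l) θ ≤
    ENNReal.ofReal (((2 : ℝ) ^ (1 / ((j : ℝ) + 1))) ^ l * Tg k m ((2 : ℝ) ^ l))

theorem ae_goodS {k m : ℕ} (hk : 3 ≤ k) (hm : 1 ≤ m) : ∀ᵐ θ ∂(mu m), GoodS k m θ := by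
  unfold GoodS
  rw [ae_all_iff]
  intro j
  obtain ⟨R, hR⟩ : ∃ R : ℝ, R = (2 : ℝ) ^ (1 / ((j : ℝ) + 1)) := ⟨_, rfl⟩
  have hR1 : 1 < R := by
    rw [hR]
    exact Real.one_lt_rpow (by norm_num) (by positivity)
  have hR0 : 0 < R := by linarith
  rw [← hR]
  obtain ⟨B, hB⟩ : ∃ B : ℕ → Set (Fin m → ℝ), B = fun l =>
    {θ | ENNReal.ofReal (R ^ l * Tg k m ((2 : ℝ) ^ l)) ≤ cnt k m (2 ^ l) θ} := ⟨_, rfl⟩
  obtain ⟨K, hK⟩ : ∃ K : ℝ, K = m * (2 * cst m m) := ⟨_, rfl⟩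
  have hcst : 0 ≤ cst m m := by
    unfold cst
    positivity
  have hK0 : 0 ≤ K := by
    rw [hK]
    positivity
  have h1 : ∀ l, (mu m) (B l) ≤ ENNReal.ofReal (K * ((((l + 1 : ℕ) : ℝ)) ^ 2 * (1 / R) ^ l)) := by
    intro l
    have hT := Tg_pos (k := k) (m := m) (one_le_pow₀ (n := l) (show (1 : ℝ) ≤ 2 by norm_num))
    have hpos : 0 < R ^ l * Tg k m ((2 : ℝ) ^ l) := by positivity
    rw [hB]
    refine (meas_ge_le_lintegral_div (measurable_cnt k m (2 ^ l)).aemeasurable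
      (by rw [Ne, ENNReal.ofReal_eq_zero, not_le]; exact hpos) ENNReal.ofReal_ne_top).trans ?_
    refine (ENNReal.div_le_div_right (lintegral_cnt hk hm Nat.one_le_two_pow) _).trans ?_
    rw [← ENNReal.ofReal_div_of_pos hpos]
    refine ENNReal.ofReal_le_ofReal ?_
    rw [div_le_iff₀ hpos, Nat.log_pow (by norm_num)]
    push_cast
    have h2 : Real.log (2 * (2 : ℝ) ^ l) = ((l : ℝ) + 1) * Real.log 2 := by
      rw [← pow_succ', Real.log_pow]
      push_cast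
      ring
    rw [h2]
    have h3 : Real.log 2 ≤ 1 := by
      have := Real.log_two_lt_d9
      linarith
    have hl0 : (0 : ℝ) ≤ l := Nat.cast_nonneg l
    have h4 : 1 + ((l : ℝ) + 1) * Real.log 2 ≤ 2 * (l + 1) := by nlinarith
    have h5 : K * (((l : ℝ) + 1) ^ 2 * (1 / R) ^ l) * (R ^ l * Tg k m ((2 : ℝ) ^ l)) =
        (m : ℝ) * ((l + 1) * (cst m m * (2 * (l + 1)) * Tg k m ((2 : ℝ) ^ l))) := by
      rw [hK, one_div, inv_pow]
      field_simp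
    rw [h5]
    refine mul_le_mul_of_nonneg_left (mul_le_mul_of_nonneg_left (mul_le_mul_of_nonneg_right
      (mul_le_mul_of_nonneg_left h4 hcst) (by linarith)) (by positivity)) (by positivity)
  have hsum : Summable fun l : ℕ => K * ((((l + 1 : ℕ) : ℝ)) ^ 2 * (1 / R) ^ l) := by
    refine Summable.mul_left K ?_
    have h2 : Summable fun n : ℕ => (n : ℝ) ^ 2 * (1 / R) ^ n :=
      summable_pow_mul_geometric_of_norm_lt_one 2 (by
        rw [Real.norm_eq_abs, abs_of_nonneg (by positivity), div_lt_one hR0]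
        exact hR1)
    have h3 := (summable_nat_add_iff 1).2 h2
    have h4 : (fun l : ℕ => (((l + 1 : ℕ) : ℝ)) ^ 2 * (1 / R) ^ l) =
        fun l : ℕ => R * ((((l + 1 : ℕ) : ℝ)) ^ 2 * (1 / R) ^ (l + 1)) := by
      funext l
      rw [pow_succ (1 / R) l]
      field_simp
    rw [h4]
    exact h3.mul_left R
  have h2 : (∑' l, (mu m) (B l)) ≠ ⊤ :=
    ne_top_of_le_ne_top hsum.tsum_ofReal_ne_top (ENNReal.tsum_le_tsum h1)
  filter_upwards [ae_eventually_notMem h2] with θ hθ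
  filter_upwards [hθ] with l hl
  rw [hB] at hl
  exact (not_le.1 hl).le

/-- the shifts with good fractional parts -/
theorem ae_fract {k m : ℕ} (hk : 3 ≤ k) (hm : 1 ≤ m) :
    ∀ᵐ θ : Fin m → ℝ, GoodS k m fun j => Int.fract (θ j) := by
  have h1 := ae_goodS hk hm
  have hmu : mu m = (volume : Measure (Fin m → ℝ)).restrict
      (Set.univ.pi fun _ : Fin m => Set.Icc (0 : ℝ) 1) := by
    unfold mu
    rw [volume_pi, Measure.restrict_pi_pi]
  rw [hmu, ae_restrict_iff' (MeasurableSet.univ_pi fun _ => measurableSet_Icc)] at h1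
  have h2 : ∀ v : Fin m → ℤ, ∀ᵐ θ : Fin m → ℝ,
      (θ - fun j => (v j : ℝ)) ∈ (Set.univ.pi fun _ : Fin m => Set.Icc (0 : ℝ) 1) →
        GoodS k m (θ - fun j => (v j : ℝ)) := by
    intro v
    exact (measurePreserving_sub_right (volume : Measure (Fin m → ℝ))
      (fun j => (v j : ℝ))).quasiMeasurePreserving.ae h1
  rw [← ae_all_iff] at h2
  filter_upwards [h2] with θ hθ
  have h3 := hθ fun j => ⌊θ j⌋
  have h4 : (θ - fun j => ((⌊θ j⌋ : ℤ) : ℝ)) = fun j => Int.fract (θ j) := by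
    funext j
    rw [Pi.sub_apply]
    exact Int.self_sub_floor (θ j)
  rw [h4] at h3
  refine h3 ?_
  rw [Set.mem_univ_pi]
  exact fun j => ⟨Int.fract_nonneg _, (Int.fract_lt_one _).le⟩

/-- the mean square at a dyadic scale -/
lemma mean_scale {k m l N : ℕ} (hk : 3 ≤ k) {η Cd : ℝ} (hη : 0 < η) (hCd1 : 1 ≤ Cd)
    (hCd : ∀ n : ℕ, 1 ≤ n → (n.divisors.card : ℝ) ≤ Cd * (n : ℝ) ^ η) {θ : Fin m → ℝ} {R : ℝ}
    (hR : 1 ≤ R) (hR2 : R ≤ (2 : ℝ) ^ η) (hN : N ≤ (2 ^ l) ^ k)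
    (hg : cnt k m (2 ^ l) (fun j => Int.fract (θ j)) ≤
      ENNReal.ofReal (R ^ l * Tg k m ((2 : ℝ) ^ l))) :
    ((∑ n ∈ range (N + 1), (reps k m θ n).ncard ^ 2 : ℕ) : ℝ) ≤
      (2 ^ m * (3 * Cd) + 1) * ((((2 : ℝ) ^ l) ^ k) ^ η) * Tg k m ((2 : ℝ) ^ l) := by
  classical
  obtain ⟨P, hP⟩ : ∃ P : ℕ, P = 2 ^ l := ⟨_, rfl⟩
  have hPR : (P : ℝ) = (2 : ℝ) ^ l := by
    rw [hP]
    push_cast
    rfl
  rw [← hP] at hN hg
  rw [← hPR] at hg ⊢
  have hP1 : 1 ≤ P := by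
    rw [hP]
    exact Nat.one_le_two_pow
  have hP1R : (1 : ℝ) ≤ P := by exact_mod_cast hP1
  obtain ⟨d, hd⟩ : ∃ d : ℕ, d = ⌊Cd * ((P : ℝ) ^ k) ^ η⌋₊ := ⟨_, rfl⟩
  have hPk1 : (1 : ℝ) ≤ (P : ℝ) ^ k := one_le_pow₀ hP1R
  have hPη : (1 : ℝ) ≤ ((P : ℝ) ^ k) ^ η := Real.one_le_rpow hPk1 hη.le
  have hdR : (d : ℝ) ≤ Cd * ((P : ℝ) ^ k) ^ η := by
    rw [hd]
    exact Nat.floor_le (by positivity)
  have hdiv : ∀ M : ℤ, M ≠ 0 → |M| ≤ (P : ℤ) ^ k → M.natAbs.divisors.card ≤ d := by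
    intro M hM hMP
    have h1 : 1 ≤ M.natAbs := by omega
    have h3 : (M.natAbs : ℝ) ≤ (P : ℝ) ^ k := by
      have h4 : (M.natAbs : ℤ) ≤ (P : ℤ) ^ k := by
        rw [← Int.abs_eq_natAbs]
        exact hMP
      exact_mod_cast h4
    rw [hd]
    refine Nat.le_floor ((hCd M.natAbs h1).trans ?_)
    refine mul_le_mul_of_nonneg_left ?_ (by linarith)
    exact Real.rpow_le_rpow (Nat.cast_nonneg _) h3 hη.le
  have h1 : ∑ n ∈ range (N + 1), (reps k m θ n).ncard ^ 2 ≤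
      ((bx m P ×ˢ bx m P).filter fun p => vN k (fun j => Int.fract (θ j)) p.1 =
        vN k (fun j => Int.fract (θ j)) p.2).card := by
    refine le_trans (sum_le_sum fun n hn => ?_) (sum_sq_general (bx m P)
      (vN k fun j => Int.fract (θ j)) N)
    have h2 := (reps_le (k := k) (m := m) (P := P) (n := n) (by omega)
      ((Nat.lt_succ_iff.1 (mem_range.1 hn)).trans hN) θ).2
    exact Nat.pow_le_pow_left h2 2
  have h2 := pairs_le (k := k) (m := m) (P := P) (d := d) (by omega) hdiv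
    (fun j => Int.fract (θ j))
  have hX0 : 0 ≤ R ^ l * Tg k m (P : ℝ) := by
    have := Tg_pos (k := k) (m := m) hP1R
    positivity
  have h3 : ((((bx m P ×ˢ bx m P).filter fun p => vN k (fun j => Int.fract (θ j)) p.1 =
      vN k (fun j => Int.fract (θ j)) p.2).card : ℕ) : ℝ) ≤
        (((P + 1) ^ m * (P ^ 2 * (1 + 2 * d)) : ℕ) : ℝ) + R ^ l * Tg k m (P : ℝ) := by
    have h4 := h2.trans (add_le_add le_rfl hg)
    rw [← ENNReal.ofReal_natCast, ← ENNReal.ofReal_natCast,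
      ← ENNReal.ofReal_add (Nat.cast_nonneg _) hX0] at h4
    exact (ENNReal.ofReal_le_ofReal_iff (by positivity)).1 h4
  have h4 : ((∑ n ∈ range (N + 1), (reps k m θ n).ncard ^ 2 : ℕ) : ℝ) ≤
      (((P + 1) ^ m * (P ^ 2 * (1 + 2 * d)) : ℕ) : ℝ) + R ^ l * Tg k m (P : ℝ) := by
    refine le_trans ?_ h3
    exact_mod_cast h1
  refine h4.trans ?_
  have hT : (P : ℝ) ^ (m + 2) ≤ Tg k m (P : ℝ) := by
    unfold Tg
    have : 0 ≤ (P : ℝ) ^ (2 * m + 4) / (P : ℝ) ^ k := by positivity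
    linarith
  have h5 : (((P + 1) ^ m * (P ^ 2 * (1 + 2 * d)) : ℕ) : ℝ) ≤
      2 ^ m * (3 * Cd) * ((P : ℝ) ^ k) ^ η * Tg k m (P : ℝ) := by
    push_cast
    have e1 : ((P : ℝ) + 1) ^ m ≤ 2 ^ m * (P : ℝ) ^ m := by
      rw [← mul_pow]
      exact pow_le_pow_left₀ (by positivity) (by linarith) m
    have e2 : (1 : ℝ) + 2 * d ≤ 3 * Cd * ((P : ℝ) ^ k) ^ η := by
      have : (1 : ℝ) ≤ Cd * ((P : ℝ) ^ k) ^ η := one_le_mul_of_one_le_of_one_le hCd1 hPη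
      linarith
    calc ((P : ℝ) + 1) ^ m * ((P : ℝ) ^ 2 * (1 + 2 * d)) ≤
        (2 ^ m * (P : ℝ) ^ m) * ((P : ℝ) ^ 2 * (3 * Cd * ((P : ℝ) ^ k) ^ η)) :=
          mul_le_mul e1 (mul_le_mul_of_nonneg_left e2 (by positivity)) (by positivity)
            (by positivity)
      _ = 2 ^ m * (3 * Cd) * ((P : ℝ) ^ k) ^ η * (P : ℝ) ^ (m + 2) := by ring
      _ ≤ _ := mul_le_mul_of_nonneg_left hT (by positivity)
  have h6 : R ^ l ≤ ((P : ℝ) ^ k) ^ η := by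
    calc R ^ l ≤ ((2 : ℝ) ^ η) ^ l := pow_le_pow_left₀ (by linarith) hR2 l
      _ = (P : ℝ) ^ η := by
          rw [hPR, ← Real.rpow_natCast, ← Real.rpow_natCast, ← Real.rpow_mul (by norm_num),
            ← Real.rpow_mul (by norm_num), mul_comm]
      _ ≤ ((P : ℝ) ^ k) ^ η := Real.rpow_le_rpow (by positivity)
          (le_self_pow₀ hP1R (by omega)) hη.le
  have h7 : R ^ l * Tg k m (P : ℝ) ≤ ((P : ℝ) ^ k) ^ η * Tg k m (P : ℝ) :=
    mul_le_mul_of_nonneg_right h6 (by have := Tg_pos (k := k) (m := m) hP1R; linarith)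
  linarith

theorem main_shift (k m : ℕ) (hk : 3 ≤ k) (hm : 1 ≤ m) : ∀ᵐ θ : Fin m → ℝ,
    (∀ n, (reps k m θ n).Finite) ∧ ∀ ε : ℝ, 0 < ε → ∃ C : ℝ, ∀ N : ℕ, 1 ≤ N →
      ((∑ n ∈ range (N + 1), (reps k m θ n).ncard ^ 2 : ℕ) : ℝ) ≤ C * (N : ℝ) ^ ε *
        ((N : ℝ) ^ (((m : ℝ) + 2) / k) + (N : ℝ) ^ (2 * ((m : ℝ) + 2) / k - 1)) := by
  filter_upwards [ae_fract hk hm] with θ hθ
  refine ⟨fun n => (reps_le (k := k) (m := m) (P := n) (n := n) (by omega)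
    (Nat.le_self_pow (by omega) n) θ).1, fun ε hε => ?_⟩
  obtain ⟨Cd, hCd1, hCd⟩ := Pool.Agent.MP_d807e3_co.divisor_bound hε
  obtain ⟨j, hj⟩ := exists_nat_gt (1 / ε)
  have hj' : 1 / ((j : ℝ) + 1) ≤ ε := by
    rw [div_le_iff₀ (by positivity)]
    rw [div_lt_iff₀ hε] at hj
    nlinarith
  obtain ⟨l0, hl0⟩ := eventually_atTop.1 (hθ j)
  obtain ⟨S, hS⟩ : ∃ S : ℕ → ℝ, S = fun N =>
    ((∑ n ∈ range (N + 1), (reps k m θ n).ncard ^ 2 : ℕ) : ℝ) := ⟨_, rfl⟩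
  have hSmono : ∀ a b, a ≤ b → S a ≤ S b := by
    intro a b hab
    rw [hS]
    have : ∑ n ∈ range (a + 1), (reps k m θ n).ncard ^ 2 ≤
        ∑ n ∈ range (b + 1), (reps k m θ n).ncard ^ 2 :=
      sum_le_sum_of_subset (range_mono (by omega))
    show ((∑ n ∈ range (a + 1), (reps k m θ n).ncard ^ 2 : ℕ) : ℝ) ≤
      ((∑ n ∈ range (b + 1), (reps k m θ n).ncard ^ 2 : ℕ) : ℝ)
    exact Nat.cast_le.2 this
  have hS0 : ∀ a, 0 ≤ S a := by
    intro a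
    rw [hS]
    exact Nat.cast_nonneg _
  obtain ⟨N0, hN0⟩ : ∃ N0 : ℕ, N0 = (2 ^ k) ^ l0 := ⟨_, rfl⟩
  obtain ⟨C1, hC1⟩ : ∃ C1 : ℝ, C1 = (2 ^ m * (3 * Cd) + 1) * ((2 : ℝ) ^ k) ^ ε *
    (2 : ℝ) ^ (2 * m + 4) := ⟨_, rfl⟩
  have hC10 : 0 ≤ C1 := by
    rw [hC1]
    positivity
  refine ⟨C1 + S N0, fun N hN => ?_⟩
  have hNR : (1 : ℝ) ≤ N := by exact_mod_cast hN
  have hN0' : (0 : ℝ) < N := by linarith
  have hkR : (0 : ℝ) < k := by
    have : 0 < k := by omega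
    exact_mod_cast this
  obtain ⟨X, hX⟩ : ∃ X : ℝ, X = (N : ℝ) ^ (((m : ℝ) + 2) / k) +
    (N : ℝ) ^ (2 * ((m : ℝ) + 2) / k - 1) := ⟨_, rfl⟩
  have hX1 : 1 ≤ X := by
    rw [hX]
    have h1 : 1 ≤ (N : ℝ) ^ (((m : ℝ) + 2) / k) := Real.one_le_rpow hNR (by positivity)
    have h2 : 0 ≤ (N : ℝ) ^ (2 * ((m : ℝ) + 2) / k - 1) := by positivity
    linarith
  have hNε : 1 ≤ (N : ℝ) ^ ε := Real.one_le_rpow hNR hε.le
  rw [← hX]
  have hSN : ((∑ n ∈ range (N + 1), (reps k m θ n).ncard ^ 2 : ℕ) : ℝ) = S N := by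
    rw [hS]
  rw [hSN]
  rcases Nat.lt_or_ge N0 N with hlt | hge
  · -- large N
    obtain ⟨l, hl⟩ : ∃ l, l = Nat.clog (2 ^ k) N := ⟨_, rfl⟩
    have hb : 1 < 2 ^ k := Nat.one_lt_two_pow (by omega)
    have h1 : N ≤ (2 ^ k) ^ l := by
      rw [hl]
      exact Nat.le_pow_clog hb N
    have h2 : l0 ≤ l := by
      by_contra hcon
      push Not at hcon
      have : (2 ^ k) ^ l ≤ (2 ^ k) ^ l0 := Nat.pow_le_pow_right (by omega) hcon.le
      rw [← hN0] at this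
      omega
    have h3 : (2 ^ l) ^ k = (2 ^ k) ^ l := by rw [← pow_mul, ← pow_mul, mul_comm]
    have hl1 : 1 < N := by
      have : 1 ≤ N0 := by
        rw [hN0]
        exact Nat.one_le_pow _ _ (by positivity)
      omega
    have h4 : (2 ^ k) ^ l ≤ 2 ^ k * N := by
      have h5 := Nat.pow_pred_clog_lt_self hb hl1
      rw [← hl] at h5
      have h6 : 1 ≤ l := by
        by_contra hcon
        have : l = 0 := by omega
        rw [this, pow_zero] at h1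
        omega
      calc (2 ^ k) ^ l = 2 ^ k * (2 ^ k) ^ l.pred := by
            rw [← pow_succ']
            congr 1
            rw [Nat.pred_eq_sub_one]
            omega
        _ ≤ 2 ^ k * N := Nat.mul_le_mul_left _ h5.le
    have hR1 : (1 : ℝ) ≤ (2 : ℝ) ^ (1 / ((j : ℝ) + 1)) :=
      Real.one_le_rpow (by norm_num) (by positivity)
    have hR2 : (2 : ℝ) ^ (1 / ((j : ℝ) + 1)) ≤ (2 : ℝ) ^ ε :=
      Real.rpow_le_rpow_of_exponent_le (by norm_num) hj'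
    have h5 := mean_scale (k := k) (m := m) (l := l) (N := N) hk hε hCd1 hCd (θ := θ) hR1 hR2
      (by rw [h3]; exact h1) (hl0 l h2)
    rw [hSN] at h5
    obtain ⟨p, hp⟩ : ∃ p : ℝ, p = (2 : ℝ) ^ l := ⟨_, rfl⟩
    rw [← hp] at h5
    have hp1 : 1 ≤ p := by
      rw [hp]
      exact one_le_pow₀ (by norm_num)
    have hpk1 : (N : ℝ) ≤ p ^ k := by
      rw [hp]
      have : N ≤ (2 ^ l) ^ k := by rw [h3]; exact h1
      exact_mod_cast this
    have hpk2 : p ^ k ≤ 2 ^ k * N := by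
      rw [hp]
      have : (2 ^ l) ^ k ≤ 2 ^ k * N := by rw [h3]; exact h4
      exact_mod_cast this
    have e1 : (p ^ k) ^ ε ≤ ((2 : ℝ) ^ k) ^ ε * (N : ℝ) ^ ε := by
      rw [← Real.mul_rpow (by positivity) hN0'.le]
      exact Real.rpow_le_rpow (by positivity) hpk2 hε.le
    have epow : ∀ r : ℕ, p ^ r ≤ 2 ^ r * (N : ℝ) ^ ((r : ℝ) / k) := by
      intro r
      have e2 : p ≤ 2 * (N : ℝ) ^ (1 / (k : ℝ)) := by
        have e3 : p ^ k ≤ (2 * (N : ℝ) ^ (1 / (k : ℝ))) ^ k := by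
          rw [mul_pow, ← Real.rpow_natCast ((N : ℝ) ^ (1 / (k : ℝ))), ← Real.rpow_mul hN0'.le,
            one_div, inv_mul_cancel₀ hkR.ne', Real.rpow_one]
          exact hpk2
        exact (pow_le_pow_iff_left₀ (by linarith) (by positivity) (by omega)).1 e3
      calc p ^ r ≤ (2 * (N : ℝ) ^ (1 / (k : ℝ))) ^ r := pow_le_pow_left₀ (by linarith) e2 r
        _ = 2 ^ r * (N : ℝ) ^ ((r : ℝ) / k) := by
            rw [mul_pow, ← Real.rpow_natCast ((N : ℝ) ^ (1 / (k : ℝ))), ← Real.rpow_mul hN0'.le]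
            congr 2
            ring
    have e4 : Tg k m p ≤ (2 : ℝ) ^ (2 * m + 4) * X := by
      unfold Tg
      have e5 := epow (m + 2)
      have e6 := epow (2 * m + 4)
      have e7 : p ^ (2 * m + 4) / p ^ k ≤ 2 ^ (2 * m + 4) * (N : ℝ) ^ (2 * ((m : ℝ) + 2) / k - 1) := by
        have e8 : p ^ (2 * m + 4) / p ^ k ≤
            (2 ^ (2 * m + 4) * (N : ℝ) ^ (((2 * m + 4 : ℕ) : ℝ) / k)) / N :=
          div_le_div₀ (by positivity) e6 hN0' hpk1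
        refine e8.trans (le_of_eq ?_)
        rw [Real.rpow_sub hN0', Real.rpow_one]
        have e9 : ((2 * m + 4 : ℕ) : ℝ) / k = 2 * ((m : ℝ) + 2) / k := by
          push_cast
          ring
        rw [e9]
        ring
      have e8 : (2 : ℝ) ^ (m + 2) ≤ (2 : ℝ) ^ (2 * m + 4) :=
        pow_le_pow_right₀ (by norm_num) (by omega)
      have e9 : ((m + 2 : ℕ) : ℝ) / k = ((m : ℝ) + 2) / k := by
        push_cast
        ring
      rw [e9] at e5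
      have e10 : 2 ^ (m + 2) * (N : ℝ) ^ (((m : ℝ) + 2) / k) ≤
          2 ^ (2 * m + 4) * (N : ℝ) ^ (((m : ℝ) + 2) / k) :=
        mul_le_mul_of_nonneg_right e8 (by positivity)
      rw [hX, mul_add]
      exact add_le_add (e5.trans e10) e7
    have hTp : 0 ≤ Tg k m p := by
      have := Tg_pos (k := k) (m := m) hp1
      linarith
    have h6 : S N ≤ C1 * (N : ℝ) ^ ε * X := by
      refine h5.trans ?_
      calc (2 ^ m * (3 * Cd) + 1) * (p ^ k) ^ ε * Tg k m p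
          ≤ (2 ^ m * (3 * Cd) + 1) * (((2 : ℝ) ^ k) ^ ε * (N : ℝ) ^ ε) *
            ((2 : ℝ) ^ (2 * m + 4) * X) := by
            refine mul_le_mul (mul_le_mul_of_nonneg_left e1 (by positivity)) e4 hTp (by positivity)
        _ = C1 * (N : ℝ) ^ ε * X := by
            rw [hC1]
            ring
    refine h6.trans ?_
    rw [mul_assoc, mul_assoc]
    refine mul_le_mul_of_nonneg_right ?_ (by positivity)
    linarith [hS0 N0]
  · -- small N
    have h1 := hSmono N N0 hge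
    have h2 : 1 ≤ (N : ℝ) ^ ε * X := one_le_mul_of_one_le_of_one_le hNε hX1
    calc S N ≤ (C1 + S N0) * 1 := by linarith
      _ ≤ (C1 + S N0) * ((N : ℝ) ^ ε * X) :=
          mul_le_mul_of_nonneg_left h2 (by linarith [hS0 N0])
      _ = _ := by ring

end KShift
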