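import Mathlib

/-! Two exact powers: the divided difference of a power, and the number of solutions of
(z - w) (g(z, w) + a) = M. -/

namespace KTwo

open Finset

/-- (z^k - w^k) / (z - w) -/
def g (k : ℕ) (z w : ℤ) : ℤ := ∑ j ∈ range k, z ^ j * w ^ (k - 1 - j)

lemma g_mul (k : ℕ) (z w : ℤ) : (z - w) * g k z w = z ^ k - w ^ k := by
  unfold g
  rw [mul_comm]
  exact (Commute.all z w).geom_sum₂_mul k

/-- the growth of the divided difference under a shift of both variables -/
lemma g_shift (k : ℕ) (hk : 2 ≤ k) {z w s : ℤ} (hz : 0 ≤ z) (hw : 0 ≤ w) (hs : 0 ≤ s) :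
    g k z w + s * (max z w) ^ (k - 2) ≤ g k (z + s) (w + s) := by
  have hpow : ∀ (u : ℤ), 0 ≤ u → ∀ n : ℕ, u ^ n ≤ (u + s) ^ n := fun u hu n =>
    pow_le_pow_left₀ hu (by linarith) n
  have hpow2 : ∀ (u : ℤ), 0 ≤ u → u ^ (k - 1) + s * u ^ (k - 2) ≤ (u + s) ^ (k - 1) := by
    intro u hu
    obtain ⟨n, rfl⟩ : ∃ n, k = n + 2 := ⟨k - 2, by omega⟩
    have h1 : n + 2 - 1 = n + 1 := by omega
    have h2 : n + 2 - 2 = n := by omega
    rw [h1, h2, pow_succ, pow_succ]
    have h3 := hpow u hu n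
    have h4 : 0 ≤ u ^ n := pow_nonneg hu n
    nlinarith [mul_le_mul_of_nonneg_right h3 (show (0 : ℤ) ≤ u + s by linarith)]
  have hterm : ∀ j ∈ range k, z ^ j * w ^ (k - 1 - j) ≤ (z + s) ^ j * (w + s) ^ (k - 1 - j) := by
    intro j _
    exact mul_le_mul (hpow z hz j) (hpow w hw _) (pow_nonneg hw _) (pow_nonneg (by linarith) _)
  rcases le_total z w with h | h
  · rw [max_eq_right h]
    unfold g
    have h0 : 0 ∈ range k := mem_range.2 (by omega)
    rw [← add_sum_erase _ _ h0, ← add_sum_erase (range k) (fun j => (z + s) ^ j * (w + s) ^ (k - 1 - j)) h0]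
    have h1 := sum_le_sum fun j (hj : j ∈ (range k).erase 0) => hterm j (mem_of_mem_erase hj)
    have h2 := hpow2 w hw
    simp only [pow_zero, one_mul, Nat.sub_zero] at h1 ⊢
    linarith
  · rw [max_eq_left h]
    unfold g
    have h0 : k - 1 ∈ range k := mem_range.2 (by omega)
    rw [← add_sum_erase _ _ h0, ← add_sum_erase (range k) (fun j => (z + s) ^ j * (w + s) ^ (k - 1 - j)) h0]
    have h1 := sum_le_sum fun j (hj : j ∈ (range k).erase (k - 1)) => hterm j (mem_of_mem_erase hj)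
    have h2 := hpow2 z hz
    simp only [Nat.sub_self, pow_zero, mul_one] at h1 ⊢
    linarith

lemma g_ge (k : ℕ) (hk : 1 ≤ k) {z w : ℤ} (hz : 0 ≤ z) (hw : 0 ≤ w) :
    (max z w) ^ (k - 1) ≤ g k z w := by
  have hterm : ∀ j ∈ range k, 0 ≤ z ^ j * w ^ (k - 1 - j) := fun j _ =>
    mul_nonneg (pow_nonneg hz j) (pow_nonneg hw _)
  unfold g
  rcases le_total z w with h | h
  · rw [max_eq_right h]
    have h0 : 0 ∈ range k := mem_range.2 (by omega)
    have := single_le_sum hterm h0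
    simpa using this
  · rw [max_eq_left h]
    have h0 : k - 1 ∈ range k := mem_range.2 (by omega)
    have := single_le_sum hterm h0
    simpa using this

lemma g_le (k : ℕ) {z w Y : ℤ} (hz : 0 ≤ z) (hw : 0 ≤ w) (hzY : z ≤ Y) (hwY : w ≤ Y) :
    g k z w ≤ k * Y ^ (k - 1) := by
  have hY : 0 ≤ Y := hz.trans hzY
  unfold g
  calc ∑ j ∈ range k, z ^ j * w ^ (k - 1 - j) ≤ ∑ j ∈ range k, Y ^ (k - 1) := by
        refine sum_le_sum fun j hj => ?_
        have hj' : j < k := mem_range.1 hj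
        have h1 : Y ^ (k - 1) = Y ^ j * Y ^ (k - 1 - j) := by
          rw [← pow_add]
          congr 1
          omega
        rw [h1]
        exact mul_le_mul (pow_le_pow_left₀ hz hzY j) (pow_le_pow_left₀ hw hwY _) (pow_nonneg hw _)
          (pow_nonneg hY _)
    _ = k * Y ^ (k - 1) := by rw [sum_const, card_range, nsmul_eq_mul]

end KTwo
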