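import Pool.Agent.Lib.MP_df17e9_nt.TxA

/-! Two exact powers: the number of solutions of (z - w) (g(z, w) + a) = M, of
x1^k + x2^k = y1^k + y2^k, and of |x1^3 + x2^3 - y1^3 - y2^3| ≤ W. -/

namespace KTwo

open Finset

/-- the divisors of both signs -/
def sdiv (n : ℤ) : Finset ℤ :=
  (n.natAbs.divisors.image (fun d : ℕ => (d : ℤ))) ∪
    (n.natAbs.divisors.image (fun d : ℕ => -(d : ℤ)))

lemma mem_sdiv {n u : ℤ} (hn : n ≠ 0) (hu : u ∣ n) : u ∈ sdiv n := by
  unfold sdiv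
  have h1 : u.natAbs ∈ n.natAbs.divisors := by
    rw [Nat.mem_divisors]
    exact ⟨Int.natAbs_dvd_natAbs.2 hu, Int.natAbs_ne_zero.2 hn⟩
  rw [mem_union, mem_image, mem_image]
  rcases Int.natAbs_eq u with h | h
  · exact Or.inl ⟨u.natAbs, h1, h.symm⟩
  · exact Or.inr ⟨u.natAbs, h1, h.symm⟩

lemma card_sdiv (n : ℤ) : (sdiv n).card ≤ 2 * n.natAbs.divisors.card := by
  unfold sdiv
  refine (card_union_le _ _).trans ?_
  rw [two_mul]
  exact Nat.add_le_add card_image_le card_image_le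

lemma card_le_of_diam {W : Finset ℤ} {n : ℕ} (h : ∀ u ∈ W, ∀ v ∈ W, u ≤ v → v - u ≤ n) :
    W.card ≤ n + 1 := by
  rcases W.eq_empty_or_nonempty with rfl | hW
  · simp
  · have h1 : W ⊆ Icc (W.min' hW) (W.min' hW + n) := by
      intro v hv
      rw [mem_Icc]
      have h2 := W.min'_le v hv
      have h3 := h _ (W.min'_mem hW) v hv h2
      exact ⟨h2, by linarith⟩
    refine (card_le_card h1).trans (le_of_eq ?_)
    rw [Int.card_Icc]
    omega

/-- the solutions with given difference are determined by w -/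
lemma fib_inj {k : ℕ} {M D : ℤ} (hM : M ≠ 0) {z w a z' w' a' : ℤ} (h1 : z - w = D)
    (h2 : (z - w) * (g k z w + a) = M) (h1' : z' - w' = D)
    (h2' : (z' - w') * (g k z' w' + a') = M) : g k z w + a = g k z' w' + a' := by
  have hD : D ≠ 0 := by
    rintro rfl
    rw [h1, zero_mul] at h2
    exact hM h2.symm
  rw [h1] at h2
  rw [h1'] at h2'
  exact mul_left_cancel₀ hD (h2.trans h2'.symm)

theorem fib_le {k : ℕ} {M : ℤ} (hM : M ≠ 0) (n : ℕ) (S : Finset (ℤ × ℤ × ℤ))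
    (hS : ∀ p ∈ S, (p.1 - p.2.1) * (g k p.1 p.2.1 + p.2.2) = M)
    (hn : ∀ D : ℤ, ((S.filter fun p => p.1 - p.2.1 = D).image fun p => p.2.1).card ≤ n) :
    S.card ≤ n * (2 * M.natAbs.divisors.card) := by
  have h1 : S.card ≤ n * (S.image fun p => p.1 - p.2.1).card := by
    refine card_le_mul_card_image S n fun D _ => ?_
    refine le_trans (le_of_eq ?_) (hn D)
    symm
    refine card_image_of_injOn ?_
    rintro ⟨z, w, a⟩ hp ⟨z', w', a'⟩ hp' h
    rw [coe_filter, Set.mem_setOf_eq] at hp hp'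
    have h2 : w = w' := h
    have h3 : z - w = D := hp.2
    have h4 : z' - w' = D := hp'.2
    have h5 := fib_inj hM h3 (hS _ hp.1) h4 (hS _ hp'.1)
    have h6 : z = z' := by linarith
    subst h2
    subst h6
    have h7 : a = a' := by linarith
    rw [h7]
  refine h1.trans (Nat.mul_le_mul_left n ?_)
  refine (card_le_card fun D hD => ?_).trans (card_sdiv M)
  obtain ⟨p, hp, rfl⟩ := mem_image.1 hD
  exact mem_sdiv hM ⟨_, (hS p hp).symm⟩

/-- the number of solutions in a dyadic range -/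
theorem fib_dyadic {k : ℕ} (hk : 2 ≤ k) {M : ℤ} (hM : M ≠ 0) {Z H : ℕ} (hZ : 1 ≤ Z) (b : ℤ)
    (S : Finset (ℤ × ℤ × ℤ))
    (hS : ∀ p ∈ S, 0 < p.1 ∧ 0 < p.2.1 ∧ (Z : ℤ) ≤ max p.1 p.2.1 ∧ max p.1 p.2.1 ≤ 2 * Z ∧
      |p.2.2 - b| ≤ H ∧ (p.1 - p.2.1) * (g k p.1 p.2.1 + p.2.2) = M) :
    S.card ≤ min (2 * Z) (2 * H / Z ^ (k - 2) + 1) * (2 * M.natAbs.divisors.card) := by
  refine fib_le hM _ S (fun p hp => (hS p hp).2.2.2.2.2) fun D => le_min ?_ ?_
  · have h1 : ((S.filter fun p => p.1 - p.2.1 = D).image fun p => p.2.1) ⊆ Icc 1 (2 * (Z : ℤ)) := by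
      intro w hw
      obtain ⟨p, hp, rfl⟩ := mem_image.1 hw
      have h2 := hS p (mem_filter.1 hp).1
      rw [mem_Icc]
      exact ⟨h2.2.1, (le_max_right _ _).trans h2.2.2.2.1⟩
    refine (card_le_card h1).trans (le_of_eq ?_)
    rw [Int.card_Icc]
    omega
  · refine card_le_of_diam fun u hu v hv huv => ?_
    obtain ⟨p, hp, rfl⟩ := mem_image.1 hu
    obtain ⟨q, hq, rfl⟩ := mem_image.1 hv
    rw [mem_filter] at hp hq
    have h1 := hS p hp.1
    have h2 := hS q hq.1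
    have h3 := fib_inj hM hp.2 h1.2.2.2.2.2 hq.2 h2.2.2.2.2.2
    obtain ⟨s, hs⟩ : ∃ s, s = q.2.1 - p.2.1 := ⟨_, rfl⟩
    have hs0 : 0 ≤ s := by rw [hs]; linarith
    have h4 := g_shift k hk h1.1.le h1.2.1.le hs0
    have h5 : p.1 + s = q.1 := by
      have e1 := hp.2
      have e2 := hq.2
      rw [hs]
      linarith
    have h6 : p.2.1 + s = q.2.1 := by
      rw [hs]
      ring
    rw [h5, h6] at h4
    have h7 : s * (Z : ℤ) ^ (k - 2) ≤ 2 * H := by
      have h8 : (Z : ℤ) ^ (k - 2) ≤ (max p.1 p.2.1) ^ (k - 2) :=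
        pow_le_pow_left₀ (by positivity) h1.2.2.1 _
      have h9 := mul_le_mul_of_nonneg_left h8 hs0
      have h10 := (abs_le.1 h1.2.2.2.2.1).2
      have h11 := (abs_le.1 h2.2.2.2.2.1).1
      linarith
    rw [← hs]
    have h8 : s.toNat ≤ 2 * H / Z ^ (k - 2) := by
      rw [Nat.le_div_iff_mul_le (by positivity)]
      have h9 : ((s.toNat * Z ^ (k - 2) : ℕ) : ℤ) ≤ ((2 * H : ℕ) : ℤ) := by
        push_cast
        rw [Int.toNat_of_nonneg hs0]
        exact h7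
      exact_mod_cast h9
    have h9 : s = (s.toNat : ℤ) := (Int.toNat_of_nonneg hs0).symm
    rw [h9]
    exact_mod_cast h8

/-- the number of pairs in a dyadic range with g(z, w) close to a given number -/
theorem zero_dyadic {k : ℕ} (hk : 2 ≤ k) {Z H : ℕ} (hZ : 1 ≤ Z) (b : ℤ) (S : Finset (ℤ × ℤ))
    (hS : ∀ p ∈ S, 0 < p.1 ∧ 0 < p.2 ∧ (Z : ℤ) ≤ max p.1 p.2 ∧ max p.1 p.2 ≤ 2 * Z ∧
      |g k p.1 p.2 + b| ≤ H) :
    S.card ≤ (5 * Z) * (2 * H / Z ^ (k - 2) + 1) := by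
  classical
  have h1 : S.card ≤ (2 * H / Z ^ (k - 2) + 1) * (S.image fun p => p.1 - p.2).card := by
    refine card_le_mul_card_image S _ fun D _ => ?_
    have h2 : (S.filter fun p => p.1 - p.2 = D).card =
        ((S.filter fun p => p.1 - p.2 = D).image fun p => p.2).card := by
      symm
      refine card_image_of_injOn ?_
      rintro ⟨z, w⟩ hp ⟨z', w'⟩ hp' hh
      rw [coe_filter, Set.mem_setOf_eq] at hp hp'
      have h3 : w = w' := hh
      have h4 : z - w = D := hp.2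
      have h5 : z' - w' = D := hp'.2
      exact Prod.ext (show z = z' by linarith) h3
    rw [h2]
    refine card_le_of_diam fun u hu v hv huv => ?_
    obtain ⟨p, hp, rfl⟩ := mem_image.1 hu
    obtain ⟨q, hq, rfl⟩ := mem_image.1 hv
    rw [mem_filter] at hp hq
    have h1 := hS p hp.1
    have h2 := hS q hq.1
    obtain ⟨s, hs⟩ : ∃ s, s = q.2 - p.2 := ⟨_, rfl⟩
    have hs0 : 0 ≤ s := by rw [hs]; linarith
    have h4 := g_shift k hk h1.1.le h1.2.1.le hs0
    have h5 : p.1 + s = q.1 := by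
      have e1 := hp.2
      have e2 := hq.2
      rw [hs]
      linarith
    have h6 : p.2 + s = q.2 := by
      rw [hs]
      ring
    rw [h5, h6] at h4
    have h7 : s * (Z : ℤ) ^ (k - 2) ≤ 2 * H := by
      have h8 : (Z : ℤ) ^ (k - 2) ≤ (max p.1 p.2) ^ (k - 2) :=
        pow_le_pow_left₀ (by positivity) h1.2.2.1 _
      have h9 := mul_le_mul_of_nonneg_left h8 hs0
      have h10 := (abs_le.1 h1.2.2.2.2).1
      have h11 := (abs_le.1 h2.2.2.2.2).2
      linarith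
    rw [← hs]
    have h8 : s.toNat ≤ 2 * H / Z ^ (k - 2) := by
      rw [Nat.le_div_iff_mul_le (by positivity)]
      have h9 : ((s.toNat * Z ^ (k - 2) : ℕ) : ℤ) ≤ ((2 * H : ℕ) : ℤ) := by
        push_cast
        rw [Int.toNat_of_nonneg hs0]
        exact h7
      exact_mod_cast h9
    have h9 : s = (s.toNat : ℤ) := (Int.toNat_of_nonneg hs0).symm
    rw [h9]
    exact_mod_cast h8
  refine h1.trans ?_
  rw [mul_comm]
  refine Nat.mul_le_mul_right _ ?_
  have h2 : (S.image fun p => p.1 - p.2) ⊆ Icc (-(2 * (Z : ℤ))) (2 * Z) := by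
    intro D hD
    obtain ⟨p, hp, rfl⟩ := mem_image.1 hD
    have h3 := hS p hp
    have h4 := (le_max_left p.1 p.2).trans h3.2.2.2.1
    have h5 := (le_max_right p.1 p.2).trans h3.2.2.2.1
    rw [mem_Icc]
    exact ⟨by linarith, by linarith⟩
  refine (card_le_card h2).trans ?_
  rw [Int.card_Icc]
  omega

/-- the number of solutions of z^k - w^k = M ≠ 0 in positive integers -/
theorem pow_sub_le {k : ℕ} (hk : 2 ≤ k) {M : ℤ} (hM : M ≠ 0) (S : Finset (ℤ × ℤ))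
    (hS : ∀ p ∈ S, 0 < p.1 ∧ 0 < p.2 ∧ p.1 ^ k - p.2 ^ k = M) :
    S.card ≤ 2 * M.natAbs.divisors.card := by
  classical
  obtain ⟨S', hS'⟩ : ∃ S' : Finset (ℤ × ℤ × ℤ), S' = S.image fun p => (p.1, p.2, (0 : ℤ)) :=
    ⟨_, rfl⟩
  have h1 : S.card = S'.card := by
    rw [hS']
    symm
    refine card_image_of_injective _ ?_
    rintro ⟨a, b⟩ ⟨c, d⟩ h
    simp only [Prod.mk.injEq] at h
    rw [h.1, h.2.1]
  have hp' : ∀ p ∈ S', 0 < p.1 ∧ 0 < p.2.1 ∧ p.2.2 = 0 ∧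
      (p.1 - p.2.1) * (g k p.1 p.2.1 + p.2.2) = M := by
    intro p hp
    rw [hS'] at hp
    obtain ⟨q, hq, rfl⟩ := mem_image.1 hp
    have h2 := hS q hq
    refine ⟨h2.1, h2.2.1, rfl, ?_⟩
    show (q.1 - q.2) * (g k q.1 q.2 + 0) = M
    rw [add_zero, g_mul]
    exact h2.2.2
  rw [h1]
  have h2 := fib_le (k := k) hM 1 S' (fun p hp => (hp' p hp).2.2.2) fun D => ?_
  · rwa [one_mul] at h2
  · refine card_le_of_diam (n := 0) fun u hu v hv huv => ?_
    obtain ⟨p, hp, rfl⟩ := mem_image.1 hu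
    obtain ⟨q, hq, rfl⟩ := mem_image.1 hv
    rw [mem_filter] at hp hq
    have h1 := hp' p hp.1
    have h2 := hp' q hq.1
    have h3 := fib_inj hM hp.2 h1.2.2.2 hq.2 h2.2.2.2
    rw [h1.2.2.1, h2.2.2.1, add_zero, add_zero] at h3
    obtain ⟨s, hs⟩ : ∃ s, s = q.2.1 - p.2.1 := ⟨_, rfl⟩
    have hs0 : 0 ≤ s := by rw [hs]; linarith
    have h4 := g_shift k hk h1.1.le h1.2.1.le hs0
    have h5 : p.1 + s = q.1 := by
      have e1 := hp.2
      have e2 := hq.2
      rw [hs]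
      linarith
    have h6 : p.2.1 + s = q.2.1 := by
      rw [hs]
      ring
    rw [h5, h6, ← h3] at h4
    have h7 : 1 ≤ (max p.1 p.2.1) ^ (k - 2) :=
      one_le_pow₀ (Int.add_one_le_of_lt (lt_max_of_lt_left h1.1))
    have h8 : s ≤ s * (max p.1 p.2.1) ^ (k - 2) := le_mul_of_one_le_right hs0 h7
    rw [← hs]
    push_cast
    linarith

end KTwo
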