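import Pool.Agent.Lib.MP_df17e9_nt.TxB

/-! Two exact powers: quadruples. -/

namespace KTwo

open Finset

/-- the quadruples with coordinates in [1, P] -/
noncomputable def quads (P : ℕ) : Finset (Fin 4 → ℤ) := Fintype.piFinset fun _ => Icc 1 (P : ℤ)

/-- x1^k + x2^k - y1^k - y2^k -/
def E (k : ℕ) (q : Fin 4 → ℤ) : ℤ := q 0 ^ k + q 1 ^ k - q 2 ^ k - q 3 ^ k

lemma card_quads (P : ℕ) : (quads P).card = P ^ 4 := by
  unfold quads
  rw [Fintype.card_piFinset]
  simp

/-- the number of quadruples with E = 0 -/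
theorem card_quads_zero {k : ℕ} (hk : 2 ≤ k) {P d : ℕ}
    (hd : ∀ M : ℤ, M ≠ 0 → |M| ≤ (P : ℤ) ^ k → M.natAbs.divisors.card ≤ d) :
    ((quads P).filter fun q => E k q = 0).card ≤ P ^ 2 * (1 + 2 * d) := by
  classical
  -- the fibres over (x2, y2)
  have h1 : ((quads P).filter fun q => E k q = 0).card ≤
      ∑ p ∈ (Icc 1 (P : ℤ)) ×ˢ (Icc 1 (P : ℤ)),
        (((quads P).filter fun q => E k q = 0).filter fun q => (q 1, q 3) = p).card := by
    refine le_of_eq (card_eq_sum_card_fiberwise fun q hq => ?_)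
    rw [coe_filter, Set.mem_ofPred_eq] at hq
    have h2 := Fintype.mem_piFinset.1 hq.1
    exact mem_coe.2 (mem_product.2 ⟨h2 1, h2 3⟩)
  have h2 : ∀ p ∈ (Icc 1 (P : ℤ)) ×ˢ (Icc 1 (P : ℤ)),
      (((quads P).filter fun q => E k q = 0).filter fun q => (q 1, q 3) = p).card ≤
        (if p.1 = p.2 then P else 0) + 2 * d := by
    rintro ⟨u, v⟩ hp
    rw [mem_product, mem_Icc, mem_Icc] at hp
    obtain ⟨⟨hu1, hu2⟩, hv1, hv2⟩ := hp
    dsimp only at hu1 hu2 hv1 hv2 ⊢
    obtain ⟨S, hS⟩ : ∃ S : Finset (ℤ × ℤ), S = (((quads P).filter fun q => E k q = 0).filter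
      fun q => (q 1, q 3) = (u, v)).image fun q => (q 0, q 2) := ⟨_, rfl⟩
    have hcard : (((quads P).filter fun q => E k q = 0).filter fun q => (q 1, q 3) = (u, v)).card =
        S.card := by
      rw [hS]
      symm
      refine card_image_of_injOn fun q hq q' hq' h => ?_
      rw [coe_filter, Set.mem_ofPred_eq] at hq hq'
      have e1 := hq.2
      have e2 := hq'.2
      simp only [Prod.mk.injEq] at e1 e2 h
      funext i
      fin_cases i
      · exact h.1
      · exact e1.1.trans e2.1.symm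
      · exact h.2
      · exact e1.2.trans e2.2.symm
    have hmem : ∀ p ∈ S, 0 < p.1 ∧ 0 < p.2 ∧ p.1 ≤ P ∧ p.1 ^ k - p.2 ^ k = v ^ k - u ^ k := by
      intro p hp
      rw [hS] at hp
      obtain ⟨q, hq, rfl⟩ := mem_image.1 hp
      rw [mem_filter, mem_filter] at hq
      obtain ⟨⟨h3, h4⟩, h5⟩ := hq
      have h6 := Fintype.mem_piFinset.1 h3
      have h7 := mem_Icc.1 (h6 0)
      have h8 := mem_Icc.1 (h6 2)
      simp only [Prod.mk.injEq] at h5
      unfold E at h4
      rw [h5.1, h5.2] at h4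
      exact ⟨by linarith, by linarith, h7.2, by linarith⟩
    rw [hcard]
    by_cases huv : u = v
    · rw [if_pos huv]
      subst huv
      have h3 : S ⊆ (Icc 1 (P : ℤ)).image fun z => (z, z) := by
        intro p hp
        have h4 := hmem p hp
        have h5 : p.1 = p.2 := by
          have h6 : p.1 ^ k = p.2 ^ k := by linarith [h4.2.2.2]
          exact (pow_left_inj₀ h4.1.le h4.2.1.le (by omega)).1 h6
        rw [mem_image]
        exact ⟨p.1, mem_Icc.2 ⟨by linarith [h4.1], h4.2.2.1⟩, Prod.ext rfl h5⟩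
      refine (card_le_card h3).trans (card_image_le.trans ?_)
      rw [Int.card_Icc]
      omega
    · rw [if_neg huv, zero_add]
      have hM : v ^ k - u ^ k ≠ 0 := by
        intro h
        have h6 : v ^ k = u ^ k := by linarith
        exact huv ((pow_left_inj₀ (by linarith) (by linarith) (by omega)).1 h6).symm
      have hMP : |v ^ k - u ^ k| ≤ (P : ℤ) ^ k := by
        have h3 : u ^ k ≤ (P : ℤ) ^ k := pow_le_pow_left₀ (by linarith) hu2 k
        have h4 : v ^ k ≤ (P : ℤ) ^ k := pow_le_pow_left₀ (by linarith) hv2 k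
        have h5 : 0 ≤ u ^ k := pow_nonneg (by linarith) k
        have h6 : 0 ≤ v ^ k := pow_nonneg (by linarith) k
        rw [abs_le]
        exact ⟨by linarith, by linarith⟩
      refine (pow_sub_le hk hM S fun p hp => ?_).trans (Nat.mul_le_mul_left 2 (hd _ hM hMP))
      have h4 := hmem p hp
      exact ⟨h4.1, h4.2.1, h4.2.2.2⟩
  refine h1.trans ((sum_le_sum h2).trans ?_)
  rw [sum_add_distrib, sum_const, sum_product]
  have h3 : ∀ u ∈ Icc 1 (P : ℤ), ∑ v ∈ Icc 1 (P : ℤ), (if u = v then P else 0) = P := by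
    intro u hu
    rw [sum_ite_eq, if_pos hu]
  rw [sum_congr rfl h3, sum_const, card_product, Int.card_Icc]
  have h4 : ((P : ℤ) + 1 - 1).toNat = P := by omega
  rw [h4, smul_eq_mul, smul_eq_mul]
  exact le_of_eq (by ring)

end KTwo
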