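import Pool.Agent.Lib.MP_df17e9_nt.TxC

/-! Two exact powers: quadruples of cubes. -/

namespace KTwo

open Finset

/-- increasing quadruples -/
lemma card_incr (P W : ℕ) (ε : Fin 4 → ℤ) (hε : ∀ i, |ε i| = 1) :
    ((quads P).filter fun p => Monotone p ∧ |∑ i, ε i * p i ^ 3| ≤ (W : ℤ)).card ≤
      P ^ 3 + 2 * W * P := by
  classical
  obtain ⟨S, hS⟩ : ∃ S : Finset (Fin 4 → ℤ),
    S = (quads P).filter fun p => Monotone p ∧ |∑ i, ε i * p i ^ 3| ≤ (W : ℤ) := ⟨_, rfl⟩
  rw [← hS]
  have hmem : ∀ p ∈ S, (∀ i, 1 ≤ p i ∧ p i ≤ P) ∧ Monotone p ∧ |∑ i, ε i * p i ^ 3| ≤ (W : ℤ) := by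
    intro p hp
    rw [hS, mem_filter] at hp
    exact ⟨fun i => mem_Icc.1 (Fintype.mem_piFinset.1 hp.1 i), hp.2⟩
  have h1 : S.card = ∑ u ∈ Icc 1 (P : ℤ), (S.filter fun p => p 2 = u).card :=
    card_eq_sum_card_fiberwise fun p hp => mem_coe.2 (mem_Icc.2 ((hmem p (mem_coe.1 hp)).1 2))
  have h2 : ∀ u ∈ Icc 1 (P : ℤ), (S.filter fun p => p 2 = u).card ≤ 2 * W + P ^ 2 := by
    intro u hu
    rw [mem_Icc] at hu
    obtain ⟨U, rfl⟩ : ∃ U : ℕ, u = U := ⟨u.toNat, by omega⟩
    have hU1 : 1 ≤ U := by omega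
    have hUP : U ≤ P := by omega
    have h3 : (S.filter fun p => p 2 = (U : ℤ)).card ≤ (2 * W / U ^ 2 + 1) *
        ((S.filter fun p => p 2 = (U : ℤ)).image fun p => (p 0, p 1)).card := by
      refine card_le_mul_card_image _ _ ?_
      rintro ⟨v, t⟩ _
      have h4 : (((S.filter fun p => p 2 = (U : ℤ)).filter fun p => (p 0, p 1) = (v, t)).image
          fun p => p 3).card = ((S.filter fun p => p 2 = (U : ℤ)).filter
            fun p => (p 0, p 1) = (v, t)).card := by
        refine card_image_of_injOn fun p hp p' hp' h => ?_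
        rw [coe_filter, Set.mem_ofPred_eq, mem_filter] at hp hp'
        have e1 := hp.2
        have e2 := hp'.2
        simp only [Prod.mk.injEq] at e1 e2
        funext i
        fin_cases i
        · exact e1.1.trans e2.1.symm
        · exact e1.2.trans e2.2.symm
        · exact hp.1.2.trans hp'.1.2.symm
        · exact h
      rw [← h4]
      refine card_le_of_diam fun a ha b hb hab => ?_
      obtain ⟨p, hp, rfl⟩ := mem_image.1 ha
      obtain ⟨p', hp', rfl⟩ := mem_image.1 hb
      rw [mem_filter, mem_filter] at hp hp'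
      have e1 := hp.2
      have e2 := hp'.2
      simp only [Prod.mk.injEq] at e1 e2
      have h5 := hmem p hp.1.1
      have h6 := hmem p' hp'.1.1
      have h7 := h5.2.2
      have h8 := h6.2.2
      rw [Fin.sum_univ_four, abs_le] at h7 h8
      rw [e1.1, e1.2, hp.1.2] at h7
      rw [e2.1, e2.2, hp'.1.2] at h8
      have h9 : (U : ℤ) ≤ p 3 := by
        rw [← hp.1.2]
        exact h5.2.1 (by decide)
      have h10 : p' 3 ^ 3 - p 3 ^ 3 ≤ 2 * W := by
        have h11 : ε 3 = 1 ∨ ε 3 = -1 := by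
          rcases abs_eq (zero_le_one' ℤ) |>.1 (hε 3) with h | h
          · exact Or.inl h
          · exact Or.inr h
        rcases h11 with h | h
        · rw [h] at h7 h8
          linarith
        · rw [h] at h7 h8
          linarith
      obtain ⟨s, hs⟩ : ∃ s, s = p' 3 - p 3 := ⟨_, rfl⟩
      have hs0 : 0 ≤ s := by rw [hs]; linarith
      have h12 : s * (U : ℤ) ^ 2 ≤ 2 * W := by
        refine le_trans ?_ h10
        have e : p' 3 ^ 3 - p 3 ^ 3 = s * (p' 3 ^ 2 + p' 3 * p 3 + p 3 ^ 2) := by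
          rw [hs]
          ring
        rw [e]
        refine mul_le_mul_of_nonneg_left ?_ hs0
        have e1 : (U : ℤ) ^ 2 ≤ p 3 ^ 2 := pow_le_pow_left₀ (by positivity) h9 2
        have e2 : 0 ≤ p 3 := le_trans (by positivity) h9
        have e3 : 0 ≤ p' 3 := e2.trans hab
        nlinarith [mul_nonneg e3 e2, sq_nonneg (p' 3)]
      rw [← hs]
      have h13 : s.toNat ≤ 2 * W / U ^ 2 := by
        rw [Nat.le_div_iff_mul_le (by positivity)]
        have h14 : ((s.toNat * U ^ 2 : ℕ) : ℤ) ≤ ((2 * W : ℕ) : ℤ) := by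
          push_cast
          rw [Int.toNat_of_nonneg hs0]
          exact h12
        exact_mod_cast h14
      have h14 : s = (s.toNat : ℤ) := (Int.toNat_of_nonneg hs0).symm
      rw [h14]
      exact_mod_cast h13
    have h4 : ((S.filter fun p => p 2 = (U : ℤ)).image fun p => (p 0, p 1)).card ≤ U ^ 2 := by
      have h5 : ((S.filter fun p => p 2 = (U : ℤ)).image fun p => (p 0, p 1)) ⊆
          (Icc 1 (U : ℤ)) ×ˢ (Icc 1 (U : ℤ)) := by
        intro x hx
        obtain ⟨p, hp, rfl⟩ := mem_image.1 hx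
        rw [mem_filter] at hp
        have h6 := hmem p hp.1
        rw [mem_product, mem_Icc, mem_Icc]
        refine ⟨⟨(h6.1 0).1, ?_⟩, (h6.1 1).1, ?_⟩
        · rw [← hp.2]
          exact h6.2.1 (by decide)
        · rw [← hp.2]
          exact h6.2.1 (by decide)
      refine (card_le_card h5).trans (le_of_eq ?_)
      rw [card_product, Int.card_Icc]
      have h6 : ((U : ℤ) + 1 - 1).toNat = U := by omega
      rw [h6]
      ring
    refine h3.trans ((Nat.mul_le_mul_left _ h4).trans ?_)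
    rw [add_mul, one_mul]
    exact Nat.add_le_add (Nat.div_mul_le_self _ _) (Nat.pow_le_pow_left hUP 2)
  rw [h1]
  refine (sum_le_card_nsmul _ _ _ h2).trans (le_of_eq ?_)
  rw [Int.card_Icc, smul_eq_mul]
  have h6 : ((P : ℤ) + 1 - 1).toNat = P := by omega
  rw [h6]
  ring

/-- the number of quadruples of cubes with |E| ≤ W -/
theorem card_quads_cube (P W : ℕ) :
    ((quads P).filter fun q => |E 3 q| ≤ (W : ℤ)).card ≤ 24 * (P ^ 3 + 2 * W * P) := by
  classical
  obtain ⟨e, he⟩ : ∃ e : Fin 4 → ℤ, e = ![1, 1, -1, -1] := ⟨_, rfl⟩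
  have he1 : ∀ i, |e i| = 1 := by
    intro i
    rw [he]
    fin_cases i <;> simp
  have hE : ∀ q : Fin 4 → ℤ, E 3 q = ∑ i, e i * q i ^ 3 := by
    intro q
    rw [Fin.sum_univ_four, he]
    unfold E
    simp
    ring
  have h1 : ((quads P).filter fun q => |E 3 q| ≤ (W : ℤ)) ⊆
      (univ : Finset (Equiv.Perm (Fin 4))).biUnion fun σ =>
        ((quads P).filter fun p => Monotone p ∧ |∑ i, e (σ i) * p i ^ 3| ≤ (W : ℤ)).image
          fun p => p ∘ σ.symm := by
    intro q hq
    rw [mem_filter] at hq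
    rw [mem_biUnion]
    refine ⟨Tuple.sort q, mem_univ _, ?_⟩
    rw [mem_image]
    refine ⟨q ∘ Tuple.sort q, ?_, ?_⟩
    · rw [mem_filter]
      refine ⟨?_, Tuple.monotone_sort q, ?_⟩
      · unfold quads
        rw [Fintype.mem_piFinset]
        intro i
        exact Fintype.mem_piFinset.1 hq.1 _
      · have h2 := hq.2
        rw [hE, ← Equiv.sum_comp (Tuple.sort q)] at h2
        exact h2
    · funext i
      simp
  refine (card_le_card h1).trans (card_biUnion_le.trans ?_)
  refine (sum_le_card_nsmul _ _ (P ^ 3 + 2 * W * P) fun σ _ => ?_).trans (le_of_eq ?_)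
  · exact card_image_le.trans (card_incr P W (fun i => e (σ i)) fun i => he1 _)
  · rw [card_univ, Fintype.card_perm, Fintype.card_fin, smul_eq_mul]
    rfl

end KTwo
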