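import Pool.Agent.Lib.MP_df17e9_nt.TxE

/-! Two exact powers: three numerical inequalities. -/

namespace KTwo

lemma numA {m P H Z R v : ℕ} (hm : 2 ≤ m) (hZ : 1 ≤ Z) (hZP : Z ≤ P) (hR : P ^ m ≤ R * H)
    (hR1 : 1 ≤ R) (hv : v ≤ P + 4 * Z ^ 2) :
    min (2 * Z) (2 * H / Z ^ m + 1) * (P ^ 4 * v ^ (m - 1)) ≤
      5 ^ m * 3 * R * (P ^ (m + 2) * (2 * H + 1)) := by
  obtain ⟨n, rfl⟩ : ∃ n, m = n + 2 := ⟨m - 2, by omega⟩
  have e1 : n + 2 - 1 = n + 1 := by omega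
  rw [e1]
  have hP : 1 ≤ P := hZ.trans hZP
  have h5 : (5 : ℕ) ^ (n + 1) ≤ 5 ^ (n + 2) := Nat.pow_le_pow_right (by norm_num) (by omega)
  rcases le_total (Z ^ 2) P with hc | hc
  · have h1 : v ≤ 5 * P := by omega
    calc min (2 * Z) (2 * H / Z ^ (n + 2) + 1) * (P ^ 4 * v ^ (n + 1))
        ≤ (2 * P) * (P ^ 4 * (5 * P) ^ (n + 1)) :=
          Nat.mul_le_mul ((min_le_left _ _).trans (Nat.mul_le_mul_left 2 hZP))
            (Nat.mul_le_mul_left _ (Nat.pow_le_pow_left h1 _))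
      _ = 5 ^ (n + 1) * (P ^ (n + 4) * (2 * P ^ 2)) := by ring
      _ ≤ 5 ^ (n + 2) * (P ^ (n + 4) * (2 * P ^ (n + 2))) :=
          Nat.mul_le_mul h5 (Nat.mul_le_mul_left _ (Nat.mul_le_mul_left _
            (Nat.pow_le_pow_right hP (by omega))))
      _ ≤ 5 ^ (n + 2) * (P ^ (n + 4) * (2 * (R * H))) :=
          Nat.mul_le_mul_left _ (Nat.mul_le_mul_left _ (Nat.mul_le_mul_left _ hR))
      _ = 5 ^ (n + 2) * 1 * R * (P ^ (n + 4) * (2 * H)) := by ring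
      _ ≤ 5 ^ (n + 2) * 3 * R * (P ^ (n + 2 + 2) * (2 * H + 1)) := by
          refine Nat.mul_le_mul (Nat.mul_le_mul_right _ (Nat.mul_le_mul_left _ (by norm_num)))
            (Nat.mul_le_mul_left _ (by omega))
  · have h1 : v ≤ 5 * Z ^ 2 := by omega
    have h2 : 2 * H / Z ^ (n + 2) * Z ^ (n + 2) ≤ 2 * H := Nat.div_mul_le_self _ _
    have h3 : Z ^ n ≤ P ^ n := Nat.pow_le_pow_left hZP _
    have h4 : Z ^ (n + 2) ≤ R * H := (Nat.pow_le_pow_left hZP _).trans hR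
    calc min (2 * Z) (2 * H / Z ^ (n + 2) + 1) * (P ^ 4 * v ^ (n + 1))
        ≤ (2 * H / Z ^ (n + 2) + 1) * (P ^ 4 * (5 * Z ^ 2) ^ (n + 1)) :=
          Nat.mul_le_mul (min_le_right _ _)
            (Nat.mul_le_mul_left _ (Nat.pow_le_pow_left h1 _))
      _ = 5 ^ (n + 1) * P ^ 4 * ((2 * H / Z ^ (n + 2) * Z ^ (n + 2) + Z ^ (n + 2)) * Z ^ n) := by
          ring
      _ ≤ 5 ^ (n + 2) * P ^ 4 * ((2 * H + R * H) * P ^ n) :=
          Nat.mul_le_mul (Nat.mul_le_mul_right _ h5) (Nat.mul_le_mul (Nat.add_le_add h2 h4) h3)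
      _ = 5 ^ (n + 2) * (P ^ (n + 4) * (2 * H + R * H)) := by ring
      _ ≤ 5 ^ (n + 2) * (P ^ (n + 4) * (3 * R * (2 * H + 1))) := by
          refine Nat.mul_le_mul_left _ (Nat.mul_le_mul_left _ ?_)
          nlinarith [Nat.zero_le H, Nat.zero_le (R * H)]
      _ = 5 ^ (n + 2) * 3 * R * (P ^ (n + 2 + 2) * (2 * H + 1)) := by ring

lemma numB {P H Z R B : ℕ} (hZP : Z ≤ P) (hR : P ≤ R * H) (hR1 : 1 ≤ R) (hB : B ≤ 2 * P ^ 2) :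
    min (2 * Z) (2 * H / Z + 1) * (24 * (P ^ 3 + 2 * (24 * Z ^ 3 + 2 * Z * B) * P)) ≤
      3000 * R * (P ^ 3 * (2 * H + 1)) := by
  obtain ⟨μ, hμ⟩ : ∃ μ, μ = min (2 * Z) (2 * H / Z + 1) := ⟨_, rfl⟩
  rw [← hμ]
  have hμ2 : μ ≤ 2 * H / Z + 1 := hμ ▸ min_le_right _ _
  have hμ3 : μ ≤ 2 * H + 1 := hμ2.trans (Nat.add_le_add_right (Nat.div_le_self _ _) 1)
  have hμ4 : μ * Z ≤ 2 * H + Z := by
    refine (Nat.mul_le_mul_right Z hμ2).trans ?_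
    rw [add_mul, one_mul]
    exact Nat.add_le_add_right (Nat.div_mul_le_self _ _) _
  have hZ2 : Z ^ 2 ≤ P ^ 2 := Nat.pow_le_pow_left hZP 2
  have hμ5 : μ * Z ≤ 2 * H + R * H := hμ4.trans (Nat.add_le_add_left (hZP.trans hR) _)
  have hμ6 : 2 * H + R * H ≤ 2 * (R * (2 * H + 1)) := by
    nlinarith [Nat.zero_le H, Nat.zero_le (R * H)]
  have h1 : μ * (24 * P ^ 3) ≤ 24 * (R * (P ^ 3 * (2 * H + 1))) := by
    calc μ * (24 * P ^ 3) ≤ (2 * H + 1) * (24 * P ^ 3) := Nat.mul_le_mul_right _ hμ3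
      _ = 24 * (1 * (P ^ 3 * (2 * H + 1))) := by ring
      _ ≤ 24 * (R * (P ^ 3 * (2 * H + 1))) :=
          Nat.mul_le_mul_left _ (Nat.mul_le_mul_right _ hR1)
  have h2 : μ * (24 * (2 * (24 * Z ^ 3) * P)) ≤ 1152 * (2 * (R * (P ^ 3 * (2 * H + 1)))) := by
    calc μ * (24 * (2 * (24 * Z ^ 3) * P)) = 1152 * (Z ^ 2 * P * (μ * Z)) := by ring
      _ ≤ 1152 * (P ^ 2 * P * (2 * (R * (2 * H + 1)))) :=
          Nat.mul_le_mul_left _ (Nat.mul_le_mul (Nat.mul_le_mul_right _ hZ2) (hμ5.trans hμ6))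
      _ = 1152 * (2 * (R * (P ^ 3 * (2 * H + 1)))) := by ring
  have h3 : μ * (24 * (2 * (2 * Z * B) * P)) ≤ 192 * (2 * (R * (P ^ 3 * (2 * H + 1)))) := by
    calc μ * (24 * (2 * (2 * Z * B) * P)) = 96 * (B * P * (μ * Z)) := by ring
      _ ≤ 96 * ((2 * P ^ 2) * P * (2 * (R * (2 * H + 1)))) :=
          Nat.mul_le_mul_left _ (Nat.mul_le_mul (Nat.mul_le_mul_right _ hB) (hμ5.trans hμ6))
      _ = 192 * (2 * (R * (P ^ 3 * (2 * H + 1)))) := by ring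
  calc μ * (24 * (P ^ 3 + 2 * (24 * Z ^ 3 + 2 * Z * B) * P)) =
        μ * (24 * P ^ 3) + μ * (24 * (2 * (24 * Z ^ 3) * P)) + μ * (24 * (2 * (2 * Z * B) * P)) := by
          ring
    _ ≤ 24 * (R * (P ^ 3 * (2 * H + 1))) + 1152 * (2 * (R * (P ^ 3 * (2 * H + 1)))) +
        192 * (2 * (R * (P ^ 3 * (2 * H + 1)))) := Nat.add_le_add (Nat.add_le_add h1 h2) h3
    _ ≤ 3000 * R * (P ^ 3 * (2 * H + 1)) := by
        have : 0 ≤ R * (P ^ 3 * (2 * H + 1)) := Nat.zero_le _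
        nlinarith

lemma numC {m P H Z R v : ℕ} (hm : 1 ≤ m) (hZ : 1 ≤ Z) (hZP : Z ≤ P) (hR : P ^ m ≤ R * H)
    (hR1 : 1 ≤ R) (hv : v ≤ P + 4 * Z ^ 2) :
    P ^ 3 * (((5 * Z) * (2 * H / Z ^ m + 1)) * v ^ (m - 1)) ≤
      5 ^ m * 3 * R * (P ^ (m + 2) * (2 * H + 1)) := by
  obtain ⟨n, rfl⟩ : ∃ n, m = n + 1 := ⟨m - 1, by omega⟩
  have e1 : n + 1 - 1 = n := by omega
  rw [e1]
  have h2 : 2 * H / Z ^ (n + 1) * Z ^ (n + 1) ≤ 2 * H := Nat.div_mul_le_self _ _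
  have h3 : 2 * H + R * H ≤ 3 * (R * (2 * H + 1)) := by
    nlinarith [Nat.zero_le H, Nat.zero_le (R * H)]
  rcases le_total (Z ^ 2) P with hc | hc
  · have h1 : v ≤ 5 * P := by omega
    have h4 : Z ≤ Z ^ (n + 1) := Nat.le_self_pow (by omega) Z
    have h5 : 2 * H / Z ^ (n + 1) * Z ≤ 2 * H := (Nat.mul_le_mul_left _ h4).trans h2
    have h6 : Z ≤ R * H := h4.trans ((Nat.pow_le_pow_left hZP _).trans hR)
    calc P ^ 3 * (((5 * Z) * (2 * H / Z ^ (n + 1) + 1)) * v ^ n)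
        ≤ P ^ 3 * (((5 * Z) * (2 * H / Z ^ (n + 1) + 1)) * (5 * P) ^ n) :=
          Nat.mul_le_mul_left _ (Nat.mul_le_mul_left _ (Nat.pow_le_pow_left h1 _))
      _ = 5 ^ (n + 1) * (P ^ (n + 3) * (2 * H / Z ^ (n + 1) * Z + Z)) := by ring
      _ ≤ 5 ^ (n + 1) * (P ^ (n + 3) * (3 * (R * (2 * H + 1)))) :=
          Nat.mul_le_mul_left _ (Nat.mul_le_mul_left _ ((Nat.add_le_add h5 h6).trans h3))
      _ = 5 ^ (n + 1) * 3 * R * (P ^ (n + 1 + 2) * (2 * H + 1)) := by ring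
  · have h1 : v ≤ 5 * Z ^ 2 := by omega
    have h4 : Z ^ n ≤ P ^ n := Nat.pow_le_pow_left hZP _
    have h6 : Z ^ (n + 1) ≤ R * H := (Nat.pow_le_pow_left hZP _).trans hR
    calc P ^ 3 * (((5 * Z) * (2 * H / Z ^ (n + 1) + 1)) * v ^ n)
        ≤ P ^ 3 * (((5 * Z) * (2 * H / Z ^ (n + 1) + 1)) * (5 * Z ^ 2) ^ n) :=
          Nat.mul_le_mul_left _ (Nat.mul_le_mul_left _ (Nat.pow_le_pow_left h1 _))
      _ = 5 ^ (n + 1) * (P ^ 3 * (Z ^ n * (2 * H / Z ^ (n + 1) * Z ^ (n + 1) + Z ^ (n + 1)))) := by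
          ring
      _ ≤ 5 ^ (n + 1) * (P ^ 3 * (P ^ n * (3 * (R * (2 * H + 1))))) :=
          Nat.mul_le_mul_left _ (Nat.mul_le_mul_left _ (Nat.mul_le_mul h4
            ((Nat.add_le_add h2 h6).trans h3)))
      _ = 5 ^ (n + 1) * 3 * R * (P ^ (n + 1 + 2) * (2 * H + 1)) := by ring

end KTwo
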