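import Pool.Agent.Lib.MP_df17e9_nt.TxF

/-! Two exact powers: the number of solutions, all coefficient vectors together. -/

namespace KTwo

open Finset

/-- all solutions -/
noncomputable def T (k m P H : ℕ) (b : Fin m → ℤ) :
    Finset ((Fin 4 → ℤ) × (Fin m → ℤ × ℤ) × (Fin m → ℤ)) :=
  (quads P ×ˢ ((Fintype.piFinset fun _ : Fin m => Icc 1 (P : ℤ) ×ˢ Icc 1 (P : ℤ)) ×ˢ
    (Fintype.piFinset fun j : Fin m => Icc (b j - (H : ℤ)) (b j + H)))).filter
      fun t => E k t.1 + ∑ j, h k (t.2.1 j) (t.2.2 j) = 0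

lemma mem_T {k m P H : ℕ} {b : Fin m → ℤ} {t : (Fin 4 → ℤ) × (Fin m → ℤ × ℤ) × (Fin m → ℤ)} :
    t ∈ T k m P H b ↔ t.1 ∈ quads P ∧ (∀ j, (1 ≤ (t.2.1 j).1 ∧ (t.2.1 j).1 ≤ P) ∧
      1 ≤ (t.2.1 j).2 ∧ (t.2.1 j).2 ≤ P) ∧ (∀ j, |t.2.2 j - b j| ≤ H) ∧
      E k t.1 + ∑ j, h k (t.2.1 j) (t.2.2 j) = 0 := by
  unfold T
  rw [mem_filter, mem_product, mem_product, Fintype.mem_piFinset, Fintype.mem_piFinset]
  have h1 : (∀ j, t.2.2 j ∈ Icc (b j - (H : ℤ)) (b j + H)) ↔ ∀ j, |t.2.2 j - b j| ≤ H := by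
    refine forall_congr' fun j => ?_
    rw [mem_Icc, abs_le]
    constructor
    · rintro ⟨h1, h2⟩
      exact ⟨by linarith, by linarith⟩
    · rintro ⟨h1, h2⟩
      exact ⟨by linarith, by linarith⟩
  rw [h1]
  simp only [mem_product, mem_Icc, and_assoc]

lemma T_zero {k m P H d : ℕ} {b : Fin m → ℤ} (hk : 2 ≤ k)
    (hd : ∀ M : ℤ, M ≠ 0 → |M| ≤ (P : ℤ) ^ k → M.natAbs.divisors.card ≤ d) :
    ((T k m P H b).filter fun t => ∀ j, (t.2.1 j).1 = (t.2.1 j).2).card ≤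
      (P ^ 2 * (1 + 2 * d)) * (P ^ m * (2 * H + 1) ^ m) := by
  classical
  obtain ⟨F, hF⟩ : ∃ F : ((Fin 4 → ℤ) × (Fin m → ℤ × ℤ) × (Fin m → ℤ)) →
    ((Fin 4 → ℤ) × (Fin m → ℤ) × (Fin m → ℤ)), F = fun t =>
      (t.1, (fun j => (t.2.1 j).1), t.2.2) := ⟨_, rfl⟩
  have hinj : Set.InjOn F ((T k m P H b).filter fun t => ∀ j, (t.2.1 j).1 = (t.2.1 j).2) := by
    rintro ⟨q, zw, a⟩ ht ⟨q', zw', a'⟩ ht' hh
    have h1 := (mem_filter.1 (mem_coe.1 ht)).2
    have h2 := (mem_filter.1 (mem_coe.1 ht')).2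
    rw [hF] at hh
    simp only [Prod.mk.injEq] at hh h1 h2 ⊢
    refine ⟨hh.1, ?_, hh.2.2⟩
    funext j
    have h3 : (zw j).1 = (zw' j).1 := congrFun hh.2.1 j
    exact Prod.ext h3 (by rw [← h1 j, ← h2 j, h3])
  rw [← card_image_of_injOn hinj]
  have h2 : ((T k m P H b).filter fun t => ∀ j, (t.2.1 j).1 = (t.2.1 j).2).image F ⊆
      ((quads P).filter fun q => E k q = 0) ×ˢ ((Fintype.piFinset fun _ : Fin m => Icc 1 (P : ℤ)) ×ˢ
        (Fintype.piFinset fun j : Fin m => Icc (b j - (H : ℤ)) (b j + H))) := by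
    intro y hy
    obtain ⟨t, ht, rfl⟩ := mem_image.1 hy
    rw [mem_filter, mem_T] at ht
    obtain ⟨⟨h3, h4, h5, h6⟩, h7⟩ := ht
    have h8 : ∑ j, h k (t.2.1 j) (t.2.2 j) = 0 := by
      refine sum_eq_zero fun j _ => ?_
      unfold h
      rw [h7 j, sub_self, zero_mul]
    rw [h8, add_zero] at h6
    rw [hF, mem_product, mem_product, mem_filter, Fintype.mem_piFinset, Fintype.mem_piFinset]
    refine ⟨⟨h3, h6⟩, fun j => mem_Icc.2 (h4 j).1, fun j => ?_⟩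
    have h9 := abs_le.1 (h5 j)
    rw [mem_Icc]
    exact ⟨by linarith, by linarith⟩
  refine (card_le_card h2).trans ?_
  rw [card_product, card_product, Fintype.card_piFinset, Fintype.card_piFinset]
  have h3 : ∀ j : Fin m, (b j + (H : ℤ) + 1 - (b j - (H : ℤ))).toNat = 2 * H + 1 := by
    intro j
    omega
  have h4 : ((P : ℤ) + 1 - 1).toNat = P := by omega
  simp only [Int.card_Icc, h3, h4, prod_const, card_univ, Fintype.card_fin]
  exact Nat.mul_le_mul_right _ (card_quads_zero hk hd)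

/-- the solutions with distinguished index i in the dyadic range l -/
noncomputable def Sl (k m P H : ℕ) (b : Fin m → ℤ) (i : Fin m) (l : ℕ) :
    Finset ((Fin 4 → ℤ) × (Fin m → ℤ × ℤ) × (Fin m → ℤ)) :=
  (T k m P H b).filter fun t => (t.2.1 i).1 ≠ (t.2.1 i).2 ∧
    (∀ j, (t.2.1 j).1 ≠ (t.2.1 j).2 →
      max (t.2.1 j).1 (t.2.1 j).2 ≤ max (t.2.1 i).1 (t.2.1 i).2) ∧
    ((2 ^ l : ℕ) : ℤ) ≤ max (t.2.1 i).1 (t.2.1 i).2 ∧
    max (t.2.1 i).1 (t.2.1 i).2 < 2 * ((2 ^ l : ℕ) : ℤ)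

lemma T_cover {k m P H : ℕ} {b : Fin m → ℤ} : T k m P H b ⊆
    ((T k m P H b).filter fun t => ∀ j, (t.2.1 j).1 = (t.2.1 j).2) ∪
      (univ : Finset (Fin m)).biUnion fun i => (range (Nat.log 2 P + 1)).biUnion fun l =>
        Sl k m P H b i l := by
  classical
  intro t ht
  rw [mem_union]
  by_cases h1 : ∀ j, (t.2.1 j).1 = (t.2.1 j).2
  · exact Or.inl (mem_filter.2 ⟨ht, h1⟩)
  · right
    push Not at h1
    obtain ⟨j0, hj0⟩ := h1
    obtain ⟨i, hi, hmax⟩ := exists_max_image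
      ((univ : Finset (Fin m)).filter fun j => (t.2.1 j).1 ≠ (t.2.1 j).2)
      (fun j => max (t.2.1 j).1 (t.2.1 j).2) ⟨j0, mem_filter.2 ⟨mem_univ _, hj0⟩⟩
    rw [mem_filter] at hi
    have h2 := (mem_T.1 ht).2.1 i
    have h3 : 1 ≤ max (t.2.1 i).1 (t.2.1 i).2 := h2.1.1.trans (le_max_left _ _)
    have h4 : max (t.2.1 i).1 (t.2.1 i).2 ≤ P := max_le h2.1.2 h2.2.2
    obtain ⟨x, hx⟩ : ∃ x : ℕ, max (t.2.1 i).1 (t.2.1 i).2 = x :=
      ⟨(max (t.2.1 i).1 (t.2.1 i).2).toNat, by omega⟩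
    rw [hx] at h3 h4
    have hx1 : 1 ≤ x := by exact_mod_cast h3
    have hxP : x ≤ P := by exact_mod_cast h4
    rw [mem_biUnion]
    refine ⟨i, mem_univ _, ?_⟩
    rw [mem_biUnion]
    refine ⟨Nat.log 2 x, mem_range.2 (Nat.lt_succ_of_le (Nat.log_mono_right hxP)), ?_⟩
    unfold Sl
    rw [mem_filter]
    refine ⟨ht, hi.2, fun j hj => hmax j (mem_filter.2 ⟨mem_univ _, hj⟩), ?_, ?_⟩
    · rw [hx]
      exact_mod_cast Nat.pow_log_le_self 2 (by omega)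
    · rw [hx]
      have h5 := Nat.lt_pow_succ_log_self (b := 2) (by norm_num) x
      rw [pow_succ, mul_comm] at h5
      exact_mod_cast h5

/-- the pairs allowed for the other indices -/
noncomputable def Vl (P Z : ℕ) : Finset (ℤ × ℤ) :=
  ((Icc 1 (P : ℤ)).image fun z => (z, z)) ∪ (Icc 1 (2 * (Z : ℤ)) ×ˢ Icc 1 (2 * (Z : ℤ)))

lemma card_Vl (P Z : ℕ) : (Vl P Z).card ≤ P + 4 * Z ^ 2 := by
  unfold Vl
  refine (card_union_le _ _).trans (Nat.add_le_add ?_ ?_)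
  · refine card_image_le.trans (le_of_eq ?_)
    rw [Int.card_Icc]
    omega
  · rw [card_product, Int.card_Icc]
    have h4 : (2 * (Z : ℤ) + 1 - 1).toNat = 2 * Z := by omega
    rw [h4]
    exact le_of_eq (by ring)

lemma h_abs_le {k : ℕ} {p : ℤ × ℤ} {a : ℤ} {Y B : ℕ} (h1 : 1 ≤ p.1) (h2 : p.1 ≤ Y)
    (h3 : 1 ≤ p.2) (h4 : p.2 ≤ Y) (ha : |a| ≤ B) :
    |h k p a| ≤ (Y : ℤ) * (k * (Y : ℤ) ^ (k - 1) + B) := by
  unfold h
  rw [abs_mul]
  refine mul_le_mul ?_ ?_ (abs_nonneg _) (by positivity)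
  · rw [abs_le]
    exact ⟨by linarith, by linarith⟩
  · have h5 := g_le k (z := p.1) (w := p.2) (Y := Y) (by linarith) (by linarith) h2 h4
    have h6 : 0 ≤ g k p.1 p.2 := by
      unfold g
      exact sum_nonneg fun j _ => mul_nonneg (pow_nonneg (by linarith) _) (pow_nonneg (by linarith) _)
    refine (abs_add_le _ _).trans (add_le_add ?_ ha)
    rwa [abs_of_nonneg h6]

theorem card_Sl {k m P H R d B : ℕ} (b : Fin m → ℤ) (hm : 1 ≤ m) (hkm : k = m + 2)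
    (hR : P ^ m ≤ R * H) (hR1 : 1 ≤ R) (hd1 : 1 ≤ d) (hb : ∀ j, |b j| + H ≤ B)
    (hB : B ≤ 2 * P ^ (k - 1))
    (hd : ∀ M : ℤ, M ≠ 0 → |M| ≤ (P : ℤ) * (k * (P : ℤ) ^ (k - 1) + B) →
      M.natAbs.divisors.card ≤ d) (i : Fin m) (l : ℕ) (hl : 2 ^ l ≤ P) :
    (Sl k m P H b i l).card ≤ 5 ^ m * 9000 * R * d * (P ^ (m + 2) * (2 * H + 1) ^ m) := by
  classical
  obtain ⟨Z, hZ⟩ : ∃ Z, Z = 2 ^ l := ⟨_, rfl⟩
  have hZ1 : 1 ≤ Z := by
    rw [hZ]
    exact Nat.one_le_two_pow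
  rw [← hZ] at hl
  have hk2 : 2 ≤ k := by omega
  have hpm : (2 * H + 1) ^ m = (2 * H + 1) * (2 * H + 1) ^ (m - 1) := by
    rw [← pow_succ']
    congr 1
    omega
  have hS : ∀ t ∈ Sl k m P H b i l, t ∈ T k m P H b ∧ (t.2.1 i).1 ≠ (t.2.1 i).2 ∧
      (∀ j, (t.2.1 j).1 ≠ (t.2.1 j).2 →
        max (t.2.1 j).1 (t.2.1 j).2 ≤ max (t.2.1 i).1 (t.2.1 i).2) ∧
      (Z : ℤ) ≤ max (t.2.1 i).1 (t.2.1 i).2 ∧ max (t.2.1 i).1 (t.2.1 i).2 ≤ 2 * Z := by
    intro t ht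
    unfold Sl at ht
    rw [mem_filter, ← hZ] at ht
    exact ⟨ht.1, ht.2.1, ht.2.2.1, ht.2.2.2.1, ht.2.2.2.2.le⟩
  have hV : ∀ t ∈ Sl k m P H b i l, ∀ j, j ≠ i → t.2.1 j ∈ Vl P Z := by
    intro t ht j _
    obtain ⟨h1, h2, h3, h4, h5⟩ := hS t ht
    have h6 := (mem_T.1 h1).2.1 j
    unfold Vl
    rw [mem_union]
    by_cases hj : (t.2.1 j).1 = (t.2.1 j).2
    · left
      rw [mem_image]
      exact ⟨(t.2.1 j).1, mem_Icc.2 h6.1, Prod.ext rfl hj⟩
    · right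
      have h7 := (h3 j hj).trans h5
      rw [mem_product, mem_Icc, mem_Icc]
      exact ⟨⟨h6.1.1, (le_max_left _ _).trans h7⟩, h6.2.1, (le_max_right _ _).trans h7⟩
  have haB : ∀ t ∈ T k m P H b, ∀ j, |t.2.2 j| ≤ (B : ℤ) := by
    intro t ht j
    have h1 := (mem_T.1 ht).2.2.1 j
    have h2 := abs_add_le (t.2.2 j - b j) (b j)
    rw [sub_add_cancel] at h2
    have h3 := hb j
    linarith
  have hi2 : ∀ t ∈ Sl k m P H b i l, |h k (t.2.1 i) (t.2.2 i)| ≤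
      (2 * Z : ℕ) * (k * ((2 * Z : ℕ) : ℤ) ^ (k - 1) + B) := by
    intro t ht
    obtain ⟨h1, h2, h3, h4, h5⟩ := hS t ht
    have h6 := (mem_T.1 h1).2.1 i
    refine h_abs_le h6.1.1 ?_ h6.2.1 ?_ (haB t h1 i)
    · push_cast
      exact (le_max_left _ _).trans h5
    · push_cast
      exact (le_max_right _ _).trans h5
  -- the non-vanishing part, for any set Q
  have key : ∀ Q : Finset (Fin 4 → ℤ), (∀ t ∈ Sl k m P H b i l, t.1 ∈ Q) →
      ((Sl k m P H b i l).filter fun t => h k (t.2.1 i) (t.2.2 i) ≠ 0).card ≤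
        (min (2 * Z) (2 * H / Z ^ m + 1) * (2 * d)) *
          (Q.card * ((P + 4 * Z ^ 2) ^ (m - 1) * (2 * H + 1) ^ (m - 1))) := by
    intro Q hQ
    have e1 : k - 2 = m := by omega
    have h1 := card_nonzero (k := k) (H := H) (Z := Z) (d := d) hk2 hZ1 b i Q (Vl P Z)
      ((Sl k m P H b i l).filter fun t => h k (t.2.1 i) (t.2.2 i) ≠ 0)
      (fun t ht => hQ t (mem_filter.1 ht).1) (fun t ht => hV t (mem_filter.1 ht).1)
      (fun t ht => (mem_T.1 (hS t (mem_filter.1 ht).1).1).2.2.1)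
      (fun t ht => by
        obtain ⟨h1, h2, h3, h4, h5⟩ := hS t (mem_filter.1 ht).1
        have h6 := (mem_T.1 h1).2.1 i
        exact ⟨by linarith [h6.1.1], by linarith [h6.2.1], h4, h5⟩)
      (fun t ht => (mem_filter.1 ht).2)
      (fun t ht => by
        obtain ⟨h1, h2, h3, h4, h5⟩ := hS t (mem_filter.1 ht).1
        have h6 := (mem_T.1 h1).2.1 i
        exact hd _ (mem_filter.1 ht).2
          (h_abs_le h6.1.1 h6.1.2 h6.2.1 h6.2.2 (haB t h1 i)))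
      (fun t ht => (mem_T.1 (hS t (mem_filter.1 ht).1).1).2.2.2)
    rw [e1] at h1
    refine h1.trans (Nat.mul_le_mul_left _ (Nat.mul_le_mul_left _ (Nat.mul_le_mul_right _ ?_)))
    exact Nat.pow_le_pow_left (card_Vl P Z) _
  have hnz : ((Sl k m P H b i l).filter fun t => h k (t.2.1 i) (t.2.2 i) ≠ 0).card ≤
      5 ^ m * 3000 * R * (2 * d) * (P ^ (m + 2) * (2 * H + 1) ^ m) := by
    rcases Nat.lt_or_ge 1 m with hm2 | hm2
    · refine (key (quads P) fun t ht => (mem_T.1 (hS t ht).1).1).trans ?_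
      rw [card_quads, hpm]
      calc (min (2 * Z) (2 * H / Z ^ m + 1) * (2 * d)) *
          (P ^ 4 * ((P + 4 * Z ^ 2) ^ (m - 1) * (2 * H + 1) ^ (m - 1)))
          = (min (2 * Z) (2 * H / Z ^ m + 1) * (P ^ 4 * (P + 4 * Z ^ 2) ^ (m - 1))) *
            ((2 * d) * (2 * H + 1) ^ (m - 1)) := by ring
        _ ≤ (5 ^ m * 3 * R * (P ^ (m + 2) * (2 * H + 1))) * ((2 * d) * (2 * H + 1) ^ (m - 1)) :=
            Nat.mul_le_mul_right _ (numA hm2 hZ1 hl hR hR1 le_rfl)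
        _ = 5 ^ m * 3 * R * (2 * d) * (P ^ (m + 2) * ((2 * H + 1) * (2 * H + 1) ^ (m - 1))) := by
            ring
        _ ≤ _ := Nat.mul_le_mul_right _ (Nat.mul_le_mul_right _ (Nat.mul_le_mul_right _
            (Nat.mul_le_mul_left _ (by norm_num))))
    · have hm1 : m = 1 := by omega
      subst hm1
      have hk3 : k = 3 := by omega
      subst hk3
      have hQ : ∀ t ∈ Sl 3 1 P H b i l, t.1 ∈ (quads P).filter fun q =>
          |E 3 q| ≤ ((24 * Z ^ 3 + 2 * Z * B : ℕ) : ℤ) := by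
        intro t ht
        have h1 := mem_T.1 (hS t ht).1
        rw [mem_filter]
        refine ⟨h1.1, ?_⟩
        have h2 := h1.2.2.2
        have h3 : ∑ j : Fin 1, h 3 (t.2.1 j) (t.2.2 j) = h 3 (t.2.1 i) (t.2.2 i) := by
          rw [Fin.sum_univ_one]
          congr 2
          · exact congrArg _ (Subsingleton.elim _ _)
          · exact congrArg _ (Subsingleton.elim _ _)
        rw [h3] at h2
        have h4 : E 3 t.1 = -h 3 (t.2.1 i) (t.2.2 i) := by linarith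
        rw [h4, abs_neg]
        refine (hi2 t ht).trans (le_of_eq ?_)
        push_cast
        ring
      refine (key _ hQ).trans ?_
      simp only [Nat.sub_self, pow_zero, pow_one, mul_one]
      have h5 : P ≤ R * H := by simpa using hR
      calc (min (2 * Z) (2 * H / Z + 1) * (2 * d)) *
          ((quads P).filter fun q => |E 3 q| ≤ ((24 * Z ^ 3 + 2 * Z * B : ℕ) : ℤ)).card
          ≤ (min (2 * Z) (2 * H / Z + 1) * (2 * d)) *
            (24 * (P ^ 3 + 2 * (24 * Z ^ 3 + 2 * Z * B) * P)) :=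
            Nat.mul_le_mul_left _ (card_quads_cube P _)
        _ = (min (2 * Z) (2 * H / Z + 1) * (24 * (P ^ 3 + 2 * (24 * Z ^ 3 + 2 * Z * B) * P))) *
            (2 * d) := by ring
        _ ≤ (3000 * R * (P ^ 3 * (2 * H + 1))) * (2 * d) :=
            Nat.mul_le_mul_right _ (numB hl h5 hR1 (by simpa using hB))
        _ = 1 * 3000 * R * (2 * d) * (P ^ (1 + 2) * (2 * H + 1)) := by ring
        _ ≤ _ := Nat.mul_le_mul_right _ (Nat.mul_le_mul_right _ (Nat.mul_le_mul_right _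
            (Nat.mul_le_mul_right _ (by norm_num))))
  have hz : ((Sl k m P H b i l).filter fun t => ¬ h k (t.2.1 i) (t.2.2 i) ≠ 0).card ≤
      5 ^ m * 3000 * R * d * (P ^ (m + 2) * (2 * H + 1) ^ m) := by
    rcases ((Sl k m P H b i l).filter fun t => ¬ h k (t.2.1 i) (t.2.2 i) ≠ 0).eq_empty_or_nonempty
      with he | ⟨t0, ht0⟩
    · rw [he, card_empty]
      exact Nat.zero_le _
    have h00 : ∀ t ∈ (Sl k m P H b i l).filter fun t => ¬ h k (t.2.1 i) (t.2.2 i) ≠ 0,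
        h k (t.2.1 i) (t.2.2 i) = 0 := fun t ht => not_not.1 (mem_filter.1 ht).2
    obtain ⟨U, hU⟩ : ∃ U : Finset (ℤ × ℤ), U = (Icc 1 (2 * (Z : ℤ)) ×ˢ Icc 1 (2 * (Z : ℤ))).filter
      fun p => (Z : ℤ) ≤ max p.1 p.2 ∧ |g k p.1 p.2 + b i| ≤ H := ⟨_, rfl⟩
    have hUc : U.card ≤ (5 * Z) * (2 * H / Z ^ m + 1) := by
      have e1 : k - 2 = m := by omega
      rw [← e1]
      refine zero_dyadic hk2 hZ1 (b i) U fun p hp => ?_
      rw [hU, mem_filter, mem_product, mem_Icc, mem_Icc] at hp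
      obtain ⟨⟨⟨h1, h2⟩, h3, h4⟩, h5, h6⟩ := hp
      exact ⟨by linarith, by linarith, h5, max_le h2 h4, h6⟩
    have h1 := card_zero (k := k) (P := P) (H := H) hk2 b i U (Vl P Z)
      ((Sl k m P H b i l).filter fun t => ¬ h k (t.2.1 i) (t.2.2 i) ≠ 0)
      (fun t ht => (mem_T.1 (hS t (mem_filter.1 ht).1).1).1)
      (fun t ht => hV t (mem_filter.1 ht).1)
      (fun t ht => by
        obtain ⟨h1, h2, h3, h4, h5⟩ := hS t (mem_filter.1 ht).1
        have h6 := (mem_T.1 h1).2.1 i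
        rw [hU, mem_filter, mem_product, mem_Icc, mem_Icc]
        refine ⟨⟨⟨h6.1.1, (le_max_left _ _).trans h5⟩, h6.2.1, (le_max_right _ _).trans h5⟩, h4, ?_⟩
        have h7 := h00 t ht
        unfold h at h7
        have h8 := (mul_eq_zero.1 h7).resolve_left (sub_ne_zero.2 h2)
        have h9 := (mem_T.1 h1).2.2.1 i
        have h10 : g k (t.2.1 i).1 (t.2.1 i).2 + b i = -(t.2.2 i - b i) := by linarith
        rw [h10, abs_neg]
        exact h9)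
      (fun t ht => (hS t (mem_filter.1 ht).1).2.1)
      (fun t ht => (mem_T.1 (hS t (mem_filter.1 ht).1).1).2.2.1)
      h00 (fun t ht => (mem_T.1 (hS t (mem_filter.1 ht).1).1).2.2.2)
    refine h1.trans ?_
    rw [hpm]
    calc P ^ 3 * (U.card * ((Vl P Z).card ^ (m - 1) * (2 * H + 1) ^ (m - 1)))
        ≤ P ^ 3 * (((5 * Z) * (2 * H / Z ^ m + 1)) *
          ((Vl P Z).card ^ (m - 1) * (2 * H + 1) ^ (m - 1))) :=
          Nat.mul_le_mul_left _ (Nat.mul_le_mul_right _ hUc)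
      _ = (P ^ 3 * (((5 * Z) * (2 * H / Z ^ m + 1)) * (Vl P Z).card ^ (m - 1))) *
          (2 * H + 1) ^ (m - 1) := by ring
      _ ≤ (5 ^ m * 3 * R * (P ^ (m + 2) * (2 * H + 1))) * (2 * H + 1) ^ (m - 1) :=
          Nat.mul_le_mul_right _ (numC hm hZ1 hl hR hR1 (card_Vl P Z))
      _ = 5 ^ m * 3 * R * 1 * (P ^ (m + 2) * ((2 * H + 1) * (2 * H + 1) ^ (m - 1))) := by ring
      _ ≤ _ := Nat.mul_le_mul_right _ (Nat.mul_le_mul (Nat.mul_le_mul_right _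
          (Nat.mul_le_mul_left _ (by norm_num))) hd1)
  rw [← card_filter_add_card_filter_not (fun t => h k (t.2.1 i) (t.2.2 i) ≠ 0)]
  refine (Nat.add_le_add hnz hz).trans (le_of_eq ?_)
  ring

theorem card_T {k m P H R d B : ℕ} (b : Fin m → ℤ) (hm : 1 ≤ m) (hkm : k = m + 2) (hP : 1 ≤ P)
    (hR : P ^ m ≤ R * H) (hR1 : 1 ≤ R) (hd1 : 1 ≤ d) (hb : ∀ j, |b j| + H ≤ B)
    (hB : B ≤ 2 * P ^ (k - 1))
    (hd : ∀ M : ℤ, M ≠ 0 → |M| ≤ (P : ℤ) * (k * (P : ℤ) ^ (k - 1) + B) →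
      M.natAbs.divisors.card ≤ d) :
    (T k m P H b).card ≤ (m + 1) * (5 ^ m * 9000) * (R * d * (Nat.log 2 P + 1)) *
      (P ^ k * (2 * H + 1) ^ m) := by
  classical
  have h1 := (card_le_card (T_cover (k := k) (m := m) (P := P) (H := H) (b := b))).trans
    (card_union_le _ _)
  have h2 := T_zero (k := k) (m := m) (P := P) (H := H) (d := d) (b := b) (by omega) fun M hM hMP => by
    refine hd M hM (hMP.trans ?_)
    have e1 : (P : ℤ) ^ k = (P : ℤ) * (P : ℤ) ^ (k - 1) := by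
      rw [← pow_succ']
      congr 1
      omega
    rw [e1]
    refine mul_le_mul_of_nonneg_left ?_ (by positivity)
    have h3 : (0 : ℤ) ≤ (P : ℤ) ^ (k - 1) := by positivity
    have h4 : (1 : ℤ) ≤ k := by
      have : 1 ≤ k := by omega
      exact_mod_cast this
    have h5 : (0 : ℤ) ≤ B := by positivity
    nlinarith
  have h3 : ((univ : Finset (Fin m)).biUnion fun i => (range (Nat.log 2 P + 1)).biUnion fun l =>
      Sl k m P H b i l).card ≤ m * ((Nat.log 2 P + 1) *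
        (5 ^ m * 9000 * R * d * (P ^ (m + 2) * (2 * H + 1) ^ m))) := by
    refine card_biUnion_le.trans ?_
    refine (sum_le_card_nsmul _ _ ((Nat.log 2 P + 1) *
      (5 ^ m * 9000 * R * d * (P ^ (m + 2) * (2 * H + 1) ^ m))) fun i _ => ?_).trans
        (le_of_eq ?_)
    · refine card_biUnion_le.trans ?_
      refine (sum_le_card_nsmul _ _ (5 ^ m * 9000 * R * d * (P ^ (m + 2) * (2 * H + 1) ^ m))
        fun l hl => ?_).trans (le_of_eq ?_)
      · refine card_Sl b hm hkm hR hR1 hd1 hb hB hd i l ?_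
        refine (Nat.pow_le_pow_right (by norm_num) (Nat.lt_succ_iff.1 (mem_range.1 hl))).trans ?_
        exact Nat.pow_log_le_self 2 (by omega)
      · rw [card_range, smul_eq_mul]
    · rw [card_univ, Fintype.card_fin, smul_eq_mul]
  refine (h1.trans (Nat.add_le_add h2 h3)).trans ?_
  have e2 : P ^ 2 * (1 + 2 * d) * (P ^ m * (2 * H + 1) ^ m) =
      (1 + 2 * d) * (P ^ k * (2 * H + 1) ^ m) := by
    rw [hkm]
    ring
  have e3 : m * ((Nat.log 2 P + 1) * (5 ^ m * 9000 * R * d * (P ^ (m + 2) * (2 * H + 1) ^ m))) =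
      (m * (5 ^ m * 9000)) * (R * d * (Nat.log 2 P + 1)) * (P ^ k * (2 * H + 1) ^ m) := by
    rw [hkm]
    ring
  rw [e2, e3]
  have h4 : 1 + 2 * d ≤ (5 ^ m * 9000) * (R * d * (Nat.log 2 P + 1)) := by
    have h5 : 1 ≤ 5 ^ m := Nat.one_le_pow _ _ (by norm_num)
    have h6 : d ≤ R * d * (Nat.log 2 P + 1) := by
      calc d = 1 * d * 1 := by ring
        _ ≤ R * d * (Nat.log 2 P + 1) :=
          Nat.mul_le_mul (Nat.mul_le_mul_right _ hR1) (by omega)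
    calc 1 + 2 * d ≤ 9000 * d := by omega
      _ = (1 * 9000) * d := by ring
      _ ≤ _ := Nat.mul_le_mul (Nat.mul_le_mul_right _ h5) h6
  calc (1 + 2 * d) * (P ^ k * (2 * H + 1) ^ m) +
      (m * (5 ^ m * 9000)) * (R * d * (Nat.log 2 P + 1)) * (P ^ k * (2 * H + 1) ^ m)
      ≤ ((5 ^ m * 9000) * (R * d * (Nat.log 2 P + 1))) * (P ^ k * (2 * H + 1) ^ m) +
        (m * (5 ^ m * 9000)) * (R * d * (Nat.log 2 P + 1)) * (P ^ k * (2 * H + 1) ^ m) :=
        Nat.add_le_add_right (Nat.mul_le_mul_right _ h4) _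
    _ = _ := by ring

end KTwo
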