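import Pool.Agent.Lib.MP_df17e9_nt.TxG

/-! Two exact powers: from representations to solutions. -/

namespace KTwo

open Finset

/-- x_1^k + ... + x_k^k + a_1 x_1 + ... + a_k x_k -/
def val (k : ℕ) (a : Fin k → ℤ) (x : Fin k → ℕ) : ℤ := ∑ i, ((x i : ℤ) ^ k + a i * x i)

/-- the representations of n -/
def reps (k : ℕ) (a : Fin k → ℤ) (n : ℕ) : Set (Fin k → ℕ) :=
  {x | (∀ i, 0 < x i) ∧ val k a x = n}

/-- the coefficient vectors -/
def box (k H : ℕ) (b : Fin k → ℤ) : Set (Fin k → ℤ) :=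
  {a | ∀ i : Fin k, if (i : ℕ) < 2 then a i = 0 else |a i - b i| ≤ H}

/-- the vectors with coordinates in [1, P] -/
noncomputable def cube (k P : ℕ) : Finset (Fin k → ℕ) := Fintype.piFinset fun _ => Icc 1 P

/-- the pairs with equal values -/
noncomputable def pairs (k P : ℕ) (a : Fin k → ℤ) : Finset ((Fin k → ℕ) × (Fin k → ℕ)) :=
  (cube k P ×ˢ cube k P).filter fun p => val k a p.1 = val k a p.2

lemma mem_cube {k P : ℕ} {x : Fin k → ℕ} : x ∈ cube k P ↔ ∀ i, 1 ≤ x i ∧ x i ≤ P := by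
  unfold cube
  rw [Fintype.mem_piFinset]
  simp only [mem_Icc]

lemma reps_eq {k P n : ℕ} {a : Fin k → ℤ} (hsub : reps k a n ⊆ ↑(cube k P)) :
    reps k a n = ↑((cube k P).filter fun x => val k a x = n) := by
  ext x
  rw [coe_filter, Set.mem_ofPred_eq]
  constructor
  · intro hx
    exact ⟨mem_coe.1 (hsub hx), hx.2⟩
  · rintro ⟨h1, h2⟩
    exact ⟨fun i => (mem_cube.1 h1 i).1, h2⟩

lemma sum_sq_le {k P M : ℕ} {a : Fin k → ℤ}
    (hsub : ∀ n ∈ Icc 1 M, reps k a n ⊆ ↑(cube k P)) :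
    ∑ n ∈ Icc 1 M, (reps k a n).ncard ^ 2 ≤ (pairs k P a).card := by
  classical
  have h1 : ∀ n ∈ Icc 1 M, (reps k a n).ncard ^ 2 =
      (((cube k P).filter fun x => val k a x = n) ×ˢ
        ((cube k P).filter fun x => val k a x = n)).card := by
    intro n hn
    rw [reps_eq (hsub n hn), Set.ncard_coe_finset, card_product, sq]
  rw [sum_congr rfl h1, ← card_biUnion]
  · refine card_le_card fun p hp => ?_
    rw [mem_biUnion] at hp
    obtain ⟨n, hn, hp⟩ := hp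
    rw [mem_product, mem_filter, mem_filter] at hp
    unfold pairs
    rw [mem_filter, mem_product]
    exact ⟨⟨hp.1.1, hp.2.1⟩, hp.1.2.trans hp.2.2.symm⟩
  · intro n hn n' hn' hne
    rw [Function.onFun, disjoint_left]
    intro p hp hp'
    rw [mem_product, mem_filter, mem_filter] at hp hp'
    have h2 : (n : ℤ) = n' := hp.1.2.symm.trans hp'.1.2
    exact hne (by exact_mod_cast h2)

/-- the coefficient vectors, as a finite set -/
noncomputable def boxF (m H : ℕ) (b : Fin (m + 2) → ℤ) : Finset (Fin (m + 2) → ℤ) :=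
  Fintype.piFinset fun i : Fin (m + 2) =>
    if (i : ℕ) < 2 then {0} else Icc (b i - (H : ℤ)) (b i + H)

lemma mem_boxF {m H : ℕ} {b a : Fin (m + 2) → ℤ} : a ∈ boxF m H b ↔ a ∈ box (m + 2) H b := by
  unfold boxF box
  rw [Fintype.mem_piFinset, Set.mem_ofPred_eq]
  refine forall_congr' fun i => ?_
  by_cases hi : (i : ℕ) < 2
  · rw [if_pos hi, if_pos hi, mem_singleton]
  · rw [if_neg hi, if_neg hi, mem_Icc, abs_le]
    constructor
    · rintro ⟨h1, h2⟩
      exact ⟨by linarith, by linarith⟩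
    · rintro ⟨h1, h2⟩
      exact ⟨by linarith, by linarith⟩

lemma coe_boxF {m H : ℕ} {b : Fin (m + 2) → ℤ} :
    (boxF m H b : Set (Fin (m + 2) → ℤ)) = box (m + 2) H b := by
  ext a
  rw [mem_coe]
  exact mem_boxF

lemma card_boxF {m H : ℕ} {b : Fin (m + 2) → ℤ} : (boxF m H b).card = (2 * H + 1) ^ m := by
  unfold boxF
  rw [Fintype.card_piFinset, Fin.prod_univ_succ, Fin.prod_univ_succ]
  have h1 : ∀ j : Fin m, (if ((j.succ.succ : Fin (m + 2)) : ℕ) < 2 then ({0} : Finset ℤ) else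
      Icc (b j.succ.succ - (H : ℤ)) (b j.succ.succ + H)).card = 2 * H + 1 := by
    intro j
    rw [if_neg (by rw [Fin.val_succ, Fin.val_succ]; omega), Int.card_Icc]
    omega
  rw [prod_congr rfl fun j _ => h1 j, prod_const, card_univ, Fintype.card_fin]
  rw [if_pos (by simp), if_pos (by simp), card_singleton, one_mul, one_mul]

lemma sum_pairs_le {m P H : ℕ} (b : Fin (m + 2) → ℤ) :
    ∑ a ∈ boxF m H b, (pairs (m + 2) P a).card ≤
      (T (m + 2) m P H fun j => b j.succ.succ).card := by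
  classical
  rw [← card_sigma]
  obtain ⟨F, hF⟩ : ∃ F : (Sigma fun _ : Fin (m + 2) → ℤ =>
      (Fin (m + 2) → ℕ) × (Fin (m + 2) → ℕ)) →
    ((Fin 4 → ℤ) × (Fin m → ℤ × ℤ) × (Fin m → ℤ)), F = fun s =>
      (![(s.2.1 0 : ℤ), (s.2.1 1 : ℤ), (s.2.2 0 : ℤ), (s.2.2 1 : ℤ)],
        (fun j => ((s.2.1 j.succ.succ : ℤ), (s.2.2 j.succ.succ : ℤ))),
        fun j => s.1 j.succ.succ) := ⟨_, rfl⟩
  refine card_le_card_of_injOn F ?_ ?_
  · rintro ⟨a, x, y⟩ hs
    rw [mem_coe, mem_sigma] at hs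
    obtain ⟨ha, hp⟩ := hs
    unfold pairs at hp
    rw [mem_filter, mem_product] at hp
    obtain ⟨⟨hx, hy⟩, he⟩ := hp
    have hx' := mem_cube.1 hx
    have hy' := mem_cube.1 hy
    have ha' := mem_boxF.1 ha
    dsimp only at hx' hy' ha' he
    have hxZ : ∀ i, (1 : ℤ) ≤ x i ∧ (x i : ℤ) ≤ P := fun i =>
      ⟨by exact_mod_cast (hx' i).1, by exact_mod_cast (hx' i).2⟩
    have hyZ : ∀ i, (1 : ℤ) ≤ y i ∧ (y i : ℤ) ≤ P := fun i =>
      ⟨by exact_mod_cast (hy' i).1, by exact_mod_cast (hy' i).2⟩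
    rw [mem_coe, hF]
    refine mem_T.2 ⟨?_, ?_, ?_, ?_⟩
    · unfold quads
      rw [Fintype.mem_piFinset]
      intro i
      rw [mem_Icc]
      fin_cases i
      · exact hxZ 0
      · exact hxZ 1
      · exact hyZ 0
      · exact hyZ 1
    · intro j
      exact ⟨hxZ j.succ.succ, hyZ j.succ.succ⟩
    · intro j
      have e0 := ha' j.succ.succ
      rw [if_neg (by rw [Fin.val_succ, Fin.val_succ]; omega)] at e0
      exact e0
    · have e0 : a 0 = 0 := by
        have := ha' 0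
        rwa [if_pos (by simp)] at this
      have e1 : a 1 = 0 := by
        have := ha' 1
        rwa [if_pos (by simp)] at this
      unfold val at he
      rw [Fin.sum_univ_succ, Fin.sum_univ_succ, Fin.sum_univ_succ (n := m + 1),
        Fin.sum_univ_succ (n := m)] at he
      have e2 : (Fin.succ 0 : Fin (m + 2)) = 1 := rfl
      rw [e2, e0, e1] at he
      have e3 : ∑ j : Fin m, h (m + 2) ((x j.succ.succ : ℤ), (y j.succ.succ : ℤ))
          (a j.succ.succ) = ∑ j : Fin m, ((x j.succ.succ : ℤ) ^ (m + 2) +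
            a j.succ.succ * (x j.succ.succ : ℤ)) - ∑ j : Fin m,
              ((y j.succ.succ : ℤ) ^ (m + 2) + a j.succ.succ * (y j.succ.succ : ℤ)) := by
        rw [← sum_sub_distrib]
        exact sum_congr rfl fun j _ => h_eq _ _ _
      show E (m + 2) ![(x 0 : ℤ), (x 1 : ℤ), (y 0 : ℤ), (y 1 : ℤ)] + ∑ j : Fin m,
        h (m + 2) ((x j.succ.succ : ℤ), (y j.succ.succ : ℤ)) (a j.succ.succ) = 0
      rw [e3]
      unfold E
      show (x 0 : ℤ) ^ (m + 2) + (x 1 : ℤ) ^ (m + 2) - (y 0 : ℤ) ^ (m + 2) -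
        (y 1 : ℤ) ^ (m + 2) + _ = 0
      linarith
  · rintro ⟨a, x, y⟩ hs ⟨a', x', y'⟩ hs' hh
    rw [mem_coe, mem_sigma] at hs hs'
    have ha := mem_boxF.1 hs.1
    have ha' := mem_boxF.1 hs'.1
    dsimp only at ha ha'
    rw [hF] at hh
    simp only [Prod.mk.injEq] at hh
    obtain ⟨h1, h2, h3⟩ := hh
    have c0 : x 0 = x' 0 := Int.ofNat_inj.1 (congrFun h1 0)
    have c1 : x 1 = x' 1 := Int.ofNat_inj.1 (congrFun h1 1)
    have c2 : y 0 = y' 0 := Int.ofNat_inj.1 (congrFun h1 2)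
    have c3 : y 1 = y' 1 := Int.ofNat_inj.1 (congrFun h1 3)
    have c4 : ∀ j : Fin m, x j.succ.succ = x' j.succ.succ := by
      intro j
      exact Int.ofNat_inj.1 (congrArg Prod.fst (congrFun h2 j))
    have c5 : ∀ j : Fin m, y j.succ.succ = y' j.succ.succ := by
      intro j
      exact Int.ofNat_inj.1 (congrArg Prod.snd (congrFun h2 j))
    have c6 : ∀ j : Fin m, a j.succ.succ = a' j.succ.succ := fun j => congrFun h3 j
    have c7 : a 0 = a' 0 := by
      have e := ha 0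
      have e' := ha' 0
      rw [if_pos (by simp)] at e e'
      rw [e, e']
    have c8 : a 1 = a' 1 := by
      have e := ha 1
      have e' := ha' 1
      rw [if_pos (by simp)] at e e'
      rw [e, e']
    have d1 : x = x' := by
      funext i
      refine Fin.cases c0 (fun i => ?_) i
      exact Fin.cases c1 (fun j => c4 j) i
    have d2 : y = y' := by
      funext i
      refine Fin.cases c2 (fun i => ?_) i
      exact Fin.cases c3 (fun j => c5 j) i
    have d3 : a = a' := by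
      funext i
      refine Fin.cases c7 (fun i => ?_) i
      exact Fin.cases c8 (fun j => c6 j) i
    rw [d1, d2, d3]

/-- representations are bounded -/
lemma reps_bound {k n : ℕ} (hk : 2 ≤ k) {a : Fin k → ℤ} {Z : ℝ} (hZ : 1 ≤ Z)
    (ha : ∀ i, |(a i : ℝ)| ≤ 2 * Z ^ (k - 1)) (hn : (n : ℝ) ≤ Z ^ k) {x : Fin k → ℕ}
    (hx : x ∈ reps k a n) (i : Fin k) : (x i : ℝ) ≤ (2 * k + 1) * Z := by
  obtain ⟨_, hv⟩ := hx
  obtain ⟨i0, _, hi0⟩ := exists_max_image (univ : Finset (Fin k)) x ⟨i, mem_univ _⟩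
  refine le_trans (Nat.cast_le.2 (hi0 i (mem_univ _))) ?_
  by_contra hcon
  push Not at hcon
  obtain ⟨X, hX⟩ : ∃ X : ℝ, X = (x i0 : ℝ) := ⟨_, rfl⟩
  rw [← hX] at hcon
  have hk1 : (1 : ℝ) ≤ k := by exact_mod_cast (by omega : 1 ≤ k)
  have hXZ : Z < X := by
    refine lt_of_le_of_lt ?_ hcon
    nlinarith
  have hX0 : 0 < X := by linarith
  have hv' : ∑ i, ((x i : ℝ) ^ k + (a i : ℝ) * x i) = n := by
    unfold val at hv
    exact_mod_cast hv
  have h1 : X ^ k ≤ ∑ i, (x i : ℝ) ^ k := by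
    rw [hX]
    exact single_le_sum (f := fun i => (x i : ℝ) ^ k) (fun j _ => by positivity) (mem_univ i0)
  have h2 : -(∑ i : Fin k, (a i : ℝ) * x i) ≤ k * (2 * Z ^ (k - 1) * X) := by
    rw [← sum_neg_distrib]
    have h3 : ∀ j ∈ (univ : Finset (Fin k)), -((a j : ℝ) * x j) ≤ 2 * Z ^ (k - 1) * X := by
      intro j _
      have e1 : (x j : ℝ) ≤ X := by
        rw [hX]
        exact_mod_cast hi0 j (mem_univ _)
      have e2 : (0 : ℝ) ≤ x j := Nat.cast_nonneg _
      calc -((a j : ℝ) * x j) ≤ |(a j : ℝ) * x j| := neg_le_abs _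
        _ = |(a j : ℝ)| * x j := by rw [abs_mul, abs_of_nonneg e2]
        _ ≤ 2 * Z ^ (k - 1) * X := mul_le_mul (ha j) e1 e2 (by positivity)
    refine (sum_le_sum h3).trans (le_of_eq ?_)
    rw [sum_const, card_univ, Fintype.card_fin, nsmul_eq_mul]
  rw [sum_add_distrib] at hv'
  have h3 : X ^ k ≤ Z ^ k + k * (2 * Z ^ (k - 1) * X) := by linarith
  have h4 : Z ^ k = Z ^ (k - 1) * Z := by
    rw [← pow_succ]
    congr 1
    omega
  have h5 : X ^ k = X ^ (k - 1) * X := by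
    rw [← pow_succ]
    congr 1
    omega
  have h6 : (2 * (k : ℝ) + 1) * Z ^ (k - 1) ≤ X ^ (k - 1) := by
    calc (2 * (k : ℝ) + 1) * Z ^ (k - 1) ≤ (2 * (k : ℝ) + 1) ^ (k - 1) * Z ^ (k - 1) := by
          refine mul_le_mul_of_nonneg_right ?_ (by positivity)
          exact le_self_pow₀ (by linarith) (by omega)
      _ = ((2 * (k : ℝ) + 1) * Z) ^ (k - 1) := by rw [mul_pow]
      _ ≤ X ^ (k - 1) := pow_le_pow_left₀ (by positivity) hcon.le _
  have h7 : 0 < Z ^ (k - 1) := by positivity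
  rw [h4, h5] at h3
  have h8 : (2 * (k : ℝ) + 1) * Z ^ (k - 1) * X ≤ X ^ (k - 1) * X :=
    mul_le_mul_of_nonneg_right h6 hX0.le
  have h9 : Z ^ (k - 1) * Z < Z ^ (k - 1) * X := mul_lt_mul_of_pos_left hXZ h7
  nlinarith

lemma reps_finite {k : ℕ} (hk : 2 ≤ k) (a : Fin k → ℤ) (n : ℕ) : (reps k a n).Finite := by
  classical
  obtain ⟨Z, hZ⟩ : ∃ Z : ℕ, Z = n + 1 + ∑ i, (a i).natAbs := ⟨_, rfl⟩
  have hZ1 : (1 : ℝ) ≤ Z := by
    have : 1 ≤ Z := by omega
    exact_mod_cast this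
  refine Set.Finite.subset (Finset.finite_toSet (cube k ((2 * k + 1) * Z))) fun x hx => ?_
  rw [mem_coe, mem_cube]
  intro i
  refine ⟨hx.1 i, ?_⟩
  have h1 : ∀ i, |(a i : ℝ)| ≤ 2 * (Z : ℝ) ^ (k - 1) := by
    intro i
    have h2 : (a i).natAbs ≤ Z := by
      have := single_le_sum (f := fun i => (a i).natAbs) (fun j _ => Nat.zero_le _) (mem_univ i)
      omega
    have h3 : |(a i : ℝ)| ≤ Z := by
      have h4 : |a i| ≤ (Z : ℤ) := by
        rw [Int.abs_eq_natAbs]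
        exact_mod_cast h2
      exact_mod_cast h4
    have h5 : (Z : ℝ) ≤ (Z : ℝ) ^ (k - 1) := le_self_pow₀ hZ1 (by omega)
    linarith
  have h2 : (n : ℝ) ≤ (Z : ℝ) ^ k := by
    have h3 : (n : ℝ) ≤ Z := by
      have : n ≤ Z := by omega
      exact_mod_cast this
    exact h3.trans (le_self_pow₀ hZ1 (by omega))
  have h3 := reps_bound hk hZ1 h1 h2 hx i
  exact_mod_cast h3

end KTwo
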