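import Pool.Agent.Lib.MP_df17e9_nt.TxH
import Pool.Agent.Lib.MP_d807e3_co.Divisors

/-! Two exact powers: almost all coefficient vectors. -/

namespace KTwo

open Finset

/-- the bad vectors -/
def bad (k N : ℕ) (δ ε : ℝ) (a : Fin k → ℤ) : Prop :=
  ∃ M : ℕ, (N : ℝ) ^ (1 - δ) ≤ M ∧ (M : ℝ) ≤ (N : ℝ) ^ (1 + δ) ∧
    (M : ℝ) ^ (1 + ε) < ((∑ n ∈ Icc 1 M, (reps k a n).ncard ^ 2 : ℕ) : ℝ)

lemma ceil_le_two {x : ℝ} (hx : 1 ≤ x) : ((⌈x⌉₊ : ℕ) : ℝ) ≤ 2 * x := by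
  have := Nat.ceil_lt_add_one (show 0 ≤ x by linarith)
  linarith

lemma log_two_le {P : ℕ} (hP : 1 ≤ P) {η : ℝ} (hη : 0 < η) :
    ((Nat.log 2 P + 1 : ℕ) : ℝ) ≤ (2 / η + 1) * (P : ℝ) ^ η := by
  have hP0 : (0 : ℝ) < P := by exact_mod_cast hP
  have hP1 : (1 : ℝ) ≤ P := by exact_mod_cast hP
  have h1 : ((2 ^ Nat.log 2 P : ℕ) : ℝ) ≤ P := by
    exact_mod_cast Nat.pow_log_le_self 2 (by omega)
  have h2 := Real.log_le_log (by positivity) h1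
  push_cast at h2
  rw [Real.log_pow] at h2
  have h3 : (1 / 2 : ℝ) ≤ Real.log 2 := by
    have := Real.log_two_gt_d9
    linarith
  have h4 : (Nat.log 2 P : ℝ) * (1 / 2) ≤ Real.log P :=
    (mul_le_mul_of_nonneg_left h3 (Nat.cast_nonneg _)).trans h2
  have h5 := Real.log_le_rpow_div hP0.le hη
  have h6 : (1 : ℝ) ≤ (P : ℝ) ^ η := Real.one_le_rpow hP1 hη.le
  push_cast
  have h7 : (Nat.log 2 P : ℝ) ≤ 2 * ((P : ℝ) ^ η / η) := by linarith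
  calc (Nat.log 2 P : ℝ) + 1 ≤ 2 * ((P : ℝ) ^ η / η) + (P : ℝ) ^ η := by linarith
    _ = (2 / η + 1) * (P : ℝ) ^ η := by ring

theorem main (k : ℕ) (hk : 3 ≤ k) (ε : ℝ) (hε : 0 < ε) (hε1 : ε ≤ 1) :
    ∃ δ C : ℝ, 0 < δ ∧ ∀ N H : ℕ, 1 ≤ N → N ^ (k - 2) ≤ H ^ k → H ^ k ≤ N ^ (k - 1) →
      ∀ b : Fin k → ℤ, (∀ i, |b i| ^ k ≤ (N : ℤ) ^ (k - 1)) →
        (({a | a ∈ box k H b ∧ bad k N δ ε a}.ncard : ℕ) : ℝ) ≤
          C * (N : ℝ) ^ (-δ) * (((box k H b).ncard : ℕ) : ℝ) := by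
  classical
  obtain ⟨m, rfl⟩ : ∃ m, k = m + 2 := ⟨k - 2, by omega⟩
  have hm : 1 ≤ m := by omega
  obtain ⟨η, hη⟩ : ∃ η : ℝ, η = ε / 8 := ⟨_, rfl⟩
  obtain ⟨δ, hδ⟩ : ∃ δ : ℝ, δ = ε / 16 := ⟨_, rfl⟩
  have hη0 : 0 < η := by rw [hη]; linarith
  have hδ0 : 0 < δ := by rw [hδ]; linarith
  obtain ⟨Cd, hCd1, hCd⟩ := Pool.Agent.MP_d807e3_co.divisor_bound hη0
  obtain ⟨κ, hκ⟩ : ∃ κ : ℝ, κ = 2 * ((m + 2 : ℕ) : ℝ) + 2 := ⟨_, rfl⟩
  have hκ1 : 1 ≤ κ := by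
    rw [hκ]
    have : (0 : ℝ) ≤ ((m + 2 : ℕ) : ℝ) := Nat.cast_nonneg _
    linarith
  obtain ⟨c0, hc0⟩ : ∃ c0 : ℕ, c0 = (m + 1) * (5 ^ m * 9000) := ⟨_, rfl⟩
  obtain ⟨C2, hC2⟩ : ∃ C2 : ℝ, C2 = c0 * (2 * κ ^ m) *
    (2 * (Cd * (((m + 2 : ℕ) : ℝ) + 2) ^ η * (κ ^ (m + 2)) ^ η)) *
    ((2 / η + 1) * (κ ^ (m + 2)) ^ η) * κ ^ (m + 2) := ⟨_, rfl⟩
  refine ⟨δ, C2, hδ0, ?_⟩
  intro N H hN hNH hHN b hb
  have hNR : (1 : ℝ) ≤ N := by exact_mod_cast hN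
  have hN0 : (0 : ℝ) < N := by linarith
  obtain ⟨Y, hY⟩ : ∃ Y : ℝ, Y = (N : ℝ) ^ (1 / ((m + 2 : ℕ) : ℝ)) := ⟨_, rfl⟩
  have hkR : (0 : ℝ) < ((m + 2 : ℕ) : ℝ) := by positivity
  have hY1 : 1 ≤ Y := by
    rw [hY]
    exact Real.one_le_rpow hNR (by positivity)
  have hY0 : 0 < Y := by linarith
  have hYN : Y ^ (m + 2) = N := by
    rw [hY, ← Real.rpow_natCast, ← Real.rpow_mul hN0.le, one_div, inv_mul_cancel₀ hkR.ne',
      Real.rpow_one]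
  obtain ⟨Z, hZ⟩ : ∃ Z : ℝ, Z = Y ^ (1 + δ) := ⟨_, rfl⟩
  have hYZ : Y ≤ Z := by
    rw [hZ]
    calc Y = Y ^ (1 : ℝ) := (Real.rpow_one Y).symm
      _ ≤ Y ^ (1 + δ) := Real.rpow_le_rpow_of_exponent_le hY1 (by linarith)
  have hZ1 : 1 ≤ Z := hY1.trans hYZ
  have hZk : Z ^ (m + 2) = (N : ℝ) ^ (1 + δ) := by
    rw [hZ, ← Real.rpow_natCast, ← Real.rpow_mul hY0.le, mul_comm, Real.rpow_mul hY0.le,
      Real.rpow_natCast, hYN]
  obtain ⟨P, hP⟩ : ∃ P : ℕ, P = ⌈(2 * ((m + 2 : ℕ) : ℝ) + 1) * Z⌉₊ := ⟨_, rfl⟩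
  have hPZ : (2 * ((m + 2 : ℕ) : ℝ) + 1) * Z ≤ P := by
    rw [hP]
    exact Nat.le_ceil _
  have hPκ : (P : ℝ) ≤ κ * Z := by
    have h1 := Nat.ceil_lt_add_one (show 0 ≤ (2 * ((m + 2 : ℕ) : ℝ) + 1) * Z by positivity)
    rw [← hP] at h1
    rw [hκ]
    nlinarith
  have hZP : Z ≤ P := by
    refine le_trans ?_ hPZ
    have : (0 : ℝ) ≤ ((m + 2 : ℕ) : ℝ) * Z := by positivity
    nlinarith
  have hP1R : (1 : ℝ) ≤ P := hZ1.trans hZP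
  have hP1 : 1 ≤ P := by exact_mod_cast hP1R
  have hPk : (P : ℝ) ^ (m + 2) ≤ κ ^ (m + 2) * (N : ℝ) ^ (1 + δ) := by
    rw [← hZk, ← mul_pow]
    exact pow_le_pow_left₀ (by linarith) hPκ _
  have hNPk : N ≤ P ^ (m + 2) := by
    have h1 : (N : ℝ) ≤ (P : ℝ) ^ (m + 2) := by
      rw [← hYN]
      exact pow_le_pow_left₀ hY0.le (hYZ.trans hZP) _
    exact_mod_cast h1
  -- the number R
  obtain ⟨R, hR⟩ : ∃ R : ℕ, R = ⌈κ ^ m * (N : ℝ) ^ δ⌉₊ := ⟨_, rfl⟩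
  have hNδ : 1 ≤ (N : ℝ) ^ δ := Real.one_le_rpow hNR hδ0.le
  have hκm : 1 ≤ κ ^ m := one_le_pow₀ hκ1
  have hR0 : κ ^ m * (N : ℝ) ^ δ ≤ R := by
    rw [hR]
    exact Nat.le_ceil _
  have hR2 : (R : ℝ) ≤ 2 * (κ ^ m * (N : ℝ) ^ δ) := by
    rw [hR]
    exact ceil_le_two (one_le_mul_of_one_le_of_one_le hκm hNδ)
  have hR1 : 1 ≤ R := by
    have : (1 : ℝ) ≤ R := (one_le_mul_of_one_le_of_one_le hκm hNδ).trans hR0
    exact_mod_cast this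
  have hYm : Y ^ m ≤ H := by
    have h1 : (Y ^ m) ^ (m + 2) ≤ (H : ℝ) ^ (m + 2) := by
      rw [← pow_mul, mul_comm, pow_mul, hYN]
      have h2 : N ^ m ≤ H ^ (m + 2) := by simpa using hNH
      exact_mod_cast h2
    exact (pow_le_pow_iff_left₀ (by positivity) (Nat.cast_nonneg _) (by omega)).1 h1
  have hRH : P ^ m ≤ R * H := by
    have h1 : (P : ℝ) ^ m ≤ R * H := by
      calc (P : ℝ) ^ m ≤ (κ * Z) ^ m := pow_le_pow_left₀ (by linarith) hPκ _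
        _ = κ ^ m * Z ^ m := mul_pow _ _ _
        _ = κ ^ m * ((Y ^ δ) ^ m * Y ^ m) := by
            rw [hZ, Real.rpow_add hY0, Real.rpow_one, mul_pow]
            ring
        _ ≤ κ ^ m * ((N : ℝ) ^ δ * H) := by
            refine mul_le_mul_of_nonneg_left ?_ (by positivity)
            refine mul_le_mul ?_ hYm (by positivity) (by positivity)
            calc (Y ^ δ) ^ m ≤ (Y ^ δ) ^ (m + 2) :=
                  pow_le_pow_right₀ (Real.one_le_rpow hY1 hδ0.le) (by omega)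
              _ = (N : ℝ) ^ δ := by
                  rw [← Real.rpow_natCast, ← Real.rpow_mul hY0.le, mul_comm, Real.rpow_mul hY0.le,
                    Real.rpow_natCast, hYN]
        _ = (κ ^ m * (N : ℝ) ^ δ) * H := by ring
        _ ≤ R * H := mul_le_mul_of_nonneg_right hR0 (Nat.cast_nonneg _)
    exact_mod_cast h1
  -- the number B
  have hNP : N ^ (m + 1) ≤ (P ^ (m + 1)) ^ (m + 2) := by
    calc N ^ (m + 1) ≤ (P ^ (m + 2)) ^ (m + 1) := Nat.pow_le_pow_left hNPk _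
      _ = (P ^ (m + 1)) ^ (m + 2) := by rw [← pow_mul, ← pow_mul, mul_comm]
  have e1 : m + 2 - 1 = m + 1 := by omega
  rw [e1] at hHN hb
  have hbP : ∀ i, |b i| ≤ (P : ℤ) ^ (m + 1) := by
    intro i
    have h1 : |b i| ^ (m + 2) ≤ ((P : ℤ) ^ (m + 1)) ^ (m + 2) := by
      refine (hb i).trans ?_
      exact_mod_cast hNP
    exact (pow_le_pow_iff_left₀ (abs_nonneg _) (by positivity) (by omega)).1 h1
  have hHP : H ≤ P ^ (m + 1) := by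
    have h1 : H ^ (m + 2) ≤ (P ^ (m + 1)) ^ (m + 2) := hHN.trans hNP
    exact (pow_le_pow_iff_left₀ (Nat.zero_le _) (Nat.zero_le _) (by omega)).1 h1
  -- the number d
  obtain ⟨d, hd⟩ : ∃ d : ℕ, d = ⌈Cd * ((((m + 2 : ℕ) : ℝ) + 2) * (P : ℝ) ^ (m + 2)) ^ η⌉₊ :=
    ⟨_, rfl⟩
  have hPk1 : 1 ≤ (P : ℝ) ^ (m + 2) := one_le_pow₀ hP1R
  have hdd : 1 ≤ Cd * ((((m + 2 : ℕ) : ℝ) + 2) * (P : ℝ) ^ (m + 2)) ^ η := by
    refine one_le_mul_of_one_le_of_one_le hCd1 (Real.one_le_rpow ?_ hη0.le)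
    refine one_le_mul_of_one_le_of_one_le ?_ hPk1
    linarith
  have hd1 : 1 ≤ d := by
    rw [hd]
    exact Nat.one_le_ceil_iff.2 (by linarith)
  have hdiv : ∀ M : ℤ, M ≠ 0 → |M| ≤ (P : ℤ) * ((m + 2 : ℕ) * (P : ℤ) ^ (m + 2 - 1) +
      ((2 * P ^ (m + 1) : ℕ) : ℤ)) → M.natAbs.divisors.card ≤ d := by
    intro M hM hMP
    have h1 : 1 ≤ M.natAbs := by omega
    have h2 := hCd M.natAbs h1
    have h3 : (M.natAbs : ℝ) ≤ (((m + 2 : ℕ) : ℝ) + 2) * (P : ℝ) ^ (m + 2) := by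
      have h4 : (M.natAbs : ℤ) ≤ ((m + 2 : ℕ) + 2) * (P : ℤ) ^ (m + 2) := by
        rw [← Int.abs_eq_natAbs]
        refine hMP.trans (le_of_eq ?_)
        rw [e1]
        push_cast
        ring
      exact_mod_cast h4
    have h4 : (M.natAbs.divisors.card : ℝ) ≤ d := by
      refine h2.trans (le_trans ?_ (hd ▸ Nat.le_ceil _))
      refine mul_le_mul_of_nonneg_left ?_ (by linarith)
      exact Real.rpow_le_rpow (Nat.cast_nonneg _) h3 hη0.le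
    exact_mod_cast h4
  have hT := card_T (k := m + 2) (m := m) (P := P) (H := H) (R := R) (d := d)
    (B := 2 * P ^ (m + 1)) (fun j => b j.succ.succ) hm rfl hP1 hRH hR1 hd1
    (fun j => by
      have h1 := hbP j.succ.succ
      have h2 : (H : ℤ) ≤ (P : ℤ) ^ (m + 1) := by exact_mod_cast hHP
      push_cast
      linarith) (by rw [e1]) hdiv
  -- passing to real numbers
  obtain ⟨D, hD⟩ : ∃ D : ℝ, D = (N : ℝ) ^ (1 + δ) := ⟨_, rfl⟩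
  have hD1 : 1 ≤ D := by
    rw [hD]
    exact Real.one_le_rpow hNR (by linarith)
  rw [← hD] at hPk
  have hκ2 : 0 < κ ^ (m + 2) := by positivity
  have hPη : ((P : ℝ) ^ (m + 2)) ^ η ≤ (κ ^ (m + 2)) ^ η * D ^ η := by
    rw [← Real.mul_rpow hκ2.le (by linarith)]
    exact Real.rpow_le_rpow (by positivity) hPk hη0.le
  have hd2 : (d : ℝ) ≤ 2 * (Cd * (((m + 2 : ℕ) : ℝ) + 2) ^ η * (κ ^ (m + 2)) ^ η) * D ^ η := by
    have h1 : (d : ℝ) ≤ 2 * (Cd * ((((m + 2 : ℕ) : ℝ) + 2) * (P : ℝ) ^ (m + 2)) ^ η) := by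
      rw [hd]
      exact ceil_le_two hdd
    refine h1.trans ?_
    rw [Real.mul_rpow (by positivity) (by positivity)]
    have h2 : 0 ≤ 2 * Cd * (((m + 2 : ℕ) : ℝ) + 2) ^ η := by positivity
    calc 2 * (Cd * ((((m + 2 : ℕ) : ℝ) + 2) ^ η * ((P : ℝ) ^ (m + 2)) ^ η))
        = 2 * Cd * (((m + 2 : ℕ) : ℝ) + 2) ^ η * ((P : ℝ) ^ (m + 2)) ^ η := by ring
      _ ≤ 2 * Cd * (((m + 2 : ℕ) : ℝ) + 2) ^ η * ((κ ^ (m + 2)) ^ η * D ^ η) :=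
          mul_le_mul_of_nonneg_left hPη h2
      _ = _ := by ring
  have hL2 : ((Nat.log 2 P + 1 : ℕ) : ℝ) ≤ ((2 / η + 1) * (κ ^ (m + 2)) ^ η) * D ^ η := by
    refine (log_two_le hP1 hη0).trans ?_
    have h1 : (P : ℝ) ^ η ≤ ((P : ℝ) ^ (m + 2)) ^ η :=
      Real.rpow_le_rpow (by linarith) (le_self_pow₀ hP1R (by omega)) hη0.le
    calc (2 / η + 1) * (P : ℝ) ^ η ≤ (2 / η + 1) * ((κ ^ (m + 2)) ^ η * D ^ η) :=
          mul_le_mul_of_nonneg_left (h1.trans hPη) (by positivity)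
      _ = _ := by ring
  obtain ⟨A, hA⟩ : ∃ A : ℝ, A = (((2 * H + 1) ^ m : ℕ) : ℝ) := ⟨_, rfl⟩
  have hA0 : 0 ≤ A := by
    rw [hA]
    exact Nat.cast_nonneg _
  have hTR : (((T (m + 2) m P H fun j => b j.succ.succ).card : ℕ) : ℝ) ≤
      C2 * ((N : ℝ) ^ δ * (D ^ η * D ^ η) * D) * A := by
    have h1 : (((T (m + 2) m P H fun j => b j.succ.succ).card : ℕ) : ℝ) ≤
        (c0 : ℝ) * ((R : ℝ) * d * ((Nat.log 2 P + 1 : ℕ) : ℝ)) * ((P : ℝ) ^ (m + 2) * A) := by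
      rw [hA, hc0]
      exact_mod_cast hT
    refine h1.trans ?_
    have hD0 : 0 ≤ D ^ η := by positivity
    have h2 : (R : ℝ) * d ≤ (2 * (κ ^ m * (N : ℝ) ^ δ)) *
        (2 * (Cd * (((m + 2 : ℕ) : ℝ) + 2) ^ η * (κ ^ (m + 2)) ^ η) * D ^ η) :=
      mul_le_mul hR2 hd2 (Nat.cast_nonneg _) (by positivity)
    have h3 : (R : ℝ) * d * ((Nat.log 2 P + 1 : ℕ) : ℝ) ≤ ((2 * (κ ^ m * (N : ℝ) ^ δ)) *
        (2 * (Cd * (((m + 2 : ℕ) : ℝ) + 2) ^ η * (κ ^ (m + 2)) ^ η) * D ^ η)) *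
          (((2 / η + 1) * (κ ^ (m + 2)) ^ η) * D ^ η) :=
      mul_le_mul h2 hL2 (Nat.cast_nonneg _) (by positivity)
    have h4 : (P : ℝ) ^ (m + 2) * A ≤ (κ ^ (m + 2) * D) * A :=
      mul_le_mul_of_nonneg_right hPk hA0
    calc (c0 : ℝ) * ((R : ℝ) * d * ((Nat.log 2 P + 1 : ℕ) : ℝ)) * ((P : ℝ) ^ (m + 2) * A)
        ≤ (c0 : ℝ) * (((2 * (κ ^ m * (N : ℝ) ^ δ)) *
        (2 * (Cd * (((m + 2 : ℕ) : ℝ) + 2) ^ η * (κ ^ (m + 2)) ^ η) * D ^ η)) *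
          (((2 / η + 1) * (κ ^ (m + 2)) ^ η) * D ^ η)) * ((κ ^ (m + 2) * D) * A) :=
          mul_le_mul (mul_le_mul_of_nonneg_left h3 (Nat.cast_nonneg _)) h4 (by positivity)
            (by positivity)
      _ = C2 * ((N : ℝ) ^ δ * (D ^ η * D ^ η) * D) * A := by
          rw [hC2]
          ring
  -- the bad vectors
  obtain ⟨Bad, hBad⟩ : ∃ Bad : Finset (Fin (m + 2) → ℤ),
    Bad = (boxF m H b).filter fun a => bad (m + 2) N δ ε a := ⟨_, rfl⟩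
  have hBadEq : {a | a ∈ box (m + 2) H b ∧ bad (m + 2) N δ ε a} = (Bad : Set (Fin (m + 2) → ℤ)) := by
    rw [hBad]
    ext a
    rw [coe_filter, Set.mem_ofPred_eq, Set.mem_ofPred_eq, mem_boxF]
  rw [hBadEq, Set.ncard_coe_finset, ← coe_boxF, Set.ncard_coe_finset, card_boxF, ← hA]
  have hkey : ∀ a ∈ Bad, (N : ℝ) ^ ((1 - δ) * (1 + ε)) ≤ (((pairs (m + 2) P a).card : ℕ) : ℝ) := by
    intro a ha
    rw [hBad, mem_filter] at ha
    obtain ⟨haB, M, hM1, hM2, hM3⟩ := ha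
    have ha' := mem_boxF.1 haB
    have haR : ∀ i, |(a i : ℝ)| ≤ 2 * Z ^ (m + 2 - 1) := by
      intro i
      rw [e1]
      have hYm1 : ∀ x : ℝ, 0 ≤ x → x ^ (m + 2) ≤ (N : ℝ) ^ (m + 1) → x ≤ Z ^ (m + 1) := by
        intro x hx hxN
        have h1 : x ^ (m + 2) ≤ (Y ^ (m + 1)) ^ (m + 2) := by
          rw [← pow_mul, mul_comm, pow_mul, hYN]
          exact hxN
        have h2 := (pow_le_pow_iff_left₀ hx (by positivity) (by omega)).1 h1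
        exact h2.trans (pow_le_pow_left₀ hY0.le hYZ _)
      have h1 := ha' i
      by_cases hi : (i : ℕ) < 2
      · rw [if_pos hi] at h1
        rw [h1]
        simp only [Int.cast_zero, abs_zero]
        positivity
      · rw [if_neg hi] at h1
        have h2 : |(b i : ℝ)| ≤ Z ^ (m + 1) := by
          refine hYm1 _ (abs_nonneg _) ?_
          have := hb i
          exact_mod_cast this
        have h3 : (H : ℝ) ≤ Z ^ (m + 1) := by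
          refine hYm1 _ (Nat.cast_nonneg _) ?_
          exact_mod_cast hHN
        have h4 : |((a i : ℤ) : ℝ) - (b i : ℝ)| ≤ H := by exact_mod_cast h1
        have h5 := abs_add_le (((a i : ℤ) : ℝ) - (b i : ℝ)) (b i : ℝ)
        rw [sub_add_cancel] at h5
        linarith
    have h2 : ∀ n ∈ Icc 1 M, reps (m + 2) a n ⊆ ↑(cube (m + 2) P) := by
      intro n hn x hx
      rw [mem_Icc] at hn
      rw [mem_coe, mem_cube]
      intro i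
      refine ⟨hx.1 i, ?_⟩
      have h3 : (n : ℝ) ≤ Z ^ (m + 2) := by
        rw [hZk]
        refine le_trans ?_ hM2
        exact_mod_cast hn.2
      have h4 := (reps_bound (by omega) hZ1 haR h3 hx i).trans hPZ
      exact_mod_cast h4
    have h3 := sum_sq_le h2
    have h4 : ((∑ n ∈ Icc 1 M, (reps (m + 2) a n).ncard ^ 2 : ℕ) : ℝ) ≤
        (((pairs (m + 2) P a).card : ℕ) : ℝ) := by exact_mod_cast h3
    refine le_trans ?_ (hM3.le.trans h4)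
    rw [Real.rpow_mul hN0.le]
    exact Real.rpow_le_rpow (by positivity) hM1 (by linarith)
  have hsum : ((Bad.card : ℕ) : ℝ) * (N : ℝ) ^ ((1 - δ) * (1 + ε)) ≤
      C2 * ((N : ℝ) ^ δ * (D ^ η * D ^ η) * D) * A := by
    calc ((Bad.card : ℕ) : ℝ) * (N : ℝ) ^ ((1 - δ) * (1 + ε)) =
          ∑ _a ∈ Bad, (N : ℝ) ^ ((1 - δ) * (1 + ε)) := by
            rw [sum_const, nsmul_eq_mul]
      _ ≤ ∑ a ∈ Bad, (((pairs (m + 2) P a).card : ℕ) : ℝ) := sum_le_sum hkey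
      _ ≤ ∑ a ∈ boxF m H b, (((pairs (m + 2) P a).card : ℕ) : ℝ) := by
          refine sum_le_sum_of_subset_of_nonneg ?_ fun _ _ _ => Nat.cast_nonneg _
          rw [hBad]
          exact filter_subset _ _
      _ = ((∑ a ∈ boxF m H b, (pairs (m + 2) P a).card : ℕ) : ℝ) := by push_cast; rfl
      _ ≤ (((T (m + 2) m P H fun j => b j.succ.succ).card : ℕ) : ℝ) := by
          exact_mod_cast sum_pairs_le b
      _ ≤ _ := hTR
  have hexp : (N : ℝ) ^ δ * (D ^ η * D ^ η) * D ≤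
      (N : ℝ) ^ (-δ) * (N : ℝ) ^ ((1 - δ) * (1 + ε)) := by
    rw [hD, ← Real.rpow_mul hN0.le, ← Real.rpow_add hN0, ← Real.rpow_add hN0,
      ← Real.rpow_add hN0, ← Real.rpow_add hN0]
    refine Real.rpow_le_rpow_of_exponent_le hNR ?_
    rw [hδ, hη]
    nlinarith [mul_nonneg hε.le (sub_nonneg.2 hε1)]
  have hC20 : 0 ≤ C2 := by
    rw [hC2]
    positivity
  have hpos : (0 : ℝ) < (N : ℝ) ^ ((1 - δ) * (1 + ε)) := by positivity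
  refine le_of_mul_le_mul_right ?_ hpos
  refine hsum.trans ?_
  calc C2 * ((N : ℝ) ^ δ * (D ^ η * D ^ η) * D) * A
      ≤ C2 * ((N : ℝ) ^ (-δ) * (N : ℝ) ^ ((1 - δ) * (1 + ε))) * A :=
        mul_le_mul_of_nonneg_right (mul_le_mul_of_nonneg_left hexp hC20) hA0
    _ = C2 * (N : ℝ) ^ (-δ) * A * (N : ℝ) ^ ((1 - δ) * (1 + ε)) := by ring

end KTwo
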